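import Mathlib
import Pool.Agent.X10.AI.Near
import Pool.Agent.TH888.R.RR

set_option autoImplicit false

/-!
# Windows for the indicator of the primes
-/

namespace Pool.Agent.X10.AI

open Finset MeasureTheory Filter Topology
open Pool.Agent.H305R2 (roughPart NN ff measurable_NN measurable_ff ff_nonneg ff_le_one integrableOn_ff
  window_upper TT_eq RR RR_scaled window_le_TT TT_le_window LL LL_nonneg LL_le_one gg abs_gg_le
  abs_gg_le_one measurable_gg integrableOn_gg integrableOn_LL pr)
open Pool.Agent.TH888.R (RR_rate)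

/-- short windows -/
theorem short1 : ∃ K : ℝ, 0 < K ∧ ∀ u h : ℝ, 0 < h → h ≤ 5 → 2 ≤ u → 2 ≤ u + Real.log h →
    ∫ t in Set.Ioc u (u + h), ff 1 t ≤ K * (h / (u + Real.log h)) := by
  obtain ⟨C0, hC01, hBT⟩ := Pool.Agent.Helper601.brun_titchmarsh
  refine ⟨2 * C0 * 245, by positivity, fun u h hh hh5 hu2 hH => ?_⟩
  set H := u + Real.log h with hHdef
  set X := Real.exp u with hX
  have hX0 : 0 < X := Real.exp_pos _
  have hX1 : 1 ≤ X := Real.one_le_exp (by linarith)
  have hhX : h * X = Real.exp H := by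
    rw [hHdef, Real.exp_add, Real.exp_log hh, mul_comm]
  have hhX2 : 2 ≤ h * X := by
    rw [hhX]
    have := Real.add_one_le_exp H
    linarith
  set A := ⌊X⌋₊ with hA
  set B := ⌊Real.exp (u + h)⌋₊ with hB
  have hYe : Real.exp (u + h) = X * Real.exp h := by rw [Real.exp_add]
  have hA1 : 1 ≤ A := Nat.floor_pos.2 hX1
  have hAle : (A : ℝ) ≤ X := Nat.floor_le hX0.le
  have hAgt : X < A + 1 := Nat.lt_floor_add_one X
  have hA1' : (1 : ℝ) ≤ A := by exact_mod_cast hA1
  have hBle : (B : ℝ) ≤ X * Real.exp h := by rw [← hYe]; exact Nat.floor_le (Real.exp_pos _).le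
  have hBgt : X * Real.exp h < B + 1 := by rw [← hYe]; exact Nat.lt_floor_add_one _
  have hAB : A ≤ B := Nat.floor_mono (Real.exp_le_exp.2 (by linarith))
  have heh1 : 1 + h ≤ Real.exp h := by have := Real.add_one_le_exp h; linarith
  have heh2 : Real.exp h ≤ 1 + 243 * h := by
    have h1 : 1 - h ≤ Real.exp (-h) := by have := Real.add_one_le_exp (-h); linarith
    have h2 : Real.exp h * Real.exp (-h) = 1 := by rw [← Real.exp_add]; simp
    have h3 : Real.exp h ≤ 243 := by
      calc Real.exp h ≤ Real.exp 5 := Real.exp_le_exp.2 hh5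
        _ = Real.exp 1 ^ 5 := by rw [← Real.exp_nat_mul]; norm_num
        _ ≤ 3 ^ 5 := by
            have := Real.exp_one_lt_d9
            gcongr
            linarith
        _ = 243 := by norm_num
    have h4 := mul_le_mul_of_nonneg_left h1 (Real.exp_pos h).le
    have h5 := mul_le_mul_of_nonneg_right h3 hh.le
    nlinarith
  set N := B - A + 1 with hN
  have hNr : (N : ℝ) = B - A + 1 := by
    rw [hN]
    push_cast [Nat.cast_sub hAB]
    ring
  have hNup : (N : ℝ) ≤ 245 * (h * X) := by
    rw [hNr]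
    have : X * Real.exp h ≤ X * (1 + 243 * h) := mul_le_mul_of_nonneg_left heh2 hX0.le
    linarith
  have hNlow : h * X ≤ (N : ℝ) := by
    rw [hNr]
    have : X * (1 + h) ≤ X * Real.exp h := mul_le_mul_of_nonneg_left heh1 hX0.le
    linarith
  have hN2 : 2 ≤ N := by
    have : (2 : ℝ) ≤ N := hhX2.trans hNlow
    exact_mod_cast this
  have hlogN : H ≤ Real.log N := by
    rw [Real.le_log_iff_exp_le (by positivity), ← hhX]
    exact hNlow
  have hcount : (((Finset.Icc A B).filter (fun m => (roughPart 1 m).Prime)).card : ℝ) ≤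
      C0 * (245 * (h * X)) / H := by
    have h1 : ((Finset.Icc A B).filter (fun m => (roughPart 1 m).Prime)).card ≤
        ((Finset.range N).filter (fun k => (A + k * 1).Prime)).card := by
      refine Finset.card_le_card_of_injOn (fun m => m - A) ?_ ?_
      · intro m hm
        simp only [Finset.coe_filter, Finset.mem_Icc, Set.mem_ofPred_eq] at hm
        simp only [Finset.coe_filter, Finset.mem_range, Set.mem_ofPred_eq]
        obtain ⟨⟨h3, h4⟩, h5⟩ := hm
        rw [roughPart_one_prime] at h5
        refine ⟨by omega, ?_⟩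
        have : A + (m - A) * 1 = m := by omega
        rw [this]
        exact h5
      · intro m hm m' hm' he
        simp only [Finset.coe_filter, Finset.mem_Icc, Set.mem_ofPred_eq] at hm hm'
        simp only at he
        omega
    have h2 := hBT A 1 N hN2 (Or.inl rfl)
    calc (((Finset.Icc A B).filter (fun m => (roughPart 1 m).Prime)).card : ℝ) ≤
          (((Finset.range N).filter (fun k => (A + k * 1).Prime)).card : ℝ) := by exact_mod_cast h1
      _ ≤ C0 * N / Real.log N := h2
      _ ≤ C0 * (245 * (h * X)) / H := by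
          refine div_le_div₀ (by positivity) ?_ (by linarith) hlogN
          exact mul_le_mul_of_nonneg_left hNup (by linarith)
  have hstep1 : ∫ t in Set.Ioc u (u + h), ff 1 t ≤ 1 / (A : ℝ) *
      (((Finset.Icc A B).filter (fun m => (roughPart 1 m).Prime)).card : ℝ) := by
    refine (window_upper (by linarith)).trans ?_
    rw [← hX, ← hA, ← hB, ← nsmul_one (Finset.card _), ← Finset.sum_const, Finset.mul_sum]
    refine Finset.sum_le_sum fun m hm => ?_
    rw [Finset.mem_filter, Finset.mem_Icc] at hm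
    rw [mul_one]
    refine one_div_le_one_div_of_le (by linarith) ?_
    exact_mod_cast hm.1.1
  have hAinv : 1 / (A : ℝ) ≤ 2 / X := by
    rw [div_le_div_iff₀ (by linarith) hX0]
    linarith
  have hH0 : 0 < H := by linarith
  calc ∫ t in Set.Ioc u (u + h), ff 1 t ≤ 1 / (A : ℝ) * (C0 * (245 * (h * X)) / H) :=
        hstep1.trans (mul_le_mul_of_nonneg_left hcount (by positivity))
    _ ≤ 2 / X * (C0 * (245 * (h * X)) / H) := by
        refine mul_le_mul_of_nonneg_right hAinv ?_
        have : 0 ≤ C0 := by linarith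
        positivity
    _ = _ := by field_simp

/-- the mean with an error term -/
theorem LL1_rate : ∃ C : ℝ, 0 < C ∧ ∀ y : ℝ, 2 ≤ y → |LL 1 y - 1 / y| ≤ C / y ^ 2 := by
  obtain ⟨C, hC, hR⟩ := RR_rate
  refine ⟨C + 24, by positivity, fun y hy => ?_⟩
  have hy0 : 0 < y := by linarith
  have hz : 3 ≤ Real.exp y := by
    have h1 := Real.exp_one_gt_d9
    have h2 : Real.exp 2 = Real.exp 1 * Real.exp 1 := by rw [← Real.exp_add]; norm_num
    have h3 := Real.exp_le_exp.2 hy
    nlinarith
  have h1 := hR (Real.exp y) hz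
  rw [Real.log_exp] at h1
  have h2 : |RR (Real.exp y) - 1 / y| ≤ C / y ^ 2 := by
    have e : RR (Real.exp y) - 1 / y = (RR (Real.exp y) * y - 1) / y := by field_simp
    rw [e, abs_div, abs_of_pos hy0, div_le_iff₀ hy0]
    calc |RR (Real.exp y) * y - 1| ≤ C / y := h1
      _ = _ := by field_simp
  have hT : Pool.Agent.H305R2.TT 1 y = RR (Real.exp y) := by
    have e := RR_scaled y 1
    rw [Nat.cast_one, div_one, Nat.div_one, Nat.div_one] at e
    rw [e]
    unfold Pool.Agent.H305R2.TT
    rw [Finset.sum_filter]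
    refine Finset.sum_congr rfl fun m _ => ?_
    unfold pr
    simp only [roughPart_one_prime]
    split_ifs <;> simp
  have h3 := window_le_TT (p := 1) hy0.le
  have h4 := TT_le_window (p := 1) hy0.le
  rw [hT] at h3 h4
  have h5 : LL 1 y = ∫ t in Set.Ioc y (y + 1), ff 1 t := rfl
  have h6 : 4 * Real.exp (-y) ≤ 24 / y ^ 2 := by
    have h7 : y ^ 2 ≤ 6 * Real.exp y := by
      have := Real.quadratic_le_exp_of_nonneg hy0.le
      nlinarith
    rw [Real.exp_neg, le_div_iff₀ (by positivity)]
    have h8 : (Real.exp y)⁻¹ * Real.exp y = 1 := inv_mul_cancel₀ (Real.exp_pos y).ne'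
    have h9 : 0 < (Real.exp y)⁻¹ := inv_pos.2 (Real.exp_pos y)
    nlinarith
  have h7 := Real.exp_pos (-y)
  have h8 := abs_le.1 h2
  have e : (C + 24) / y ^ 2 = C / y ^ 2 + 24 / y ^ 2 := by ring
  rw [h5, e, abs_le]
  constructor <;> linarith

/-- bounds for windows -/
theorem bounds1 : ∃ K : ℝ, 0 < K ∧ ∀ u : ℝ, 9 ≤ u → LL 1 u ≤ K * (1 / u) ∧
    (∀ v : ℝ, u ≤ v → v ≤ u + 4 → ∫ t in Set.Ioc u v, ff 1 t ≤ K * ((v - u) + 1 / u) * (1 / u)) ∧
    (∀ v : ℝ, u ≤ v → v ≤ u + 4 → ∫ t in Set.Ioc u v, |gg 1 t| ≤ K * ((v - u) + 1 / u) * (1 / u)) := by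
  obtain ⟨K1, hK1, hs⟩ := short1
  obtain ⟨C, hC, hm⟩ := LL1_rate
  have hLL : ∀ u : ℝ, 9 ≤ u → LL 1 u ≤ (1 + C) * (1 / u) := by
    intro u hu
    have h1 := (abs_le.1 (hm u (by linarith))).2
    have h2 : C / u ^ 2 ≤ C * (1 / u) := by
      rw [div_le_iff₀ (by positivity)]
      have : C * (1 / u) * u ^ 2 = C * u := by field_simp
      rw [this]
      nlinarith
    linarith
  have hff : ∀ u : ℝ, 9 ≤ u → ∀ v : ℝ, u ≤ v → v ≤ u + 4 →
      ∫ t in Set.Ioc u v, ff 1 t ≤ 2 * K1 * ((v - u) + 1 / u) * (1 / u) := by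
    intro u hu v huv hv
    have hu0 : 0 < u := by linarith
    have hinv : 1 / u ≤ 1 := by rw [div_le_one hu0]; linarith
    set h := (v - u) + 1 / u with hh
    have hh0 : 0 < h := by
      have : 0 < 1 / u := by positivity
      rw [hh]; linarith
    have hlogh : -(u / 2) ≤ Real.log h := by
      have h1 : Real.log (1 / u) ≤ Real.log h := Real.log_le_log (by positivity) (by rw [hh]; linarith)
      rw [one_div, Real.log_inv] at h1
      have h2 : Real.log u ≤ u / 2 := by
        have h3 := Real.log_le_sub_one_of_pos (show 0 < u / 4 by positivity)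
        have h4 : Real.log u = Real.log (u / 4) + Real.log 4 := by
          rw [← Real.log_mul (by positivity) (by norm_num)]
          congr 1
          field_simp
        have h5 : Real.log 4 = 2 * Real.log 2 := by
          rw [show (4 : ℝ) = 2 ^ 2 by norm_num, Real.log_pow]; norm_num
        have h6 := Real.log_two_lt_d9
        linarith
      linarith
    have h1 := hs u h hh0 (by rw [hh]; linarith) (by linarith) (by linarith)
    have h2 : ∫ t in Set.Ioc u v, ff 1 t ≤ ∫ t in Set.Ioc u (u + h), ff 1 t := by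
      refine setIntegral_mono_set (integrableOn_ff 1 _ _) (Eventually.of_forall fun t => ff_nonneg 1 t)
        (HasSubset.Subset.eventuallyLE (Set.Ioc_subset_Ioc_right ?_))
      have : 0 < 1 / u := by positivity
      rw [hh]; linarith
    refine h2.trans (h1.trans ?_)
    have h3 : h / (u + Real.log h) ≤ h / (u / 2) :=
      div_le_div_of_nonneg_left hh0.le (by positivity) (by linarith)
    calc K1 * (h / (u + Real.log h)) ≤ K1 * (h / (u / 2)) := mul_le_mul_of_nonneg_left h3 hK1.le
      _ = _ := by field_simp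
  refine ⟨2 * K1 + (1 + C), by positivity, fun u hu => ?_⟩
  have hu0 : 0 < u := by linarith
  have hp : 0 < 1 / u := by positivity
  refine ⟨?_, fun v huv hv => ?_, fun v huv hv => ?_⟩
  · refine (hLL u hu).trans ?_
    have : 0 ≤ 2 * K1 * (1 / u) := by positivity
    nlinarith
  · refine (hff u hu v huv hv).trans ?_
    have h1 : 0 ≤ (v - u) + 1 / u := by linarith
    have : 0 ≤ (1 + C) * ((v - u) + 1 / u) * (1 / u) := by positivity
    nlinarith
  · have h1 := hff u hu v huv hv
    have h2 : ∫ t in Set.Ioc u v, |gg 1 t| ≤ ∫ t in Set.Ioc u v, (ff 1 t + (1 + C) * (1 / u)) := by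
      refine setIntegral_mono_on (integrableOn_gg 1 _ _).abs ?_ measurableSet_Ioc fun t ht => ?_
      · exact (integrableOn_ff 1 _ _).add (integrableOn_const (by simp))
      · refine (abs_gg_le 1 t).trans ?_
        have h3 := hLL t (by linarith [ht.1])
        have h4 : (1 + C) * (1 / t) ≤ (1 + C) * (1 / u) := by
          have h5 : 1 / t ≤ 1 / u := one_div_le_one_div_of_le hu0 ht.1.le
          gcongr
        linarith
    rw [integral_add (integrableOn_ff 1 _ _) (integrableOn_const (by simp)), setIntegral_const,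
      Real.volume_real_Ioc_of_le huv, smul_eq_mul] at h2
    refine h2.trans ?_
    have h5 : 0 ≤ (1 + C) * (1 / u) * (1 / u) := by positivity
    nlinarith

end Pool.Agent.X10.AI
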