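import Mathlib
import Pool.Agent.X10.AI.Near
import Pool.Agent.TH888.R.Sh
import Pool.Agent.W66.XG

set_option autoImplicit false

/-!
# Spacing of the prime values
-/

namespace Pool.Agent.X10.AI

open Finset MeasureTheory Filter Topology
open Pool.Agent.W66X (ysh measurable_ysh pert8 exp_ysh ae_of_exp')
open Pool.Agent.H305R2 (roughPart NN ff measurable_NN measurable_ff ff_nonneg ff_le_one)
open Pool.Agent.H447R2.ML (ff_eq_floor)
open Pool.Agent.TH888.R (ae_windows)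

/-- both values are prime -/
def both (α : ℝ) (g : ℕ → ℝ) (m n : ℕ) : Set ℝ :=
  {t : ℝ | (NN (ysh α g m t)).Prime ∧ (NN (ysh α g n t)).Prime}

lemma measurableSet_both (α : ℝ) (g : ℕ → ℝ) (m n : ℕ) : MeasurableSet (both α g m n) :=
  (measurable_ysh α g m measurableSet_prime).inter (measurable_ysh α g n measurableSet_prime)

lemma ff_mul_eq (α : ℝ) (g : ℕ → ℝ) (m n : ℕ) (t : ℝ) :
    ff 1 (ysh α g m t) * ff 1 (ysh α g n t) = (both α g m n).indicator (fun _ => (1 : ℝ)) t := by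
  rw [ff_one, ff_one]
  by_cases h1 : (NN (ysh α g m t)).Prime
  · by_cases h2 : (NN (ysh α g n t)).Prime
    · rw [if_pos h1, if_pos h2, Set.indicator_of_mem (show t ∈ both α g m n from ⟨h1, h2⟩), mul_one]
    · rw [if_neg h2, Set.indicator_of_notMem (fun h : t ∈ both α g m n => h2 h.2), mul_zero]
  · rw [if_neg h1, Set.indicator_of_notMem (fun h : t ∈ both α g m n => h1 h.1), zero_mul]

lemma measure_both {α : ℝ} {g : ℕ → ℝ} {m n : ℕ} {b0 B : ℝ} (hB : 0 ≤ B)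
    (h : ∫ t in Set.Ioc b0 (b0 + 1), ff 1 (ysh α g m t) * ff 1 (ysh α g n t) ≤ B) :
    (volume.restrict (Set.Ioc b0 (b0 + 1))) (both α g m n) ≤ ENNReal.ofReal B := by
  have e : ∫ t in Set.Ioc b0 (b0 + 1), ff 1 (ysh α g m t) * ff 1 (ysh α g n t) =
      (volume.restrict (Set.Ioc b0 (b0 + 1))).real (both α g m n) := by
    simp only [ff_mul_eq]
    rw [integral_indicator_const _ (measurableSet_both α g m n), smul_eq_mul, mul_one]
  rw [e, measureReal_def] at h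
  have hfin : IsFiniteMeasure (volume.restrict (Set.Ioc b0 (b0 + 1))) := ⟨by simp⟩
  exact (ENNReal.le_ofReal_iff_toReal_le (measure_ne_top _ _) hB).2 h

/-- **Spacing, in the variable `t = log β`.** -/
theorem spacing_t {α κ C : ℝ} (hα : 1 < α) (hκ0 : 0 ≤ κ) (hκ : κ < α) {g : ℕ → ℝ}
    (hg : ∀ p, |g p| ≤ C * κ ^ p)
    (hdio : ∀ h a b : ℕ, 1 ≤ h → 1 ≤ a → 1 ≤ b → 1 ≤ |(a : ℝ) - b * α ^ h| * (a + b))
    (W : ℕ → ℕ) (hW : Summable fun m : ℕ => (W m : ℝ) / (m : ℝ) ^ 2) (b0 : ℝ) :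
    ∀ᵐ t ∂(volume.restrict (Set.Ioc b0 (b0 + 1))), ∀ᶠ m : ℕ in atTop, ∀ n : ℕ, m < n → n ≤ m + W m →
      ¬ ((NN (ysh α g m t)).Prime ∧ (NN (ysh α g n t)).Prime) := by
  obtain ⟨K, hK, P, hP3, hP⟩ := near_pair hα hκ0 hκ hg hdio b0
  set μ := volume.restrict (Set.Ioc b0 (b0 + 1)) with hμ
  set A : ℕ → Set ℝ := fun m => if P ≤ m then ⋃ n ∈ Finset.Ioc m (m + W m), both α g m n else ∅ with hA
  have hle : ∀ m, μ (A m) ≤ ENNReal.ofReal (K * ((W m : ℝ) / (m : ℝ) ^ 2)) := by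
    intro m
    simp only [hA]
    split_ifs with hm
    · refine (measure_biUnion_finset_le _ _).trans ?_
      have h1 : ∀ n ∈ Finset.Ioc m (m + W m), μ (both α g m n) ≤
          ENNReal.ofReal (K * (1 / (m : ℝ)) ^ 2) := by
        intro n hn
        rw [Finset.mem_Ioc] at hn
        exact measure_both (by positivity) (hP m hm n hn.1)
      refine (Finset.sum_le_sum h1).trans ?_
      rw [Finset.sum_const, Nat.card_Ioc, Nat.add_sub_cancel_left, nsmul_eq_mul]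
      have h2 : ((W m : ℕ) : ENNReal) = ENNReal.ofReal (W m : ℝ) := (ENNReal.ofReal_natCast _).symm
      rw [h2, ← ENNReal.ofReal_mul (Nat.cast_nonneg _)]
      refine ENNReal.ofReal_le_ofReal (le_of_eq ?_)
      ring
    · simp
  have hsum : (∑' m, μ (A m)) ≠ ⊤ := by
    refine ne_top_of_le_ne_top ?_ (ENNReal.tsum_le_tsum hle)
    exact (hW.mul_left K).tsum_ofReal_ne_top
  filter_upwards [ae_eventually_notMem hsum] with t ht
  filter_upwards [ht, eventually_ge_atTop P] with m hm hmP n hn1 hn2 hb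
  refine hm ?_
  simp only [hA]
  rw [if_pos hmP]
  simp only [Set.mem_iUnion, Finset.mem_Ioc]
  exact ⟨n, ⟨hn1, hn2⟩, hb⟩

lemma ae_ne {α : ℝ} (hα0 : 0 < α) (g : ℕ → ℝ) : ∀ᵐ t : ℝ, ∀ p m : ℕ, Real.exp t * α ^ p + g p ≠ m := by
  have hnull : volume (⋃ p : ℕ, ⋃ m : ℕ, {t : ℝ | Real.exp t * α ^ p + g p = m}) = 0 := by
    refine Set.Countable.measure_zero ?_ volume
    refine Set.countable_iUnion fun p => Set.countable_iUnion fun m => ?_
    refine Set.Subsingleton.countable ?_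
    intro s hs t ht
    simp only [Set.mem_ofPred_eq] at hs ht
    have h3 : Real.exp s * α ^ p = Real.exp t * α ^ p := by linarith
    exact Real.exp_injective (mul_right_cancel₀ (pow_pos hα0 p).ne' h3)
  have hae : ∀ᵐ t : ℝ, t ∉ ⋃ p : ℕ, ⋃ m : ℕ, {t : ℝ | Real.exp t * α ^ p + g p = m} := by
    rw [ae_iff]
    refine measure_mono_null (fun t ht => ?_) hnull
    simpa only [Set.mem_ofPred_eq, not_not] using ht
  filter_upwards [hae] with t ht p m hm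
  refine ht ?_
  simp only [Set.mem_iUnion]
  exact ⟨p, m, hm⟩

/-- from `NN` to the integer part -/
lemma NN_floor {v : ℝ} (hv : 0 < v) (hn : ∀ m : ℕ, v ≠ m) : NN (Real.log v) = ⌊v⌋₊ := by
  unfold NN
  rw [Real.exp_log hv]
  have h2 : ⌈v⌉₊ = ⌊v⌋₊ + 1 := by
    rw [Nat.ceil_eq_iff (Nat.succ_ne_zero _)]
    constructor
    · rw [Nat.succ_sub_one]
      exact lt_of_le_of_ne (Nat.floor_le hv.le) fun h => hn _ h.symm
    · push_cast
      exact (Nat.lt_floor_add_one _).le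
  rw [h2, Nat.add_sub_cancel]

/-- **Spacing.** -/
theorem spacing {α κ C : ℝ} (hα : 1 < α) (hκ0 : 0 ≤ κ) (hκ : κ < α) {g : ℕ → ℝ}
    (hg : ∀ p, |g p| ≤ C * κ ^ p)
    (hdio : ∀ h a b : ℕ, 1 ≤ h → 1 ≤ a → 1 ≤ b → 1 ≤ |(a : ℝ) - b * α ^ h| * (a + b))
    (W : ℕ → ℕ) (hW : Summable fun m : ℕ => (W m : ℝ) / (m : ℝ) ^ 2) :
    ∀ᵐ β : ℝ, 0 < β → ∀ᶠ m : ℕ in atTop, ∀ n : ℕ, m < n → n ≤ m + W m →
      ¬ ((⌊β * α ^ m + g m⌋₊).Prime ∧ (⌊β * α ^ n + g n⌋₊).Prime) := by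
  have hα0 : 0 < α := by linarith
  refine ae_of_exp' (P := fun β : ℝ => ∀ᶠ m : ℕ in atTop, ∀ n : ℕ, m < n → n ≤ m + W m →
      ¬ ((⌊β * α ^ m + g m⌋₊).Prime ∧ (⌊β * α ^ n + g n⌋₊).Prime)) (ae_windows fun b0 => ?_)
  filter_upwards [spacing_t hα hκ0 hκ hg hdio W hW b0, ae_restrict_of_ae (ae_ne hα0 g)] with t ht htn
  obtain ⟨P, hP⟩ := eventually_atTop.1 (pert8 hα0 hκ0 hκ hg t 8)
  filter_upwards [ht, eventually_ge_atTop P] with m hm hmP n hn1 hn2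
  have h1 : ∀ k, P ≤ k → NN (ysh α g k t) = ⌊Real.exp t * α ^ k + g k⌋₊ := fun k hk =>
    NN_floor (exp_ysh hα0 (hP k hk) le_rfl).2.1 (fun j => htn k j)
  rw [← h1 m hmP, ← h1 n (by omega)]
  exact hm n hn1 hn2

end Pool.Agent.X10.AI
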