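import Mathlib
import Pool.Agent.X10.AI.Ratio

set_option autoImplicit false

/-!
# Close prime values in two sequences with the same base
-/

namespace Pool.Agent.X10.AI

open Finset MeasureTheory Filter Topology
open Pool.Agent.W66X (ysh measurable_ysh pert8 exp_ysh ae_of_exp')
open Pool.Agent.H305R2 (roughPart NN ff measurable_NN measurable_ff ff_nonneg ff_le_one)
open Pool.Agent.TH888.R (ae_windows)

/-- the phase of the second sequence -/
noncomputable def ysc (c α : ℝ) (g' : ℕ → ℝ) (n : ℕ) (t : ℝ) : ℝ :=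
  Real.log (c * (Real.exp t * α ^ n) + g' n)

lemma measurable_ysc (c α : ℝ) (g' : ℕ → ℝ) (n : ℕ) : Measurable (ysc c α g' n) :=
  Real.measurable_log.comp (((Real.measurable_exp.mul_const _).const_mul _).add_const _)

/-- both values are prime -/
def bothc (c α : ℝ) (g g' : ℕ → ℝ) (m n : ℕ) : Set ℝ :=
  {t : ℝ | (NN (ysh α g m t)).Prime ∧ (NN (ysc c α g' n t)).Prime}

lemma measurableSet_bothc (c α : ℝ) (g g' : ℕ → ℝ) (m n : ℕ) :
    MeasurableSet (bothc c α g g' m n) :=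
  (measurable_ysh α g m measurableSet_prime).inter (measurable_ysc c α g' n measurableSet_prime)

lemma ff_mul_eqc (c α : ℝ) (g g' : ℕ → ℝ) (m n : ℕ) (t : ℝ) :
    ff 1 (ysh α g m t) * ff 1 (ysc c α g' n t) =
      (bothc c α g g' m n).indicator (fun _ => (1 : ℝ)) t := by
  rw [ff_one, ff_one]
  by_cases h1 : (NN (ysh α g m t)).Prime
  · by_cases h2 : (NN (ysc c α g' n t)).Prime
    · rw [if_pos h1, if_pos h2, Set.indicator_of_mem (show t ∈ bothc c α g g' m n from ⟨h1, h2⟩),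
        mul_one]
    · rw [if_neg h2, Set.indicator_of_notMem (fun h : t ∈ bothc c α g g' m n => h2 h.2), mul_zero]
  · rw [if_neg h1, Set.indicator_of_notMem (fun h : t ∈ bothc c α g g' m n => h1 h.1), zero_mul]

lemma measure_bothc {c α : ℝ} {g g' : ℕ → ℝ} {m n : ℕ} {b0 B : ℝ} (hB : 0 ≤ B)
    (h : ∫ t in Set.Ioc b0 (b0 + 1), ff 1 (ysh α g m t) * ff 1 (ysc c α g' n t) ≤ B) :
    (volume.restrict (Set.Ioc b0 (b0 + 1))) (bothc c α g g' m n) ≤ ENNReal.ofReal B := by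
  have e : ∫ t in Set.Ioc b0 (b0 + 1), ff 1 (ysh α g m t) * ff 1 (ysc c α g' n t) =
      (volume.restrict (Set.Ioc b0 (b0 + 1))).real (bothc c α g g' m n) := by
    simp only [ff_mul_eqc]
    rw [integral_indicator_const _ (measurableSet_bothc c α g g' m n), smul_eq_mul, mul_one]
  rw [e, measureReal_def] at h
  have hfin : IsFiniteMeasure (volume.restrict (Set.Ioc b0 (b0 + 1))) := ⟨by simp⟩
  exact (ENNReal.le_ofReal_iff_toReal_le (measure_ne_top _ _) hB).2 h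

variable {α κ C C' c A : ℝ} {g g' : ℕ → ℝ}

/-- the bound for a pair -/
theorem cross_pair (hα : 1 < α) (hκ0 : 0 ≤ κ) (hκ : κ < α) (hc : 1 ≤ c) (hA : 1 ≤ A)
    (hg : ∀ p, |g p| ≤ C * κ ^ p) (hg' : ∀ p, |g' p| ≤ C' * κ ^ p)
    (hdio : ∀ h a b : ℕ, 1 ≤ a → 1 ≤ b → 1 ≤ |(a : ℝ) - b * (c * α ^ h)| * (A * (a + b)))
    (b0 : ℝ) : ∃ K : ℝ, 0 < K ∧ ∃ P : ℕ, 3 ≤ P ∧ ∀ m ≥ P, ∀ n : ℕ, m ≤ n →
    ∫ t in Set.Ioc b0 (b0 + 1), ff 1 (ysh α g m t) * ff 1 (ysc c α g' n t) ≤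
      K * (1 / (m : ℝ)) ^ 2 := by
  have hα0 : 0 < α := by linarith
  have hc0 : 0 < c := by linarith
  obtain ⟨K, hK, P1, hP13, hP1⟩ := ratio_pair hα hκ0 hκ hg hA b0
  obtain ⟨P2, hP2⟩ := eventually_atTop.1 ((pert8 hα0 hκ0 hκ hg (b0 - 1) 8).and
    (pert8 hα0 hκ0 hκ hg' (b0 - 1) 8))
  obtain ⟨P3, hP3⟩ := eventually_atTop.1 (pert8 hα0 hκ0 hκ hg b0 8)
  refine ⟨K, hK, P1 + P2 + P3, by omega, fun m hm n hmn => ?_⟩
  obtain ⟨h, rfl⟩ : ∃ h, n = m + h := ⟨n - m, by omega⟩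
  set L := Real.log α with hL
  set ρ := c * α ^ h with hρ
  have hαh : 1 ≤ α ^ h := one_le_pow₀ hα.le
  have hρ1 : 1 ≤ ρ := by
    rw [hρ]
    nlinarith
  set κ' := g' (m + h) - ρ * g m with hκ'
  set E0 := Real.exp (L * m + (b0 - 1)) with hE0
  have hE0pos : 0 < E0 := Real.exp_pos _
  have hαe : α ^ h = Real.exp (L * h) := by
    rw [hL, mul_comm, Real.exp_nat_mul, Real.exp_log hα0]
  have hkb : |κ'| ≤ ρ * E0 / 4 := by
    have h1 := (hP2 m (by omega)).1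
    have h2 := (hP2 (m + h) (by omega)).2
    push_cast at h1 h2
    have h3 : Real.exp (L * (m + h) + (b0 - 1)) = α ^ h * E0 := by
      rw [hαe, hE0, ← Real.exp_add]; ring_nf
    rw [h3] at h2
    have h4 : ρ * |g m| ≤ ρ * (E0 / 8) := mul_le_mul_of_nonneg_left (by linarith) (by linarith)
    have h5 : α ^ h * E0 ≤ ρ * E0 := by
      refine mul_le_mul_of_nonneg_right ?_ hE0pos.le
      rw [hρ]
      nlinarith
    calc |κ'| ≤ |g' (m + h)| + |ρ * g m| := abs_sub _ _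
      _ = |g' (m + h)| + ρ * |g m| := by rw [abs_mul, abs_of_pos (by linarith : 0 < ρ)]
      _ ≤ _ := by linarith
  have hmain := hP1 m (by omega) ρ hρ1 (fun a b ha hb => hdio h a b ha hb) κ' hkb
  have hpt : ∀ t ∈ Set.Ioc b0 (b0 + 1), ff 1 (ysh α g m t) * ff 1 (ysc c α g' (m + h) t) =
      ff 1 (ysh α g m t) * ff 1 (Real.log (ρ * Real.exp (ysh α g m t) + κ')) := by
    intro t ht
    congr 2
    rw [(exp_ysh hα0 (hP3 m (by omega)) ht.1.le).1]
    unfold ysc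
    congr 1
    rw [pow_add, hκ', hρ]
    ring
  rw [setIntegral_congr_fun measurableSet_Ioc hpt]
  exact hmain

lemma ae_nec (hα0 : 0 < α) (hc0 : 0 < c) (g' : ℕ → ℝ) :
    ∀ᵐ t : ℝ, ∀ p m : ℕ, c * (Real.exp t * α ^ p) + g' p ≠ m := by
  have h := ae_ne hα0 (fun p => g' p)
  have hnull : volume (⋃ p : ℕ, ⋃ m : ℕ, {t : ℝ | c * (Real.exp t * α ^ p) + g' p = m}) = 0 := by
    refine Set.Countable.measure_zero ?_ volume
    refine Set.countable_iUnion fun p => Set.countable_iUnion fun m => ?_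
    refine Set.Subsingleton.countable ?_
    intro s hs t ht
    simp only [Set.mem_ofPred_eq] at hs ht
    have h3 : c * (Real.exp s * α ^ p) = c * (Real.exp t * α ^ p) := by linarith
    have h4 := mul_left_cancel₀ hc0.ne' h3
    exact Real.exp_injective (mul_right_cancel₀ (pow_pos hα0 p).ne' h4)
  have hae : ∀ᵐ t : ℝ, t ∉ ⋃ p : ℕ, ⋃ m : ℕ, {t : ℝ | c * (Real.exp t * α ^ p) + g' p = m} := by
    rw [ae_iff]
    refine measure_mono_null (fun t ht => ?_) hnull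
    simpa only [Set.mem_ofPred_eq, not_not] using ht
  filter_upwards [hae] with t ht p m hm
  refine ht ?_
  simp only [Set.mem_iUnion]
  exact ⟨p, m, hm⟩

/-- **Spacing for two sequences.** -/
theorem cross (hα : 1 < α) (hκ0 : 0 ≤ κ) (hκ : κ < α) (hc : 1 ≤ c) (hA : 1 ≤ A)
    (hg : ∀ p, |g p| ≤ C * κ ^ p) (hg' : ∀ p, |g' p| ≤ C' * κ ^ p)
    (hdio : ∀ h a b : ℕ, 1 ≤ a → 1 ≤ b → 1 ≤ |(a : ℝ) - b * (c * α ^ h)| * (A * (a + b)))
    (W : ℕ → ℕ) (hW : Summable fun m : ℕ => (W m : ℝ) / (m : ℝ) ^ 2) :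
    ∀ᵐ β : ℝ, 0 < β → ∀ᶠ m : ℕ in atTop, ∀ n : ℕ, m ≤ n → n ≤ m + W m →
      ¬ ((⌊β * α ^ m + g m⌋₊).Prime ∧ (⌊c * (β * α ^ n) + g' n⌋₊).Prime) := by
  have hα0 : 0 < α := by linarith
  have hc0 : 0 < c := by linarith
  refine ae_of_exp' (P := fun β : ℝ => ∀ᶠ m : ℕ in atTop, ∀ n : ℕ, m ≤ n → n ≤ m + W m →
      ¬ ((⌊β * α ^ m + g m⌋₊).Prime ∧ (⌊c * (β * α ^ n) + g' n⌋₊).Prime))
      (ae_windows fun b0 => ?_)
  obtain ⟨K, hK, P, hP3, hP⟩ := cross_pair hα hκ0 hκ hc hA hg hg' hdio b0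
  set μ := volume.restrict (Set.Ioc b0 (b0 + 1)) with hμ
  set D : ℕ → Set ℝ := fun m =>
    if P ≤ m then ⋃ n ∈ Finset.Icc m (m + W m), bothc c α g g' m n else ∅ with hD
  have hle : ∀ m, μ (D m) ≤ ENNReal.ofReal (K * (((W m : ℝ) + 1) / (m : ℝ) ^ 2)) := by
    intro m
    simp only [hD]
    split_ifs with hm
    · refine (measure_biUnion_finset_le _ _).trans ?_
      have h1 : ∀ n ∈ Finset.Icc m (m + W m), μ (bothc c α g g' m n) ≤
          ENNReal.ofReal (K * (1 / (m : ℝ)) ^ 2) := by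
        intro n hn
        rw [Finset.mem_Icc] at hn
        exact measure_bothc (by positivity) (hP m hm n hn.1)
      refine (Finset.sum_le_sum h1).trans ?_
      rw [Finset.sum_const, Nat.card_Icc, nsmul_eq_mul]
      have h2 : ((m + W m + 1 - m : ℕ) : ENNReal) = ENNReal.ofReal ((W m : ℝ) + 1) := by
        have e : m + W m + 1 - m = W m + 1 := by omega
        rw [e, ← ENNReal.ofReal_natCast]
        push_cast
        rfl
      rw [h2, ← ENNReal.ofReal_mul (by positivity)]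
      refine ENNReal.ofReal_le_ofReal (le_of_eq ?_)
      ring
    · simp
  have hone : Summable fun m : ℕ => 1 / (m : ℝ) ^ 2 := Real.summable_one_div_nat_pow.2 one_lt_two
  have hW1 : Summable fun m : ℕ => ((W m : ℝ) + 1) / (m : ℝ) ^ 2 := by
    refine (hW.add hone).congr fun m => ?_
    rw [add_div]
  have hsum : (∑' m, μ (D m)) ≠ ⊤ := by
    refine ne_top_of_le_ne_top ?_ (ENNReal.tsum_le_tsum hle)
    exact (hW1.mul_left K).tsum_ofReal_ne_top
  filter_upwards [ae_eventually_notMem hsum, ae_restrict_of_ae (ae_ne hα0 g),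
    ae_restrict_of_ae (ae_nec hα0 hc0 g')] with t ht htn htn'
  obtain ⟨P1, hP1⟩ := eventually_atTop.1 ((pert8 hα0 hκ0 hκ hg t 8).and
    (pert8 hα0 hκ0 hκ hg' t 8))
  filter_upwards [ht, eventually_ge_atTop (P + P1)] with m hm hmP n hn1 hn2 hb
  refine hm ?_
  simp only [hD]
  rw [if_pos (show P ≤ m by omega)]
  simp only [Set.mem_iUnion, Finset.mem_Icc]
  refine ⟨n, ⟨hn1, hn2⟩, ?_⟩
  have h1 : NN (ysh α g m t) = ⌊Real.exp t * α ^ m + g m⌋₊ :=
    NN_floor (exp_ysh hα0 (hP1 m (by omega)).1 le_rfl).2.1 (fun j => htn m j)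
  have h2 : NN (ysc c α g' n t) = ⌊c * (Real.exp t * α ^ n) + g' n⌋₊ := by
    refine NN_floor ?_ (fun j => htn' n j)
    have h3 := exp_ysh hα0 (hP1 n (by omega)).2 le_rfl
    have h4 : 0 < Real.exp t * α ^ n + g' n := h3.2.1
    have h5 : 0 < Real.exp t * α ^ n := by positivity
    nlinarith
  exact ⟨by rw [h1]; exact hb.1, by rw [h2]; exact hb.2⟩

/-- a change of scale -/
lemma ae_scale {P : ℝ → Prop} {c : ℝ} (hc : c ≠ 0) (h : ∀ᵐ x : ℝ, P x) : ∀ᵐ x : ℝ, P (c * x) := by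
  rw [ae_iff] at h ⊢
  have := Real.volume_preimage_mul_left hc {x | ¬ P x}
  rw [h, mul_zero] at this
  exact this

end Pool.Agent.X10.AI
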