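import Mathlib
import Pool.Agent.TH888.R.Blk
import Pool.Agent.W66.SB

set_option autoImplicit false

/-!
# The weights `1 / q`
-/

namespace Pool.Agent.X10.AI

open Finset Filter Topology

/-- the weight of an index -/
noncomputable def wt (q : ℕ) : ℝ := 1 / q

lemma wt_nonneg (q : ℕ) : 0 ≤ wt q := by unfold wt; positivity

lemma wt_le_one (q : ℕ) : wt q ≤ 1 := by
  unfold wt
  rcases Nat.eq_zero_or_pos q with h | h
  · subst h; simp
  · have : (1 : ℝ) ≤ q := by exact_mod_cast h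
    rw [div_le_one (by linarith)]
    exact this

lemma sum_inv_le (a : ℕ) (ha : 1 ≤ a) (b : ℕ) (hab : a ≤ b) :
    ∑ p ∈ Finset.Ioc a b, 1 / (p : ℝ) ≤ Real.log b - Real.log a := by
  induction b, hab using Nat.le_induction with
  | base => simp
  | succ n hn ih =>
    rw [Finset.sum_Ioc_succ_top hn]
    have hn0 : (0 : ℝ) < n := by exact_mod_cast (by omega : 0 < n)
    have h1 := Real.one_sub_inv_le_log_of_pos (show (0 : ℝ) < ((n + 1 : ℕ) : ℝ) / n by positivity)
    rw [Real.log_div (by positivity) hn0.ne'] at h1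
    have h2 : 1 - (((n + 1 : ℕ) : ℝ) / n)⁻¹ = 1 / ((n + 1 : ℕ) : ℝ) := by
      push_cast; field_simp; ring
    linarith

/-- the sum of `1 / q ^ 2` -/
lemma inv_sum_le : ∃ C : ℝ, 0 < C ∧ ∀ T : Finset ℕ, (∀ q ∈ T, 2 ≤ q) →
    ∑ q ∈ T, 1 / (q : ℝ) ^ 2 ≤ C * Real.sqrt (∑ q ∈ T, wt q) := by
  refine ⟨2, by norm_num, fun T hT => ?_⟩
  set s := ∑ q ∈ T, wt q with hs
  have hs0 : 0 ≤ s := Finset.sum_nonneg fun q _ => wt_nonneg q
  have h1 : ∑ q ∈ T, 1 / (q : ℝ) ^ 2 ≤ s := by
    refine Finset.sum_le_sum fun q hq => ?_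
    have : (2 : ℝ) ≤ q := by exact_mod_cast hT q hq
    unfold wt
    exact one_div_le_one_div_of_le (by linarith) (by nlinarith)
  have h2 : ∑ q ∈ T, 1 / (q : ℝ) ^ 2 ≤ 2 := by
    obtain ⟨N, hN⟩ : ∃ N, ∀ q ∈ T, q < N := ⟨T.sup id + 1, fun q hq => by
      have := Finset.le_sup (f := id) hq
      simp only [id] at this
      omega⟩
    have h3 := sum_Ioo_inv_sq_le (α := ℝ) 1 N
    calc ∑ q ∈ T, 1 / (q : ℝ) ^ 2 ≤ ∑ q ∈ Finset.Ioo 1 N, ((q : ℝ) ^ 2)⁻¹ := by
          simp only [one_div]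
          refine Finset.sum_le_sum_of_subset_of_nonneg ?_ fun _ _ _ => by positivity
          intro q hq
          rw [Finset.mem_Ioo]
          exact ⟨by have := hT q hq; omega, hN q hq⟩
      _ ≤ 2 / ((1 : ℕ) + 1) := h3
      _ ≤ 2 := by norm_num
  rcases le_total s 1 with h | h
  · have h3 : s ≤ Real.sqrt s := by
      rw [Real.le_sqrt hs0 hs0]
      nlinarith
    have := Real.sqrt_nonneg s
    linarith
  · have h3 : 1 ≤ Real.sqrt s := Real.one_le_sqrt.2 h
    linarith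

/-- the weights of the indices in `(κ q / log q, q]` -/
lemma mid_weights {κ : ℝ} (hκ : 0 < κ) : ∃ C : ℝ, 0 < C ∧ ∀ᶠ q : ℕ in atTop, ∀ T : Finset ℕ,
    (∀ p ∈ T, 2 ≤ p ∧ p ≤ q ∧ κ * q / Real.log q < (p : ℝ)) →
    ∑ p ∈ T, wt p ≤ C * (1 + Real.log (Real.log q)) := by
  refine ⟨2 + |Real.log κ|, by positivity, ?_⟩
  have h1 : Tendsto (fun x : ℝ => κ * x / Real.log x) atTop atTop := by
    refine tendsto_atTop_mono' _ (f₁ := fun x : ℝ => κ / 2 * x ^ ((1 : ℝ) / 2)) ?_
      ((tendsto_rpow_atTop (by norm_num)).const_mul_atTop (by positivity))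
    filter_upwards [eventually_ge_atTop 3] with x hx
    have hx0 : 0 < x := by linarith
    have hl : 0 < Real.log x := Real.log_pos (by linarith)
    have h2 : Real.log x ≤ x ^ ((1 : ℝ) / 2) / (1 / 2) := Real.log_le_rpow_div hx0.le (by norm_num)
    rw [le_div_iff₀ hl]
    calc κ / 2 * x ^ ((1 : ℝ) / 2) * Real.log x ≤
          κ / 2 * x ^ ((1 : ℝ) / 2) * (x ^ ((1 : ℝ) / 2) / (1 / 2)) := by gcongr
      _ = κ * (x ^ ((1 : ℝ) / 2) * x ^ ((1 : ℝ) / 2)) := by ring
      _ = κ * x := by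
          rw [← Real.rpow_add hx0]
          norm_num
  have h2 := h1.comp (tendsto_natCast_atTop_atTop (R := ℝ))
  filter_upwards [h2.eventually_ge_atTop 2, eventually_ge_atTop 3,
    (Real.tendsto_log_atTop.comp tendsto_natCast_atTop_atTop).eventually_ge_atTop (max 1 κ)]
    with q hq hq3 hlq T hT
  simp only [Function.comp] at hq hlq
  have hq3' : (3 : ℝ) ≤ q := by exact_mod_cast hq3
  have hlq1 : 1 ≤ Real.log q := (le_max_left _ _).trans hlq
  have hlqκ : κ ≤ Real.log q := (le_max_right _ _).trans hlq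
  have hlq0 : 0 < Real.log q := by linarith
  have hll : 0 ≤ Real.log (Real.log q) := Real.log_nonneg hlq1
  set x := κ * q / Real.log q with hx
  set a := ⌊x⌋₊ with ha
  have hx0 : 0 < x := by linarith
  have ha1 : 1 ≤ a := by
    rw [ha, Nat.one_le_floor_iff]
    linarith
  have hax : (a : ℝ) ≤ x := Nat.floor_le hx0.le
  have hxa : x < a + 1 := Nat.lt_floor_add_one x
  have hxq : x ≤ q := by
    rw [hx, div_le_iff₀ hlq0]
    nlinarith
  have haq : a ≤ q := by
    have : (a : ℝ) ≤ q := hax.trans hxq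
    exact_mod_cast this
  have hsub : T ⊆ Finset.Ioc a q := by
    intro p hp
    obtain ⟨_, h3, h4⟩ := hT p hp
    rw [Finset.mem_Ioc]
    refine ⟨?_, h3⟩
    have : (a : ℝ) < p := lt_of_le_of_lt hax h4
    exact_mod_cast this
  have h3 : ∑ p ∈ T, wt p ≤ Real.log q - Real.log a := by
    unfold wt
    refine le_trans ?_ (sum_inv_le a ha1 q haq)
    exact Finset.sum_le_sum_of_subset_of_nonneg hsub fun _ _ _ => by positivity
  have h4 : Real.log (x / 2) ≤ Real.log a := by
    refine Real.log_le_log (by positivity) ?_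
    have : (1 : ℝ) ≤ a := by exact_mod_cast ha1
    linarith
  have h5 : Real.log (x / 2) = Real.log κ + Real.log q - Real.log (Real.log q) - Real.log 2 := by
    rw [Real.log_div hx0.ne' (by norm_num), hx, Real.log_div (by positivity) hlq0.ne',
      Real.log_mul hκ.ne' (by linarith)]
  have h6 := neg_abs_le (Real.log κ)
  have h7 := Real.log_two_lt_d9
  have h8 : 0 ≤ |Real.log κ| := abs_nonneg _
  nlinarith [mul_nonneg h8 hll]

end Pool.Agent.X10.AI
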