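import Mathlib
import Pool.Agent.X10.AI.Sys
import Pool.Agent.TH888.R.Dich

set_option autoImplicit false

/-!
# The dichotomy
-/

namespace Pool.Agent.X10.AI

open Finset Filter Topology MeasureTheory
open Pool.Agent.TH888.R (gr one_le_gr gr_mono gr_le gr_le_pow gr_small blocks q_div_log)

open Classical in
/-- greedy selection of a subset with bounded short windows -/
noncomputable def sel (S : Set ℕ) (κ : ℝ) (P : ℕ) : ℕ → Finset ℕ
  | 0 => ∅
  | q + 1 => if q ∈ S ∧ 2 ≤ q ∧ P ≤ q ∧
      ∑ p ∈ (sel S κ P q).filter (fun p : ℕ => κ * q / Real.log q < (p : ℝ)), wt p ≤ 1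
      then insert q (sel S κ P q) else sel S κ P q

/-- the selected set -/
def sl (S : Set ℕ) (κ : ℝ) (P : ℕ) : Set ℕ := {q | q ∈ sel S κ P (q + 1)}

lemma sel_succ_sub (S : Set ℕ) (κ : ℝ) (P q : ℕ) : sel S κ P q ⊆ sel S κ P (q + 1) := by
  intro p hp
  unfold sel
  split_ifs
  · exact mem_insert_of_mem hp
  · exact hp

lemma sel_mono (S : Set ℕ) (κ : ℝ) (P : ℕ) : Monotone (sel S κ P) :=
  monotone_nat_of_le_succ fun q => sel_succ_sub S κ P q

lemma sel_mem {S : Set ℕ} {κ : ℝ} {P : ℕ} : ∀ n : ℕ, ∀ p ∈ sel S κ P n,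
    p < n ∧ p ∈ S ∧ 2 ≤ p ∧ P ≤ p ∧ p ∈ sl S κ P := by
  intro n
  induction n with
  | zero => intro p hp; simp [sel] at hp
  | succ n ih =>
    intro p hp
    have hp' := hp
    unfold sel at hp
    split_ifs at hp with hc
    · rw [mem_insert] at hp
      rcases hp with rfl | hp
      · exact ⟨by omega, hc.1, hc.2.1, hc.2.2.1, hp'⟩
      · obtain ⟨h1, h2⟩ := ih p hp
        exact ⟨by omega, h2⟩
    · obtain ⟨h1, h2⟩ := ih p hp
      exact ⟨by omega, h2⟩

lemma sl_mem {S : Set ℕ} {κ : ℝ} {P p n : ℕ} (h : p ∈ sl S κ P) (hn : p < n) : p ∈ sel S κ P n :=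
  sel_mono S κ P (by omega : p + 1 ≤ n) h

/-- the windows of the selected set are short -/
lemma sl_window {S : Set ℕ} {κ : ℝ} {P q : ℕ} (hq : q ∈ sl S κ P) (T : Finset ℕ)
    (hT : ∀ p ∈ T, p < q ∧ p ∈ sl S κ P ∧ κ * q / Real.log q < (p : ℝ)) : ∑ p ∈ T, wt p ≤ 1 := by
  have h1 : ∑ p ∈ (sel S κ P q).filter (fun p : ℕ => κ * q / Real.log q < (p : ℝ)), wt p ≤ 1 := by
    have h2 : q ∈ sel S κ P (q + 1) := hq
    unfold sel at h2
    split_ifs at h2 with hc
    · exact hc.2.2.2
    · exact absurd (sel_mem q q h2).1 (lt_irrefl q)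
  refine le_trans (Finset.sum_le_sum_of_subset_of_nonneg ?_ fun p _ _ => wt_nonneg p) h1
  intro p hp
  obtain ⟨h2, h3, h4⟩ := hT p hp
  rw [mem_filter]
  exact ⟨sl_mem h3 h2, h4⟩

open Classical in
/-- the selected set has divergent weight -/
lemma sl_div {S : Set ℕ} {κ : ℝ} (hκ : 0 < κ) (P : ℕ) (hdiv : Tendsto (VS S) atTop atTop) :
    Tendsto (VS (sl S κ P)) atTop atTop := by
  rcases tendsto_atTop_of_monotone (VS_mono (sl S κ P)) with h | ⟨l, hl⟩
  · exact h
  · exfalso
    have hle : ∀ n, VS (sl S κ P) n ≤ l := fun n => (VS_mono _).ge_of_tendsto hl n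
    obtain ⟨N0, hN0⟩ := (hl.eventually (lt_mem_nhds (show l - 1 < l by linarith))).exists
    obtain ⟨Q, hQ⟩ := eventually_atTop.1 (((q_div_log hκ).eventually_ge_atTop (N0 : ℝ)).and
      (eventually_ge_atTop P))
    -- large elements of `S` are selected
    have hall : ∀ q ≥ Q, q ∈ S → 2 ≤ q → q ∈ sl S κ P := by
      intro q hq hqS hqp
      obtain ⟨h1, h2⟩ := hQ q hq
      have h3 : ∑ p ∈ (sel S κ P q).filter (fun p : ℕ => κ * q / Real.log q < (p : ℝ)), wt p ≤ 1 := by
        have h4 : ∑ p ∈ (sel S κ P q).filter (fun p : ℕ => κ * q / Real.log q < (p : ℝ)), wt p +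
            VS (sl S κ P) N0 ≤ VS (sl S κ P) (max q N0) := by
          unfold VS
          rw [← Finset.sum_filter, ← Finset.sum_filter, ← Finset.sum_union]
          · refine Finset.sum_le_sum_of_subset_of_nonneg ?_ fun p _ _ => wt_nonneg p
            intro p hp
            rw [mem_union, mem_filter, mem_filter, mem_range] at hp
            rw [mem_filter, mem_range]
            rcases hp with ⟨h5, h6⟩ | ⟨h5, h6⟩
            · obtain ⟨h7, _, h8, _, h9⟩ := sel_mem q p h5
              exact ⟨by omega, h9, h8⟩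
            · exact ⟨by omega, h6⟩
          · rw [Finset.disjoint_left]
            intro p hp1 hp2
            rw [mem_filter] at hp1 hp2
            rw [mem_range] at hp2
            have h7 : (N0 : ℝ) < p := lt_of_le_of_lt h1 hp1.2
            have h8 : N0 < p := by exact_mod_cast h7
            omega
        have := hle (max q N0)
        linarith
      show q ∈ sel S κ P (q + 1)
      unfold sel
      rw [if_pos ⟨hqS, hqp, h2, h3⟩]
      exact mem_insert_self _ _
    have hbd : ∀ n, VS S n ≤ l + Q := by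
      intro n
      have h1 : VS S n ≤ VS (sl S κ P) n + ∑ q ∈ range (n + 1), if q < Q then (1 : ℝ) else 0 := by
        unfold VS
        rw [← Finset.sum_add_distrib]
        refine Finset.sum_le_sum fun q _ => ?_
        have hw := wt_nonneg q
        have hw1 := wt_le_one q
        by_cases hq : q ∈ S ∧ 2 ≤ q
        · rw [if_pos hq]
          by_cases hP : q < Q
          · rw [if_pos hP]
            split_ifs <;> linarith
          · rw [if_neg hP, if_pos ⟨hall q (by omega) hq.1 hq.2, hq.2⟩]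
            linarith
        · rw [if_neg hq]
          split_ifs <;> linarith
      have h2 : ∑ q ∈ range (n + 1), (if q < Q then (1 : ℝ) else 0) ≤ Q := by
        rw [Finset.sum_ite, Finset.sum_const_zero, add_zero, Finset.sum_const, nsmul_eq_mul, mul_one]
        have : ((range (n + 1)).filter (fun q => q < Q)).card ≤ Q := by
          calc _ ≤ (range Q).card := Finset.card_le_card fun q hq => by
                  rw [mem_filter] at hq
                  exact mem_range.2 hq.2
            _ = Q := Finset.card_range Q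
        exact_mod_cast this
      linarith [hle n]
    obtain ⟨n, hn⟩ := (hdiv.eventually_gt_atTop (l + Q)).exists
    linarith [hbd n]

section

variable {Ω : Type*} [MeasurableSpace Ω] {μ : Measure Ω} [IsFiniteMeasure μ] {f m : ℕ → Ω → ℝ}
  {c : Ω → ℝ}

open Classical in
/-- **Divergence part.** -/
theorem Sys.inf (h : Sys μ f m c) (S : Set ℕ) (hdiv : Tendsto (VS S) atTop atTop) :
    ∀ᵐ x ∂μ, {q : ℕ | q ∈ S ∧ 2 ≤ q ∧ f q x = 1}.Infinite := by
  obtain ⟨κ, C, hκ, hC, P1, hP13, hdiag, hrow⟩ := h.row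
  obtain ⟨Km, hKm, P2, hmean⟩ := h.mean
  obtain ⟨c0, c1, hc0, hcb⟩ := h.cb
  obtain ⟨C3, hC3, hinv⟩ := inv_sum_le
  set P := P1 + P2 with hP
  set S' := sl S κ P with hS'
  have hdiv' := div_tail (sl_div hκ P hdiv) P (fun _ => 1) (fun _ => le_rfl)
  have hmK : ∀ᵐ x ∂μ, ∀ q ≥ P, 2 ≤ q → m q x ≤ (|c1| + Km) * wt q := by
    filter_upwards [hmean, hcb] with x hx hc q hq hqp
    have h1 := (abs_le.1 (hx q (by omega) hqp)).2
    have hq3 : (3 : ℝ) ≤ q := by exact_mod_cast (by omega : 3 ≤ q)
    have h2 : 1 / (q : ℝ) ^ 2 ≤ wt q := by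
      unfold wt
      exact one_div_le_one_div_of_le (by linarith) (by nlinarith)
    have h3 : c x ≤ |c1| := hc.2.trans (le_abs_self _)
    have hw := wt_nonneg q
    nlinarith [mul_le_mul_of_nonneg_left h2 hKm, mul_le_mul_of_nonneg_right h3 hw]
  have key := h.core (κ := κ) (C := C) (P := P) hC
    (fun q hq hqp => hdiag q (by omega) hqp)
    (fun q hq hqp T hT => hrow q (by omega) hqp T fun p hp => by
      obtain ⟨h1, h2, h3⟩ := hT p hp
      exact ⟨h1, by omega, h3⟩)
    (Km := |c1| + Km) (by positivity) hmK S' (fun _ => 1) (fun _ => le_rfl) (B0 := 1) (by norm_num)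
    (fun q _ => by rw [mul_one]; exact wt_le_one q)
    (fun q _ _ hqS T hT => sl_window hqS T fun p hp => by
      obtain ⟨_, _, h3, h4, h5⟩ := hT p hp
      exact ⟨h3, h4, h5⟩)
    hdiv'
  filter_upwards [key, hmean, hcb] with x hx hmx hcx
  obtain ⟨B, hB, hBn⟩ := hx
  intro hfin
  set M := hfin.toFinset.card with hM
  set V : ℕ → ℝ := fun n => ∑ q ∈ range n, if q ∈ S' ∧ 2 ≤ q ∧ P ≤ q then wt q * 1 else 0 with hV
  have hV0 : ∀ n, 0 ≤ V n := by
    intro n
    refine Finset.sum_nonneg fun q _ => ?_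
    split_ifs
    · rw [mul_one]; exact wt_nonneg q
    · exact le_rfl
  have hmain : ∀ n, c0 * V n ≤ M + (Km * C3 + B) * gr (V n) := by
    intro n
    have h1 := (abs_le.1 (hBn n)).1
    set T := (range n).filter (fun q => q ∈ S' ∧ 2 ≤ q ∧ P ≤ q) with hT
    have hVT : V n = ∑ q ∈ T, wt q := by
      simp only [hV, mul_one]
      rw [hT, Finset.sum_filter]
    have e1 : ∑ q ∈ range n, (if q ∈ S' ∧ 2 ≤ q ∧ P ≤ q then f q x - m q x else 0) =
        ∑ q ∈ T, f q x - ∑ q ∈ T, m q x := by
      rw [← Finset.sum_sub_distrib, hT, Finset.sum_filter]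
    have hf : ∑ q ∈ T, f q x ≤ M := by
      have h2 : ∑ q ∈ T, f q x = ∑ q ∈ T.filter (fun q => f q x = 1), f q x := by
        refine (Finset.sum_filter_of_ne fun q _ hq => ?_).symm
        rcases h.f01 q x with h3 | h3
        · exact absurd h3 hq
        · exact h3
      have h3 : ∑ q ∈ T.filter (fun q => f q x = 1), f q x = ((T.filter (fun q => f q x = 1)).card : ℝ) := by
        calc ∑ q ∈ T.filter (fun q => f q x = 1), f q x = ∑ q ∈ T.filter (fun q => f q x = 1), (1 : ℝ) :=
              Finset.sum_congr rfl fun q hq => (mem_filter.1 hq).2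
          _ = _ := by rw [Finset.sum_const, nsmul_eq_mul, mul_one]
      rw [h2, h3]
      have : (T.filter (fun q => f q x = 1)).card ≤ M := by
        rw [hM]
        refine Finset.card_le_card fun q hq => ?_
        rw [mem_filter, hT, mem_filter] at hq
        rw [Set.Finite.mem_toFinset]
        have h5 : q ∈ sel S κ P (q + 1) := hq.1.2.1
        exact ⟨(sel_mem _ _ h5).2.1, hq.1.2.2.1, hq.2⟩
      exact_mod_cast this
    have hm' : c0 * V n - Km * C3 * gr (V n) ≤ ∑ q ∈ T, m q x := by
      have h2 : ∑ q ∈ T, (c0 * wt q - Km * (1 / (q : ℝ) ^ 2)) ≤ ∑ q ∈ T, m q x := by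
        refine Finset.sum_le_sum fun q hq => ?_
        rw [hT, mem_filter] at hq
        have h3 := hq.2.2.2
        have h4 := (abs_le.1 (hmx q (by omega) hq.2.2.1)).1
        have h5 := mul_le_mul_of_nonneg_right hcx.1 (wt_nonneg q)
        linarith
      rw [Finset.sum_sub_distrib, ← Finset.mul_sum, ← Finset.mul_sum, ← hVT] at h2
      have h3 := hinv T (fun q hq => by
        rw [hT, mem_filter] at hq
        exact hq.2.2.1)
      rw [← hVT] at h3
      have h4 := sqrt_le_gr (hV0 n)
      have h5 : Km * ∑ q ∈ T, 1 / (q : ℝ) ^ 2 ≤ Km * C3 * gr (V n) := by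
        calc Km * ∑ q ∈ T, 1 / (q : ℝ) ^ 2 ≤ Km * (C3 * gr (V n)) := by
              refine mul_le_mul_of_nonneg_left (h3.trans ?_) hKm
              exact mul_le_mul_of_nonneg_left h4 hC3.le
          _ = _ := by ring
      linarith
    rw [e1] at h1
    linarith
  have hVt : Tendsto V atTop atTop := hdiv'
  obtain ⟨n, hn1, hn2⟩ := ((hVt.eventually (gr_small (A := Km * C3 + B) (by positivity)
    (show 0 < c0 / 2 by positivity))).and (hVt.eventually_gt_atTop (2 * M / c0))).exists
  have h1 := hmain n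
  rw [div_lt_iff₀ hc0] at hn2
  linarith

/-- **Convergence part.** -/
theorem Sys.fin (h : Sys μ f m c) (S : Set ℕ) (hdiv : ¬ Tendsto (VS S) atTop atTop) :
    ∀ᵐ x ∂μ, {q : ℕ | q ∈ S ∧ 2 ≤ q ∧ f q x = 1}.Finite := by
  classical
  obtain ⟨K, hK, P, hone⟩ := h.one
  set a : ℕ → ℝ := fun q => if q ∈ S ∧ 2 ≤ q then wt q else 0 with ha
  have ha0 : ∀ q, 0 ≤ a q := by
    intro q
    simp only [ha]
    split_ifs
    · exact wt_nonneg q
    · exact le_rfl
  have hsum : Summable a := by
    rcases tendsto_atTop_of_monotone (VS_mono S) with h1 | ⟨l, hl⟩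
    · exact absurd h1 hdiv
    · refine summable_of_sum_range_le (c := l) ha0 fun n => ?_
      have h2 : VS S n ≤ l := (VS_mono _).ge_of_tendsto hl n
      refine le_trans ?_ h2
      unfold VS
      refine Finset.sum_le_sum_of_subset_of_nonneg (Finset.range_mono (by omega)) fun q _ _ => ?_
      have := ha0 q
      simp only [ha] at this
      convert this
  set s : ℕ → Set Ω := fun q => {x | q ∈ S ∧ 2 ≤ q ∧ P ≤ q ∧ f q x = 1} with hs
  have hsm : ∀ q, μ (s q) ≤ ENNReal.ofReal (K * a q) := by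
    intro q
    by_cases hq : q ∈ S ∧ 2 ≤ q ∧ P ≤ q
    · have h1 : μ (s q) ≤ ∫⁻ x, ENNReal.ofReal (f q x) ∂μ := by
        have h2 := mul_meas_ge_le_lintegral (μ := μ) (f := fun x => ENNReal.ofReal (f q x))
          (h.fm q).ennreal_ofReal 1
        rw [one_mul] at h2
        refine le_trans (measure_mono ?_) h2
        intro x hx
        simp only [hs, Set.mem_ofPred_eq] at hx
        show 1 ≤ ENNReal.ofReal (f q x)
        rw [hx.2.2.2]
        simp
      have hint : Integrable (f q) μ := by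
        refine Integrable.of_bound (h.fm q).aestronglyMeasurable 1 (Eventually.of_forall fun x => ?_)
        rw [Real.norm_of_nonneg (h.f0 q x)]
        exact h.f1 q x
      rw [← ofReal_integral_eq_lintegral_ofReal hint (Eventually.of_forall (h.f0 q))] at h1
      refine h1.trans (ENNReal.ofReal_le_ofReal ?_)
      simp only [ha]
      rw [if_pos ⟨hq.1, hq.2.1⟩]
      exact hone q hq.2.2 hq.2.1
    · have : s q = ∅ := by
        ext x
        simp only [hs, Set.mem_ofPred_eq, Set.mem_empty_iff_false, iff_false]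
        intro h1
        exact hq ⟨h1.1, h1.2.1, h1.2.2.1⟩
      rw [this]
      simp
  have htop : ∑' q, μ (s q) ≠ ⊤ := by
    refine ne_top_of_le_ne_top ?_ (ENNReal.tsum_le_tsum hsm)
    rw [← ENNReal.ofReal_tsum_of_nonneg (fun q => mul_nonneg hK (ha0 q)) (hsum.mul_left K)]
    exact ENNReal.ofReal_ne_top
  filter_upwards [ae_eventually_notMem htop] with x hx
  obtain ⟨N, hN⟩ := eventually_atTop.1 hx
  refine (Set.finite_lt_nat (N + P)).subset fun q hq => ?_
  obtain ⟨h1, h2, h3⟩ := hq
  show q < N + P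
  by_contra h4
  exact hN q (by omega) ⟨h1, h2, by omega, h3⟩

end

end Pool.Agent.X10.AI
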