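import Mathlib
import Pool.Agent.X10.AI.One
import Pool.Agent.W66.XB

set_option autoImplicit false

/-!
# Decorrelation of distant indices
-/

namespace Pool.Agent.X10.AI

open Filter Topology Set MeasureTheory Metric
open scoped Real
open Pool.Agent.W66 (cv cv_approx cv_continuous RS RF PP PP_L1 PP_continuous TT KT hs hs_pos ev_Y
  smoothing gg_split gg_modulus_w ii_of_bdd tri)
open Pool.Agent.W66X (signed_cov window_diff int_comp int_bdd)
open Pool.Agent.H305R2 (ff NN roughPart measurable_ff ff_nonneg ff_le_one LL gg measurable_gg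
  abs_gg_le_one)
open Pool.Agent.H447R2.ML (Sh)

lemma RS_one (h : ℝ) (N : ℕ) (y : ℝ) : RS 1 h N y = PP h N y := by
  unfold RS PP RF
  refine Finset.sum_congr ?_ fun _ _ => rfl
  ext m
  simp only [Finset.mem_filter, roughPart_one_prime]

theorem cv1_L1 : ∃ cc K Y0 : ℝ, 0 < cc ∧ 0 < K ∧ ∀ Y : ℝ, Y0 ≤ Y →
    (hs cc Y ≤ 1 / Y ^ 2 ∧ 8 ≤ Y ∧ 32 * cc + 1 ≤ Real.log Y) ∧
      ∀ Y' : ℝ, Y ≤ Y' → Y' ≤ Y + 1 →
      ∫ y in Y'..(Y' + 1), |cv 1 (hs cc Y) y - 1 / Y| ≤ K * (1 / Y ^ 2) := by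
  obtain ⟨c0, Z0, hc0, hZ0, hKT⟩ := KT 6
  obtain ⟨C, hC, hPP⟩ := PP_L1
  set cc := c0 / 4 with hcc
  have hcc0 : 0 < cc := by positivity
  obtain ⟨Y1, hY1⟩ := (ev_Y cc C hcc0 hC).exists_forall_of_atTop
  refine ⟨cc, 8, max Y1 Z0, hcc0, by norm_num, fun Y hY => ?_⟩
  obtain ⟨a1, a2, a3, a4, a5, a6⟩ := hY1 Y ((le_max_left _ _).trans hY)
  have hZ0Y : Z0 ≤ Y := (le_max_right _ _).trans hY
  have hY0 : 0 < Y := by linarith
  have hlogY : 0 < Real.log Y := by linarith
  set lam := cc * Y / Real.log Y with hlam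
  set h := hs cc Y with hh
  have hhe : h = Real.exp (-lam) := rfl
  have hh0 : 0 < h := hs_pos _ _
  have hlam1 : √(Y + 2) ≤ lam := a1
  have hlam1' : √Y ≤ lam := le_trans (Real.sqrt_le_sqrt (by linarith)) hlam1
  have hlam0 : 0 ≤ lam := (Real.sqrt_nonneg _).trans hlam1
  have hlam32 : lam ≤ Y / 32 := by
    rw [hlam, div_le_iff₀ hlogY]
    calc cc * Y = Y / 32 * (32 * cc) := by ring
      _ ≤ Y / 32 * Real.log Y := by gcongr; linarith
  have hhY : h ≤ 1 / Y ^ 2 := by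
    rw [hhe]
    exact (Real.exp_le_exp.2 (by linarith)).trans a3
  have hh1 : h ≤ 1 := by rw [hhe]; exact Real.exp_le_one_iff.2 (by linarith)
  refine ⟨⟨hhY, a6, a2⟩, fun Y' hY'1 hY'2 => ?_⟩
  set N := ⌈Real.exp (Y' + 3)⌉₊ with hN
  have hN1 : Real.exp (Y' + 3) ≤ N := Nat.le_ceil _
  have hN2 : Real.exp (Y' + 2) ≤ N := le_trans (Real.exp_le_exp.2 (by linarith)) hN1
  -- the mean square bound
  have hTT : ∫ z in Y'..(Y' + 1), (TT h N z - 1) ^ 2 ≤ (1 / Y ^ 3) ^ 2 := by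
    have h1 := hKT Y' lam h (by linarith) hhe
      (le_trans (Real.sqrt_le_sqrt (by linarith)) hlam1) (by
        have h2 : Real.log Y' ≤ 2 * Real.log Y := by
          rw [← Real.log_rpow hY0]
          apply Real.log_le_log (by linarith)
          norm_num
          nlinarith
        calc lam * Real.log Y' ≤ lam * (2 * Real.log Y) := by gcongr
          _ = c0 / 2 * Y := by rw [hlam, hcc]; field_simp; ring
          _ ≤ c0 * Y' := by nlinarith) N hN2
    refine h1.trans ?_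
    have e : (1 / Y ^ 3) ^ 2 = 1 / Y ^ 6 := by field_simp
    rw [e]
    apply one_div_le_one_div_of_le (by positivity)
    exact pow_le_pow_left₀ (by linarith) hY'1 6
  have hA := hPP h Y' N hh0 hh1 (by linarith) hN2 (1 / Y ^ 3) (by positivity) hTT
  have hvar : ∀ y, Y' ≤ y → y ≤ Y' + 1 → |1 / y - 1 / Y| ≤ 2 / Y ^ 2 := by
    intro y h1 h2
    have hy0 : 0 < y := by linarith
    have e : 1 / y - 1 / Y = -((y - Y) / (y * Y)) := by field_simp; ring
    rw [e, abs_neg, abs_div, abs_of_nonneg (by linarith : 0 ≤ y - Y), abs_of_pos (by positivity)]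
    have h3 : Y ^ 2 ≤ y * Y := by nlinarith
    exact div_le_div₀ (by norm_num) (by linarith) (by positivity) h3
  have hcvRS : ∀ y, Y' ≤ y → y ≤ Y' + 1 → |cv 1 h y - PP h N y| ≤
      32 * Real.exp (-Y) / h ^ 2 := by
    intro y h1 h2
    rw [← RS_one]
    refine (cv_approx 1 hh0 hh1 (by linarith) N (le_trans (Real.exp_le_exp.2 (by linarith))
      hN1)).trans ?_
    have : Real.exp (-y) ≤ Real.exp (-Y) := Real.exp_le_exp.2 (by linarith)
    gcongr
  have hPc : ContinuousOn (fun y => |PP h N y - 1 / y|) (Set.uIcc Y' (Y' + 1)) := by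
    apply ContinuousOn.abs
    apply (PP_continuous h N).continuousOn.sub
    apply ContinuousOn.div continuousOn_const continuousOn_id
    intro x hx
    rw [Set.uIcc_of_le (by linarith)] at hx
    simp only [id]
    linarith [hx.1]
  have hint : ∫ y in Y'..(Y' + 1), |cv 1 h y - 1 / Y| ≤ ∫ y in Y'..(Y' + 1),
      ((32 * Real.exp (-Y) / h ^ 2 + 2 / Y ^ 2) + |PP h N y - 1 / y|) := by
    apply intervalIntegral.integral_mono_on (by linarith)
    · exact ((cv_continuous 1 hh0).sub continuous_const).abs.intervalIntegrable _ _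
    · exact (continuousOn_const.add hPc).intervalIntegrable
    · intro y hy
      have h1 := hcvRS y hy.1 hy.2
      have h2 := hvar y hy.1 hy.2
      have h3 : cv 1 h y - 1 / Y = (cv 1 h y - PP h N y) + (PP h N y - 1 / y) + (1 / y - 1 / Y) := by
        ring
      rw [h3]
      refine (abs_add_le _ _).trans ?_
      have h5 := abs_add_le (cv 1 h y - PP h N y) (PP h N y - 1 / y)
      linarith
  refine hint.trans ?_
  rw [intervalIntegral.integral_add intervalIntegrable_const hPc.intervalIntegrable,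
    intervalIntegral.integral_const, smul_eq_mul]
  have n1 : 32 * Real.exp (-Y) / h ^ 2 ≤ 1 / Y ^ 2 := by
    refine le_trans ?_ a4
    rw [hhe, ← Real.exp_nat_mul, mul_div_assoc, ← Real.exp_sub]
    apply mul_le_mul_of_nonneg_left _ (by norm_num)
    apply Real.exp_le_exp.2
    push_cast
    linarith
  have e1 : h * (1 + 32 * Real.exp (-Y') / h ^ 2) = h + 32 * (Real.exp (-Y') / h) := by field_simp
  have m1 : 32 * (Real.exp (-Y') / h) ≤ 1 / Y ^ 2 := by
    refine le_trans ?_ a4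
    rw [hhe, ← Real.exp_sub]
    apply mul_le_mul_of_nonneg_left _ (by norm_num)
    apply Real.exp_le_exp.2
    linarith
  have m2 : C / h * Real.exp (-(Y' / 2)) ≤ 1 / Y ^ 2 := by
    refine le_trans ?_ a5
    have : C / h * Real.exp (-(Y' / 2)) = C * (Real.exp (-(Y' / 2)) / h) := by ring
    rw [this, hhe, ← Real.exp_sub]
    apply mul_le_mul_of_nonneg_left _ hC.le
    apply Real.exp_le_exp.2
    linarith
  have m3 : 1 / Y ^ 3 ≤ 1 / Y ^ 2 := by
    apply one_div_le_one_div_of_le (by positivity)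
    exact pow_le_pow_right₀ (by linarith) (by norm_num)
  rw [e1] at hA
  have e3 : (Y' + 1 - Y') * (32 * Real.exp (-Y) / h ^ 2 + 2 / Y ^ 2) =
      32 * Real.exp (-Y) / h ^ 2 + 2 / Y ^ 2 := by ring
  rw [e3]
  have e4 : 8 * (1 / Y ^ 2) = 1 / Y ^ 2 + 2 / Y ^ 2 + (1 / Y ^ 2 + 1 / Y ^ 2 + 1 / Y ^ 2 + 1 / Y ^ 2) +
    1 / Y ^ 2 := by ring
  have e5 : 0 < 1 / Y ^ 2 := by positivity
  rw [e4]
  linarith

/-- decorrelation of `ff 1` and slowly varying functions -/
theorem far_abs1 : ∃ κ K Y0 : ℝ, 0 < κ ∧ 0 < K ∧ ∀ (φ0 : ℝ → ℝ) (Y M : ℝ), Measurable φ0 →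
    (∀ x, |φ0 x| ≤ 1) → Y0 ≤ Y → M ≤ κ * Y / Real.log Y →
      (∀ h : ℝ, 0 ≤ h → h ≤ 1 → ∀ v : ℝ, |v| ≤ h →
        ∫ u in Y..(Y + 1), |φ0 (u + v) - φ0 u| ≤ h * Real.exp M + 4 * h) →
      |∫ u in Y..(Y + 1), φ0 u * gg 1 u| ≤ K * (1 / Y ^ 2) := by
  obtain ⟨cc, K, Y2, hcc, hK, hcv⟩ := cv1_L1
  obtain ⟨Y1, hY1⟩ := (ev_Y (cc / 2) 1 (by positivity) one_pos).exists_forall_of_atTop
  refine ⟨cc / 2, 2 * (K + 7), max Y1 Y2, by positivity, by positivity,
    fun φ0 Y M hφ0m hφ01 hYq hM hmod => ?_⟩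
  obtain ⟨⟨a1, a2, a3⟩, hμ⟩ := hcv Y ((le_max_right _ _).trans hYq)
  obtain ⟨d1, d2, d3, d4, d5, d6⟩ := hY1 Y ((le_max_left _ _).trans hYq)
  have hY0 : 0 < Y := by linarith
  set h := hs cc Y with hh
  set μ := 1 / Y with hμd
  have hh0 : 0 < h := hs_pos _ _
  have hY2 : 0 < 1 / Y ^ 2 := by positivity
  have hh1 : h ≤ 1 := a1.trans (by
    rw [div_le_one (by positivity)]
    nlinarith)
  -- the bound for one window
  have key : ∀ w : ℝ, 0 ≤ w → w ≤ 1 → |∫ u in (Y + w)..(Y + w + 1), φ0 (u - w) * (ff 1 u - μ)| ≤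
      (K + 7) * (1 / Y ^ 2) := by
    intro w hw0 hw1
    have hφ : Measurable fun u => φ0 (u - w) := hφ0m.comp (by fun_prop)
    have h1 := smoothing 1 hh0 (fun u => φ0 (u - w)) hφ
      (fun x => hφ01 _) (Y + w) μ (h * Real.exp M + 4 * h) (by
        intro v hv
        have h2 := hmod h hh0.le hh1 v hv
        have h3 := intervalIntegral.integral_comp_sub_right (a := Y + w) (b := Y + w + 1)
          (fun u => |φ0 (u + v) - φ0 u|) w
        have e1 : Y + w - w = Y := by ring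
        have e2 : Y + w + 1 - w = Y + 1 := by ring
        rw [e1, e2] at h3
        rw [← h3] at h2
        have e3 : ∀ u : ℝ, u - w + v = u + v - w := fun u => by ring
        simp only [e3] at h2
        exact h2) (cv_continuous 1 hh0)
    refine h1.trans ?_
    have h2 := hμ (Y + w) (by linarith) (by linarith)
    have h3 : h * Real.exp M ≤ 1 / Y ^ 2 := by
      rw [hh]
      unfold hs
      rw [← Real.exp_add]
      refine le_trans (Real.exp_le_exp.2 ?_) d3
      have e2 : √Y ≤ cc / 2 * Y / Real.log Y := le_trans (Real.sqrt_le_sqrt (by linarith)) d1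
      have e3 : cc * Y / Real.log Y = 2 * (cc / 2 * Y / Real.log Y) := by ring
      rw [e3]
      linarith
    have e : (K + 7) * (1 / Y ^ 2) = K * (1 / Y ^ 2) + 7 * (1 / Y ^ 2) := by ring
    rw [e]
    linarith
  rw [gg_split 1 φ0 hφ0m hφ01 Y μ]
  have k0 := key 0 le_rfl zero_le_one
  simp only [add_zero, sub_zero] at k0
  have k1 : |∫ w in (0 : ℝ)..1, ∫ u in (Y + w)..(Y + w + 1), φ0 (u - w) * (ff 1 u - μ)| ≤
      (K + 7) * (1 / Y ^ 2) := by
    have := intervalIntegral.norm_integral_le_of_norm_le_const (a := (0 : ℝ)) (b := 1)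
      (f := fun w => ∫ u in (Y + w)..(Y + w + 1), φ0 (u - w) * (ff 1 u - μ))
      (C := (K + 7) * (1 / Y ^ 2)) (fun w hw => by
        rw [Set.uIoc_of_le zero_le_one] at hw
        rw [Real.norm_eq_abs]
        exact key w hw.1.le hw.2)
    rw [Real.norm_eq_abs] at this
    simpa using this
  refine (abs_sub _ _).trans ?_
  linarith

/-- decorrelation of `gg 1` and `gg 1 (w u)` -/
theorem far_w1 : ∃ κ K Y0 : ℝ, 0 < κ ∧ 0 < K ∧ ∀ (w : ℝ → ℝ) (Y : ℝ), Measurable w → Y0 ≤ Y →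
      MonotoneOn w (Set.Icc (Y - 1) (Y + 2)) →
      (∀ a ∈ Set.Icc (Y - 1) (Y + 2), ∀ b ∈ Set.Icc (Y - 1) (Y + 2), |w a - w b| ≤ 2 * |a - b|) →
      w (Y + 2) ≤ κ * Y / Real.log Y →
      |∫ u in Y..(Y + 1), gg 1 (w u) * gg 1 u| ≤ K * (1 / Y ^ 2) := by
  obtain ⟨κ, K, Y0, hκ, hK, hP⟩ := far_abs1
  refine ⟨κ, K, Y0, hκ, hK, fun w Y hw hY hmono hlip hM => ?_⟩
  refine hP (fun u => gg 1 (w u)) Y (w (Y + 2)) ((measurable_gg 1).comp hw)
    (fun x => abs_gg_le_one 1 _) hY hM (fun h hh hh1 v hv => ?_)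
  refine (gg_modulus_w 1 hw (by norm_num) hmono hlip hh hh1 hv).trans (le_of_eq ?_)
  ring

/-- distant indices -/
theorem far_sh1 {a : ℝ} (ha : 0 < a) (b0 : ℝ) : ∃ κ K : ℝ, 0 < κ ∧ 0 < K ∧ ∃ P : ℕ, ∀ q ≥ P,
    ∀ (p : ℕ) (y y' z w : ℝ → ℝ), Sh a (b0 - 1) (b0 + 2) q y y' → Measurable w →
      MonotoneOn w (Set.Icc (a * q + b0 - 1) (a * q + b0 + 2)) →
      (∀ s ∈ Set.Icc (a * q + b0 - 1) (a * q + b0 + 2), ∀ t ∈ Set.Icc (a * q + b0 - 1) (a * q + b0 + 2),
        |w s - w t| ≤ 2 * |s - t|) →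
      (p : ℝ) ≤ κ * q / Real.log q → w (a * q + b0 + 2) ≤ a * p + |b0| + 3 →
      (∀ t ∈ Set.Ioc b0 (b0 + 1), w (y t) = z t) →
      |∫ t in Set.Ioc b0 (b0 + 1), gg 1 (z t) * gg 1 (y t)| ≤ K * (1 / (q : ℝ) ^ 2) := by
  obtain ⟨κ, K, Y0, hκ, hK, hP⟩ := far_w1
  obtain ⟨K', hK', hbd⟩ := bounds1
  -- constants for the windows
  refine ⟨κ / 8, K * (4 / a ^ 2) + 100 * K' * (1 + 2 / a) * (2 / a), by positivity, by positivity, ?_⟩
  have h1 : ∀ᶠ q : ℕ in atTop, (|b0| + 3) * 2 / a ≤ q :=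
    tendsto_natCast_atTop_atTop.eventually_ge_atTop _
  have h2 : ∀ᶠ q : ℕ in atTop, 2 * a ≤ q := tendsto_natCast_atTop_atTop.eventually_ge_atTop _
  have h3 : ∀ᶠ q : ℕ in atTop, Real.log q / q ≤ κ * a / (8 * (|b0| + 3)) := by
    have h4 : Tendsto (fun q : ℕ => Real.log q / q) atTop (𝓝 0) := by
      have h5 : Tendsto (fun x : ℝ => Real.log x / x) atTop (𝓝 0) := by
        have := Real.tendsto_pow_log_div_mul_add_atTop 1 0 1 one_ne_zero
        simpa using this
      exact h5.comp tendsto_natCast_atTop_atTop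
    exact (h4.eventually_lt_const (by positivity)).mono fun q hq => hq.le
  have h4 : ∀ᶠ q : ℕ in atTop, 2 / a < q := tendsto_natCast_atTop_atTop.eventually_gt_atTop _
  have h5 : ∀ᶠ q : ℕ in atTop, (|Y0| + 12) * 2 / a < q :=
    tendsto_natCast_atTop_atTop.eventually_gt_atTop _
  obtain ⟨P2, hP2⟩ := eventually_atTop.1 (h1.and (h2.and (h3.and
    ((Pool.Agent.H305R2.log_nat_tendsto.eventually_ge_atTop 1).and
    (h4.and (h5.and (eventually_ge_atTop 3)))))))
  refine ⟨P2, fun q hq p y y' z w hSh hwm hmono hlip hpq hwtop hwy => ?_⟩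
  obtain ⟨e1, e2, e3, e4, e5, e6, e8⟩ := hP2 q hq
  have hb0 : 0 ≤ |b0| := abs_nonneg _
  have hYa := le_abs_self Y0
  have hYn := abs_nonneg Y0
  have hq3 : (3 : ℝ) ≤ q := by exact_mod_cast e8
  have hq0 : (0 : ℝ) < q := by linarith
  have hinv : 1 / (q : ℝ) ≤ 1 / 3 := one_div_le_one_div_of_le (by norm_num) hq3
  have hinv0 : 0 < 1 / (q : ℝ) := by positivity
  rw [div_lt_iff₀ ha] at e6
  set Y := a * q + b0 with hY
  have hYlo3 : a / 2 * q + 3 ≤ Y := by
    rw [div_le_iff₀ ha] at e1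
    have := neg_abs_le b0
    linarith
  have hYlo : a / 2 * q ≤ Y := by linarith
  have hYhi : Y ≤ 2 * a * q := by
    rw [div_le_iff₀ ha] at e1
    have := le_abs_self b0
    linarith
  have hY12 : |Y0| + 12 ≤ a / 2 * q := by linarith
  have hY1 : 1 < Y := by linarith
  have hlY : 0 < Real.log Y := Real.log_pos hY1
  have hlY2 : Real.log Y ≤ 2 * Real.log q := by
    calc Real.log Y ≤ Real.log (q * q) := Real.log_le_log (by linarith) (hYhi.trans (by
          have := mul_le_mul_of_nonneg_right e2 hq0.le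
          linarith))
      _ = 2 * Real.log q := by rw [Real.log_mul hq0.ne' hq0.ne']; ring
  have hcond : w (Y + 2) ≤ κ * Y / Real.log Y := by
    have h5 : κ * a / 4 * (q / Real.log q) ≤ κ * Y / Real.log Y := by
      calc κ * a / 4 * (q / Real.log q) = κ * (a / 2 * q) / (2 * Real.log q) := by
            field_simp; ring
        _ ≤ κ * Y / Real.log Y := by gcongr
    have h6 : a * p ≤ κ * a / 8 * (q / Real.log q) := by
      calc a * p ≤ a * (κ / 8 * q / Real.log q) := mul_le_mul_of_nonneg_left hpq ha.le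
        _ = _ := by ring
    have h7 : |b0| + 3 ≤ κ * a / 8 * (q / Real.log q) := by
      rw [div_le_div_iff₀ hq0 (by positivity)] at e3
      rw [mul_div_assoc', le_div_iff₀ (by linarith)]
      linarith
    linarith
  have hmain := hP w Y hwm (by linarith) hmono hlip hcond
  set F : ℝ → ℝ := fun u => gg 1 (w u) * gg 1 u with hF
  have hFm : Measurable F := ((measurable_gg 1).comp hwm).mul (measurable_gg 1)
  have hFG : ∀ x, |F x| ≤ |gg 1 x| := fun x => by
    simp only [hF]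
    rw [abs_mul]
    exact mul_le_of_le_one_left (abs_nonneg _) (abs_gg_le_one 1 _)
  have hF1 : ∀ x, |F x| ≤ 1 := fun x => (hFG x).trans (abs_gg_le_one 1 x)
  have hGm : Measurable fun x => |gg 1 x| := (measurable_gg 1).abs
  have hG1 : ∀ x, |(|gg 1 x|)| ≤ 1 := fun x => by rw [abs_abs]; exact abs_gg_le_one 1 x
  have e : ∫ t in Set.Ioc b0 (b0 + 1), gg 1 (z t) * gg 1 (y t) = ∫ t in Set.Ioc b0 (b0 + 1), F (y t) := by
    refine setIntegral_congr_fun measurableSet_Ioc fun t ht => ?_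
    simp only [hF]
    rw [hwy t ht]
  rw [e]
  set lq := 1 / (q : ℝ) ^ 2 with hlq
  have hlq0 : 0 ≤ lq := by positivity
  have hlqe : 1 / (q : ℝ) * (1 / q) = lq := by rw [hlq]; field_simp
  -- window bounds in terms of `q`
  set D := K' * (1 + 2 / a) * (2 / a) with hD
  have hD0 : 0 < D := by positivity
  have hwin : ∀ u v : ℝ, a / 2 * q + 1 ≤ u → u ≤ v → v ≤ u + 4 →
      ∫ t in Set.Ioc u v, |gg 1 t| ≤ D * ((v - u) + 1 / q) * (1 / q) := by
    intro u v hu huv hv
    have hu9 : 9 ≤ u := by linarith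
    have hap : 0 < a / 2 * q := by positivity
    have h1u : 1 / u ≤ 2 / a * (1 / q) := by
      calc 1 / u ≤ 1 / (a / 2 * q) := one_div_le_one_div_of_le hap (by linarith)
        _ = _ := by field_simp
    have h1u0 : 0 < 1 / u := by
      have : 0 < u := by linarith
      positivity
    refine ((hbd u hu9).2.2 v huv hv).trans ?_
    have h6 : (v - u) + 1 / u ≤ (1 + 2 / a) * ((v - u) + 1 / q) := by
      have : 0 ≤ 2 / a * (v - u) := by
        have : 0 ≤ v - u := by linarith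
        positivity
      nlinarith
    calc K' * ((v - u) + 1 / u) * (1 / u) ≤
          K' * ((1 + 2 / a) * ((v - u) + 1 / q)) * (2 / a * (1 / q)) := by
          have : 0 ≤ (v - u) + 1 / u := by linarith
          gcongr
      _ = _ := by rw [hD]; ring
  -- covariance
  have k1 := signed_cov hSh e8 (s := b0) (t := b0 + 1) (by linarith) (by linarith) (by linarith) hFm hF1
  have hnear0 := hSh.near b0 ⟨by linarith, by linarith⟩
  have hnear1 := hSh.near (b0 + 1) ⟨by linarith, by linarith⟩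
  have hn0 := abs_le.1 hnear0
  have hn1 := abs_le.1 hnear1
  have hy01 : y b0 ≤ y (b0 + 1) := by linarith
  -- the integral of `|gg|` over the image
  have k2 : ∫ x in Set.Ioc b0 (b0 + 1), |F (y x)| ≤ 6 * D * (1 / q) := by
    have h5 := (hSh.cov e8 (s := b0) (t := b0 + 1) (by linarith) (by linarith) (by linarith)
      (F := fun x => |gg 1 x|) hGm (fun x => abs_nonneg _) (fun x => abs_gg_le_one 1 x)).1
    have h6 : ∫ x in Set.Ioc b0 (b0 + 1), |F (y x)| ≤ ∫ x in Set.Ioc b0 (b0 + 1), |gg 1 (y x)| := by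
      refine setIntegral_mono_on ?_ ?_ measurableSet_Ioc fun x _ => hFG _
      · exact int_comp hSh (by linarith) (by linarith) (F := fun x => |F x|) hFm.abs (M := 1)
          (fun x => by rw [abs_abs]; exact hF1 x)
      · exact int_comp hSh (by linarith) (by linarith) hGm hG1
    have h7 : ∫ u in Set.Ioc (y b0) (y (b0 + 1)), |gg 1 u| ≤ 4 * D * (1 / q) := by
      refine (hwin (y b0) (y (b0 + 1)) (by linarith) hy01 (by linarith)).trans ?_
      have h8 : (y (b0 + 1) - y b0) + 1 / (q : ℝ) ≤ 4 := by linarith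
      calc D * ((y (b0 + 1) - y b0) + 1 / (q : ℝ)) * (1 / q) ≤ D * 4 * (1 / q) := by
            gcongr
        _ = _ := by ring
    have h8 : 0 ≤ ∫ x in Set.Ioc b0 (b0 + 1), |gg 1 (y x)| :=
      integral_nonneg fun x => abs_nonneg _
    nlinarith
  have k3 : |(∫ u in Set.Ioc (y b0) (y (b0 + 1)), F u) - ∫ u in Set.Ioc Y (Y + 1), F u| ≤
      2 * (3 * D * lq) := by
    have hB : ∀ c : ℝ, Y ≤ c → ∫ x in Set.Ioc (c - 1 / q) (c + 1 / q), |gg 1 x| ≤ 3 * D * lq := by
      intro c hc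
      refine (hwin (c - 1 / q) (c + 1 / q) (by linarith) (by linarith) (by linarith)).trans
        (le_of_eq ?_)
      rw [← hlqe]
      ring
    refine window_diff (G := fun x => |gg 1 x|) hFm hF1 hGm hG1 hFG (ε := 1 / q) ?_ ?_ hy01 (by linarith)
      (hB Y le_rfl) (hB (Y + 1) (by linarith))
    · rw [hY]; exact hnear0
    · have : Y + 1 = a * q + (b0 + 1) := by rw [hY]; ring
      rw [this]; exact hnear1
  have k4 : |∫ u in Set.Ioc Y (Y + 1), F u| ≤ K * (4 / a ^ 2) * lq := by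
    rw [← intervalIntegral.integral_of_le (by linarith)]
    refine hmain.trans ?_
    have h5 : 1 / Y ^ 2 ≤ 4 / a ^ 2 * lq := by
      have e : 4 / a ^ 2 * lq = 1 / (a / 2 * q) ^ 2 := by
        rw [hlq]
        field_simp
        norm_num
      rw [e]
      apply one_div_le_one_div_of_le (by positivity)
      exact pow_le_pow_left₀ (by positivity) hYlo 2
    calc K * (1 / Y ^ 2) ≤ K * (4 / a ^ 2 * lq) := mul_le_mul_of_nonneg_left h5 hK.le
      _ = _ := by ring
  have k5 : 1 / (q : ℝ) * ∫ x in Set.Ioc b0 (b0 + 1), |F (y x)| ≤ 6 * D * lq := by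
    calc 1 / (q : ℝ) * ∫ x in Set.Ioc b0 (b0 + 1), |F (y x)| ≤
          1 / (q : ℝ) * (6 * D * (1 / q)) := mul_le_mul_of_nonneg_left k2 hinv0.le
      _ = 6 * D * (1 / (q : ℝ) * (1 / q)) := by ring
      _ = _ := by rw [hlqe]
  have k6 := k1.trans k5
  have hfin : (K * (4 / a ^ 2) + 100 * K' * (1 + 2 / a) * (2 / a)) * lq =
      K * (4 / a ^ 2) * lq + 100 * (D * lq) := by rw [hD]; ring
  have hDl : 0 ≤ D * lq := by positivity
  rw [hfin]
  rw [abs_le] at k3 k4 k6 ⊢
  constructor <;> linarith [k3.1, k3.2, k4.1, k4.2, k6.1, k6.2]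

end Pool.Agent.X10.AI
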