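import Mathlib
import Pool.Agent.X10.AI.One
import Pool.Agent.H447R2.ML.R1

set_option autoImplicit false

/-!
# Pairs of indices with `2 p ≤ q`
-/

namespace Pool.Agent.X10.AI

open Filter Topology MeasureTheory
open Pool.Agent.H447R2.ML (Sh inv_le_third)
open Pool.Agent.H305R2 (roughPart ff measurable_ff ff_nonneg ff_le_one integrableOn_ff NN
  mem_Ioc_log gg LL)

lemma prod_int1 {a a0 a1 : ℝ} {p q : ℕ} {y y' z z' : ℝ → ℝ} (hy : Sh a a0 a1 p y y')
    (hz : Sh a a0 a1 q z z') :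
    IntegrableOn (fun x => ff 1 (y x) * ff 1 (z x)) (Set.Icc a0 a1) := by
  refine Integrable.of_bound ?_ 1 ?_
  · exact (((measurable_ff 1).comp_aemeasurable (hy.cont.aemeasurable measurableSet_Icc)).mul
      ((measurable_ff 1).comp_aemeasurable (hz.cont.aemeasurable measurableSet_Icc))).aestronglyMeasurable
  · exact Eventually.of_forall fun x => by
      have h1 := ff_nonneg 1 (y x)
      have h2 := ff_nonneg 1 (z x)
      have h3 := ff_le_one 1 (y x)
      have h4 := ff_le_one 1 (z x)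
      rw [Real.norm_eq_abs, abs_of_nonneg (mul_nonneg h1 h2)]
      nlinarith

lemma one_int1 {a a0 a1 : ℝ} {p : ℕ} {y y' : ℝ → ℝ} (hy : Sh a a0 a1 p y y') :
    IntegrableOn (fun x => ff 1 (y x)) (Set.Icc a0 a1) := by
  refine Integrable.of_bound ?_ 1 ?_
  · exact ((measurable_ff 1).comp_aemeasurable (hy.cont.aemeasurable measurableSet_Icc)).aestronglyMeasurable
  · exact Eventually.of_forall fun x => by
      rw [Real.norm_eq_abs, abs_of_nonneg (ff_nonneg 1 _)]; exact ff_le_one 1 _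

/-- upper bound for a single index -/
lemma single1 {a : ℝ} (ha : 0 < a) (a0 : ℝ) : ∃ K : ℝ, 0 < K ∧ ∃ P : ℕ, ∀ p ≥ P,
    ∀ a1 : ℝ, ∀ y y' : ℝ → ℝ, Sh a a0 a1 p y y' → ∀ s t : ℝ, a0 ≤ s → s ≤ t → t ≤ a1 → t - s ≤ 3 →
    ∫ x in Set.Ioc s t, ff 1 (y x) ≤ K * ((t - s) + 1 / p) * (1 / p) := by
  obtain ⟨K, hK, hb⟩ := bounds1
  refine ⟨2 * (K * (2 + 2 / a) * (2 / a)), by positivity, ?_⟩
  have hlarge : ∀ᶠ p : ℕ in atTop, (|a0| + 10) * 2 / a < p :=
    tendsto_natCast_atTop_atTop.eventually_gt_atTop _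
  obtain ⟨P, hP⟩ := eventually_atTop.1 (hlarge.and (eventually_ge_atTop 3))
  refine ⟨P, fun p hp a1 y y' h s t hs hst ht hts => ?_⟩
  obtain ⟨hpl, hp3⟩ := hP p hp
  have hp3' : (3 : ℝ) ≤ p := by exact_mod_cast hp3
  have hp0 : (0 : ℝ) < p := by linarith
  have h13 := inv_le_third hp3
  have h1p : 0 < 1 / (p : ℝ) := by positivity
  have hnear := abs_le.1 (h.near s ⟨hs, hst.trans ht⟩)
  rw [div_lt_iff₀ ha] at hpl
  have habs := neg_abs_le a0
  have hlow : a / 2 * p + 9 ≤ y s := by linarith [hnear.1]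
  have hap : 0 < a / 2 * p := by positivity
  have hys9 : 9 ≤ y s := by linarith
  have hmvt := h.mvt hs hst ht
  have hyst : y s ≤ y t := by
    have : 0 ≤ (1 - 1 / (p : ℝ)) * (t - s) := mul_nonneg (by linarith) (by linarith)
    linarith
  have hyt4 : y t ≤ y s + 4 := by
    have : (1 + 1 / (p : ℝ)) * (t - s) ≤ 4 / 3 * 3 := by
      refine mul_le_mul (by linarith) hts (by linarith) (by norm_num)
    linarith [hmvt.2]
  have hb' := (hb (y s) hys9).2.1 (y t) hyst hyt4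
  have hc := (h.cov hp3 hs hst ht (measurable_ff 1) (ff_nonneg 1) (ff_le_one 1)).1
  have hinv : 1 / y s ≤ 2 / a * (1 / p) := by
    calc 1 / y s ≤ 1 / (a / 2 * p) := one_div_le_one_div_of_le hap (by linarith)
      _ = _ := by field_simp
  have hinv0 : 0 < 1 / y s := by
    have : 0 < y s := by linarith
    positivity
  have h5 : (y t - y s) + 1 / y s ≤ (2 + 2 / a) * ((t - s) + 1 / p) := by
    have h6 : (1 + 1 / (p : ℝ)) * (t - s) ≤ 2 * (t - s) :=
      mul_le_mul_of_nonneg_right (by linarith) (by linarith)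
    have h7 : 0 ≤ 2 / a * (t - s) := by
      have : 0 ≤ t - s := by linarith
      positivity
    nlinarith [hmvt.2]
  have h8 : ∫ t in Set.Ioc (y s) (y t), ff 1 t ≤
      K * ((2 + 2 / a) * ((t - s) + 1 / p)) * (2 / a * (1 / p)) := by
    refine hb'.trans ?_
    have h9 : 0 ≤ (y t - y s) + 1 / y s := by linarith
    gcongr
  have hI0 : 0 ≤ ∫ x in Set.Ioc s t, ff 1 (y x) := integral_nonneg fun x => ff_nonneg 1 _
  have h10 := mul_le_mul_of_nonneg_right (show 1 / 2 ≤ 1 - 1 / (p : ℝ) by linarith) hI0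
  have h11 := hc.trans h8
  have e : 2 * (K * (2 + 2 / a) * (2 / a)) * ((t - s) + 1 / p) * (1 / p) =
      2 * (K * ((2 + 2 / a) * ((t - s) + 1 / p)) * (2 / a * (1 / p))) := by ring
  rw [e]
  linarith

/-- the bound on one cell -/
lemma cell1 {a : ℝ} (ha : 0 < a) : ∃ K : ℝ, 0 < K ∧ ∃ P : ℕ, ∀ p q : ℕ, P ≤ p →
    2 * p ≤ q → ∀ a0 a1 : ℝ, ∀ y y' z z' : ℝ → ℝ, Sh a a0 a1 p y y' → Sh a a0 a1 q z z' →
    ∀ s t : ℝ, a0 ≤ s → s ≤ t → t ≤ a1 → ∀ N : ℕ, 3 ≤ N → y s = Real.log N →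
    y t = Real.log ((N + 1 : ℕ) : ℝ) →
    ∫ x in Set.Ioc s t, ff 1 (z x) ≤ K * (t - s) * (1 / (q - p)) := by
  obtain ⟨K1, hK1, h1⟩ := short1
  refine ⟨4 * K1 / a, by positivity, ?_⟩
  have hlarge : ∀ᶠ p : ℕ in atTop, 6 / a < p := tendsto_natCast_atTop_atTop.eventually_gt_atTop _
  obtain ⟨P, hP⟩ := eventually_atTop.1 (hlarge.and (eventually_ge_atTop 3))
  refine ⟨P, fun p q hp hpq2 a0 a1 y y' z z' hy hz s t hs hst ht N hN hsN htN => ?_⟩
  obtain ⟨hpa, hp3⟩ := hP p hp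
  have hq3 : 3 ≤ q := by omega
  rw [div_lt_iff₀ ha] at hpa
  have hpq2' : 2 * (p : ℝ) ≤ q := by exact_mod_cast hpq2
  have hp0 : (0 : ℝ) < p := by
    have : (3 : ℝ) ≤ p := by exact_mod_cast hp3
    linarith
  have hpq' : (p : ℝ) < q := by linarith
  have hq0 : (0 : ℝ) < q := by linarith
  have hqp : (0 : ℝ) < q - p := by linarith
  have hqpp : (p : ℝ) ≤ q - p := by linarith
  have hN3 : (3 : ℝ) ≤ N := by exact_mod_cast hN
  have hN0 : (0 : ℝ) < N := by linarith
  have h13p := inv_le_third hp3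
  have h13q := inv_le_third hq3
  have h1p : 0 ≤ 1 / (p : ℝ) := by positivity
  have h1q : 0 ≤ 1 / (q : ℝ) := by positivity
  have hstI : s < t := by
    rcases hst.eq_or_lt with rfl | h
    · exfalso
      rw [hsN] at htN
      have h6 : (N : ℝ) = ((N + 1 : ℕ) : ℝ) :=
        Real.log_injOn_pos hN0 (Set.mem_Ioi.2 (by positivity)) htN
      push_cast at h6
      linarith
    · exact h
  have hts : 0 < t - s := by linarith
  set u := z s with hu
  set hh := z t - z s with hhdef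
  have hmz := hz.mvt hs hst ht
  have hmy := hy.mvt hs hst ht
  have hmz1 : 2 / 3 * (t - s) ≤ hh := by nlinarith [hmz.1]
  have hmz2 : hh ≤ 4 / 3 * (t - s) := by nlinarith [hmz.2]
  have hmy1 : 2 / 3 * (t - s) ≤ y t - y s := by nlinarith [hmy.1]
  have hmy2 : y t - y s ≤ 4 / 3 * (t - s) := by nlinarith [hmy.2]
  have hhpos : 0 < hh := by linarith
  -- bounds for the cell
  have hlogN : 1 / ((N : ℝ) + 1) ≤ y t - y s := by
    rw [hsN, htN, ← Real.log_div (by positivity) hN0.ne']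
    have h6 := Real.one_sub_inv_le_log_of_pos (show (0 : ℝ) < ((N + 1 : ℕ) : ℝ) / N by positivity)
    have h7 : 1 - (((N + 1 : ℕ) : ℝ) / N)⁻¹ = 1 / ((N : ℝ) + 1) := by push_cast; field_simp; ring
    linarith
  have hlogN' : y t - y s ≤ 1 / (N : ℝ) := by
    rw [hsN, htN, ← Real.log_div (by positivity) hN0.ne']
    have h6 := Real.log_le_sub_one_of_pos (show (0 : ℝ) < ((N + 1 : ℕ) : ℝ) / N by positivity)
    have h7 : ((N + 1 : ℕ) : ℝ) / N - 1 = 1 / (N : ℝ) := by push_cast; field_simp; ring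
    linarith
  have hh1 : hh ≤ 1 := by
    have : 1 / (N : ℝ) ≤ 1 / 3 := one_div_le_one_div_of_le (by norm_num) hN3
    linarith
  have hh4 : 1 / (4 * (N : ℝ)) ≤ hh := by
    have h8 : 1 / (2 * (N : ℝ)) ≤ 1 / ((N : ℝ) + 1) :=
      one_div_le_one_div_of_le (by positivity) (by linarith)
    have h11 : 1 / (4 * (N : ℝ)) = 1 / (2 * (N : ℝ)) / 2 := by field_simp; norm_num
    rw [h11]
    linarith
  -- the exponent
  have haqp : 6 < a * (q - p) := by
    have := mul_le_mul_of_nonneg_left hqpp ha.le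
    linarith
  have hH : a * (q - p) / 2 ≤ u + Real.log hh := by
    have h6 : Real.log (1 / (4 * (N : ℝ))) ≤ Real.log hh := Real.log_le_log (by positivity) hh4
    rw [one_div, Real.log_inv, Real.log_mul (by norm_num) hN0.ne', ← hsN] at h6
    have h7 := abs_le.1 (hy.near s ⟨hs, hst.trans ht⟩)
    have h8 := abs_le.1 (hz.near s ⟨hs, hst.trans ht⟩)
    have h9 : Real.log 4 ≤ 2 := by
      have : Real.log 4 = 2 * Real.log 2 := by
        rw [show (4 : ℝ) = 2 ^ 2 by norm_num, Real.log_pow]; norm_num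
      have := Real.log_two_lt_d9
      linarith
    rw [hu]
    nlinarith [h7.1, h7.2, h8.1, h8.2]
  have hlh : Real.log hh ≤ 0 := Real.log_nonpos hhpos.le hh1
  have hmain : ∫ v in Set.Ioc (z s) (z t), ff 1 v ≤ (2 * K1 / a) * hh * (1 / (q - p)) := by
    have h6 := h1 u hh hhpos (by linarith) (by linarith) (by linarith)
    have e : u + hh = z t := by rw [hu, hhdef]; ring
    rw [e] at h6
    refine h6.trans ?_
    have h7 : hh / (u + Real.log hh) ≤ hh / (a * (q - p) / 2) :=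
      div_le_div_of_nonneg_left hhpos.le (by positivity) hH
    calc K1 * (hh / (u + Real.log hh)) ≤ K1 * (hh / (a * (q - p) / 2)) :=
          mul_le_mul_of_nonneg_left h7 hK1.le
      _ = 2 * K1 / a * hh * (1 / (q - p)) := by field_simp
  have hc := (hz.cov hq3 hs hst ht (measurable_ff 1) (ff_nonneg 1) (ff_le_one 1)).1
  have hqD : 0 < 1 - 1 / (q : ℝ) := by linarith
  refine le_of_mul_le_mul_left (hc.trans (hmain.trans ?_)) hqD
  have h6 : hh ≤ (1 - 1 / (q : ℝ)) * (2 * (t - s)) := by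
    nlinarith
  have hL : 0 ≤ 1 / ((q : ℝ) - p) := by positivity
  calc (2 * K1 / a) * hh * (1 / (q - p)) ≤
      (2 * K1 / a) * ((1 - 1 / (q : ℝ)) * (2 * (t - s))) * (1 / (q - p)) := by gcongr
    _ = _ := by ring

theorem pair1 {a a0 a1 b0 b1 : ℝ} (ha : 0 < a) (hb0 : a0 < b0) (hb1 : b1 < a1) (ha3 : a1 ≤ a0 + 3) :
    ∃ K : ℝ, 0 < K ∧ ∃ P : ℕ, ∀ p q : ℕ, P ≤ p → 2 * p ≤ q → ∀ y y' z z' : ℝ → ℝ,
    Sh a a0 a1 p y y' → Sh a a0 a1 q z z' →
    ∀ s t : ℝ, b0 ≤ s → s ≤ t → t ≤ b1 →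
    ∫ x in Set.Ioc s t, ff 1 (y x) * ff 1 (z x) ≤
      K * ((t - s) + 1 / p) * (1 / p) * (1 / (q - p)) := by
  obtain ⟨K1, hK1, P1, h1⟩ := cell1 ha
  obtain ⟨K2, hK2, P2, h2⟩ := single1 ha a0
  refine ⟨5 * (K1 * K2), by positivity, ?_⟩
  set m := min (1 / 2 * min (b0 - a0) (a1 - b1)) 1 with hm
  have hm0 : 0 < m := by
    rw [hm]
    refine lt_min ?_ one_pos
    have : 0 < min (b0 - a0) (a1 - b1) := lt_min (by linarith) (by linarith)
    positivity
  have hη : ∀ᶠ p : ℕ in atTop, (p : ℝ) * Real.exp (-(a * p)) < m / (2 * Real.exp (|a0| + 1)) := by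
    have h3 := (Real.tendsto_pow_mul_exp_neg_atTop_nhds_zero 1).comp
      ((tendsto_natCast_atTop_atTop (R := ℝ)).const_mul_atTop ha)
    have h4 := h3.const_mul (a⁻¹)
    rw [mul_zero] at h4
    filter_upwards [h4.eventually_lt_const (show 0 < m / (2 * Real.exp (|a0| + 1)) by positivity)]
      with p hp
    refine lt_of_le_of_lt (le_of_eq ?_) hp
    simp only [Function.comp, pow_one]
    field_simp
  have hbig : ∀ᶠ p : ℕ in atTop, (|a0| + 4) / a < p := tendsto_natCast_atTop_atTop.eventually_gt_atTop _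
  obtain ⟨P3, hP3⟩ := eventually_atTop.1 (hη.and (hbig.and (eventually_ge_atTop (max 3 (max P1 P2)))))
  refine ⟨P3, fun p q hp hpq2 y y' z z' hy hz s t hs hst ht => ?_⟩
  obtain ⟨hpη, hpb, hpm⟩ := hP3 p hp
  have hp3 : 3 ≤ p := (le_max_left _ _).trans hpm
  have hp3' : (3 : ℝ) ≤ p := by exact_mod_cast hp3
  have hp0 : (0 : ℝ) < p := by linarith
  have h13 := inv_le_third hp3
  have h1p0 : 0 < 1 / (p : ℝ) := by positivity
  have hpq : p < q := by omega
  have hpq' : (p : ℝ) < q := by exact_mod_cast hpq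
  have hL : 0 ≤ 1 / ((q : ℝ) - p) := div_nonneg zero_le_one (by linarith)
  have hsI : s ∈ Set.Icc a0 a1 := ⟨by linarith, by linarith⟩
  have htI : t ∈ Set.Icc a0 a1 := ⟨by linarith, by linarith⟩
  have hmono := hy.strict hp3
  -- the small quantity
  set η := 2 * Real.exp (|a0| + 1 - a * p) with hηdef
  have hη0 : 0 < η := by positivity
  have hηp : η * p < m := by
    rw [lt_div_iff₀ (by positivity)] at hpη
    have e : η * p = p * Real.exp (-(a * p)) * (2 * Real.exp (|a0| + 1)) := by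
      rw [hηdef, sub_eq_add_neg, Real.exp_add]; ring
    rw [e]; exact hpη
  have hηm : η < m := by nlinarith
  have hη1 : η ≤ 1 / p := by
    rw [le_div_iff₀ hp0]
    have : m ≤ 1 := min_le_right _ _
    linarith
  have hmb0 : m ≤ 1 / 2 * (b0 - a0) :=
    (min_le_left _ _).trans (mul_le_mul_of_nonneg_left (min_le_left _ _) (by norm_num))
  have hmb1 : m ≤ 1 / 2 * (a1 - b1) :=
    (min_le_left _ _).trans (mul_le_mul_of_nonneg_left (min_le_right _ _) (by norm_num))
  have hlowy : ∀ x ∈ Set.Icc a0 a1, a * p - |a0| - 1 ≤ y x := by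
    intro x hx
    have h3 := (abs_le.1 (hy.near x hx)).1
    have := neg_abs_le a0
    have := hx.1
    linarith
  have hexpy : ∀ x ∈ Set.Icc a0 a1, 2 * Real.exp (-(y x)) ≤ η := by
    intro x hx
    rw [hηdef]
    have := hlowy x hx
    have : Real.exp (-(y x)) ≤ Real.exp (|a0| + 1 - a * p) := Real.exp_le_exp.2 (by linarith)
    linarith
  have hy3 : ∀ x ∈ Set.Icc a0 a1, 3 ≤ y x := by
    intro x hx
    have := hlowy x hx
    rw [div_lt_iff₀ ha] at hpb
    linarith
  -- margins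
  have hm1 : y a0 ≤ y s - η := by
    have h3 := (hy.mvt (le_refl a0) (by linarith : a0 ≤ s) hsI.2).1
    nlinarith
  have hm2 : y t + η ≤ y a1 := by
    have h3 := (hy.mvt htI.1 (by linarith : t ≤ a1) le_rfl).1
    nlinarith
  have hyst : y s ≤ y t := hmono.monotoneOn hsI htI hst
  have hys3 := hy3 s hsI
  have hyt3 := hy3 t htI
  have hexp3 : (19 : ℝ) ≤ Real.exp 3 := by
    have h3 := Real.exp_one_gt_d9
    have h4 : Real.exp 3 = Real.exp 1 * Real.exp 1 * Real.exp 1 := by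
      rw [← Real.exp_add, ← Real.exp_add]; norm_num
    rw [h4]
    have h5 : (2.7 : ℝ) ≤ Real.exp 1 := by linarith
    nlinarith [mul_self_nonneg (Real.exp 1)]
  have hes : (19 : ℝ) ≤ Real.exp (y s) := hexp3.trans (Real.exp_le_exp.2 hys3)
  have het : (19 : ℝ) ≤ Real.exp (y t) := hexp3.trans (Real.exp_le_exp.2 hyt3)
  set N0 := ⌊Real.exp (y s)⌋₊ with hN0
  set N1 := ⌊Real.exp (y t)⌋₊ with hN1
  have hN0p : 3 ≤ N0 := by
    rw [hN0, Nat.le_floor_iff (Real.exp_pos _).le]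
    push_cast; linarith
  have hN01 : N0 ≤ N1 := Nat.floor_mono (Real.exp_le_exp.2 hyst)
  have hN0r : (3 : ℝ) ≤ N0 := by exact_mod_cast hN0p
  have hN1r : (3 : ℝ) ≤ N1 := by exact_mod_cast hN0p.trans hN01
  have hl0 : Real.log N0 ≤ y s := by
    rw [Real.log_le_iff_le_exp (by linarith)]
    exact Nat.floor_le (Real.exp_pos _).le
  have hl1 : y t ≤ Real.log ((N1 + 1 : ℕ) : ℝ) := by
    rw [Real.le_log_iff_exp_le (by positivity)]
    push_cast
    exact (Nat.lt_floor_add_one _).le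
  have hl0' : y s - η ≤ Real.log N0 := by
    have h3 : Real.exp (y s) - 1 ≤ N0 := by
      have := Nat.lt_floor_add_one (Real.exp (y s))
      rw [← hN0] at this
      linarith
    have h4 : y s - 2 * Real.exp (-(y s)) ≤ Real.log (Real.exp (y s) - 1) := by
      have h5 : Real.log (Real.exp (y s) - 1) = y s + Real.log (1 - Real.exp (-(y s))) := by
        have : Real.exp (y s) - 1 = Real.exp (y s) * (1 - Real.exp (-(y s))) := by
          rw [mul_sub, mul_one, ← Real.exp_add]; simp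
        rw [this, Real.log_mul (Real.exp_pos _).ne', Real.log_exp]
        have : Real.exp (-(y s)) < 1 := by
          rw [Real.exp_neg]
          exact inv_lt_one_of_one_lt₀ (by linarith)
        linarith
      rw [h5]
      have hx : Real.exp (-(y s)) ≤ 1 / 19 := by
        rw [Real.exp_neg, ← one_div]
        exact one_div_le_one_div_of_le (by norm_num) hes
      have hx0 := Real.exp_pos (-(y s))
      have h6 := Real.one_sub_inv_le_log_of_pos (show 0 < 1 - Real.exp (-(y s)) by linarith)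
      have h7 : 1 - (1 - Real.exp (-(y s)))⁻¹ ≥ -(2 * Real.exp (-(y s))) := by
        have h8 : (1 - Real.exp (-(y s)))⁻¹ ≤ 1 + 2 * Real.exp (-(y s)) := by
          rw [inv_le_comm₀ (by linarith) (by positivity)]
          rw [inv_le_iff_one_le_mul₀ (by positivity)]
          nlinarith
        linarith
      linarith
    have h5 : Real.log (Real.exp (y s) - 1) ≤ Real.log N0 := Real.log_le_log (by linarith) h3
    have h6 := hexpy s hsI
    linarith
  have hl1' : Real.log ((N1 + 1 : ℕ) : ℝ) ≤ y t + η := by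
    have h3 : ((N1 + 1 : ℕ) : ℝ) ≤ Real.exp (y t) * (1 + Real.exp (-(y t))) := by
      push_cast
      have : (N1 : ℝ) ≤ Real.exp (y t) := Nat.floor_le (Real.exp_pos _).le
      rw [mul_add, mul_one, ← Real.exp_add]
      simp
      linarith
    have h4 := Real.log_le_log (by positivity) h3
    rw [Real.log_mul (Real.exp_pos _).ne' (by positivity), Real.log_exp] at h4
    have h5 := Real.log_le_sub_one_of_pos (show 0 < 1 + Real.exp (-(y t)) by positivity)
    have h6 := hexpy t htI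
    have h7 := Real.exp_pos (-(y t))
    linarith
  -- division points
  have hex : ∀ N : ℕ, N0 ≤ N → N ≤ N1 + 1 → ∃ x ∈ Set.Icc a0 a1, y x = Real.log N := by
    intro N h3 h4
    have h5 : y a0 ≤ Real.log N := by
      have : Real.log N0 ≤ Real.log N := Real.log_le_log (by linarith) (by exact_mod_cast h3)
      linarith
    have h6 : Real.log N ≤ y a1 := by
      have : Real.log N ≤ Real.log ((N1 + 1 : ℕ) : ℝ) := Real.log_le_log (by
        have : (N0 : ℝ) ≤ N := by exact_mod_cast h3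
        linarith) (by exact_mod_cast h4)
      linarith
    obtain ⟨x, hx, he⟩ := intermediate_value_Icc (by linarith : a0 ≤ a1) hy.cont ⟨h5, h6⟩
    exact ⟨x, hx, he⟩
  choose! τ hτI hτ using hex
  have hτlt : ∀ N : ℕ, N0 ≤ N → N < N1 + 1 → τ N < τ (N + 1) := by
    intro N h3 h4
    rw [← hmono.lt_iff_lt (hτI N h3 h4.le) (hτI (N + 1) (by omega) h4), hτ N h3 h4.le,
      hτ (N + 1) (by omega) h4]
    have : (N0 : ℝ) ≤ N := by exact_mod_cast h3
    exact Real.log_lt_log (by linarith) (by push_cast; linarith)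
  have hτ0 : τ N0 ≤ s := by
    rw [← hmono.le_iff_le (hτI N0 le_rfl (by omega)) hsI, hτ N0 le_rfl (by omega)]
    exact hl0
  have hτ1 : t ≤ τ (N1 + 1) := by
    rw [← hmono.le_iff_le htI (hτI (N1 + 1) (by omega) le_rfl), hτ (N1 + 1) (by omega) le_rfl]
    exact hl1
  have hτ0I := hτI N0 le_rfl (by omega)
  have hτ1I := hτI (N1 + 1) (by omega) le_rfl
  have hτ0' : s - τ N0 ≤ 2 * (1 / p) := by
    have h3 := (hy.mvt hτ0I.1 hτ0 hsI.2).1
    rw [hτ N0 le_rfl (by omega)] at h3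
    nlinarith
  have hτ1' : τ (N1 + 1) - t ≤ 2 * (1 / p) := by
    have h3 := (hy.mvt htI.1 hτ1 hτ1I.2).1
    rw [hτ (N1 + 1) (by omega) le_rfl] at h3
    nlinarith
  -- enlarge
  have hGint := prod_int1 hy hz
  have hFint := one_int1 hy
  have hbig : ∫ x in Set.Ioc s t, ff 1 (y x) * ff 1 (z x) ≤
      ∫ x in Set.Ioc (τ N0) (τ (N1 + 1)), ff 1 (y x) * ff 1 (z x) := by
    refine setIntegral_mono_set ?_ ?_ ?_
    · exact hGint.mono_set (fun x hx => ⟨hτ0I.1.trans hx.1.le, hx.2.trans hτ1I.2⟩)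
    · exact Eventually.of_forall fun x => mul_nonneg (ff_nonneg 1 _) (ff_nonneg 1 _)
    · exact (Set.Ioc_subset_Ioc hτ0 hτ1).eventuallyLE
  have hsubN : ∀ N ∈ Set.Ico N0 (N1 + 1), Set.Ioc (τ N) (τ (N + 1)) ⊆ Set.Icc a0 a1 := by
    intro N hN x hx
    exact ⟨(hτI N hN.1 hN.2.le).1.trans hx.1.le, hx.2.trans (hτI (N + 1) (by have := hN.1; omega) hN.2).2⟩
  have hiiG : ∀ N ∈ Set.Ico N0 (N1 + 1), IntervalIntegrable (fun x => ff 1 (y x) * ff 1 (z x)) volume
      (τ N) (τ (N + 1)) := by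
    intro N hN
    rw [intervalIntegrable_iff_integrableOn_Ioc_of_le (hτlt N hN.1 hN.2).le]
    exact hGint.mono_set (hsubN N hN)
  have hiiF : ∀ N ∈ Set.Ico N0 (N1 + 1), IntervalIntegrable (fun x => ff 1 (y x)) volume
      (τ N) (τ (N + 1)) := by
    intro N hN
    rw [intervalIntegrable_iff_integrableOn_Ioc_of_le (hτlt N hN.1 hN.2).le]
    exact hFint.mono_set (hsubN N hN)
  have hsumG := intervalIntegral.sum_integral_adjacent_intervals_Ico (a := τ) (m := N0) (n := N1 + 1)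
    (by omega) hiiG
  have hsumF := intervalIntegral.sum_integral_adjacent_intervals_Ico (a := τ) (m := N0) (n := N1 + 1)
    (by omega) hiiF
  have hττ : τ N0 ≤ τ (N1 + 1) := hτ0.trans (hst.trans hτ1)
  rw [intervalIntegral.integral_of_le hττ] at hsumG hsumF
  -- each cell
  have hcell : ∀ N ∈ Finset.Ico N0 (N1 + 1), ∫ x in (τ N)..(τ (N + 1)), ff 1 (y x) * ff 1 (z x) ≤
      K1 * (1 / ((q : ℝ) - p)) * ∫ x in (τ N)..(τ (N + 1)), ff 1 (y x) := by
    intro N hN
    rw [Finset.mem_Ico] at hN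
    have hlt := hτlt N hN.1 hN.2
    rw [intervalIntegral.integral_of_le hlt.le, intervalIntegral.integral_of_le hlt.le]
    have hNp : 3 ≤ N := hN0p.trans hN.1
    set g : ℝ := if (roughPart 1 N).Prime then 1 else 0 with hg
    have hval : ∀ x ∈ Set.Ioc (τ N) (τ (N + 1)), ff 1 (y x) = g := by
      intro x hx
      have hxI := hsubN N hN hx
      have h3 : NN (y x) = N := by
        rw [← mem_Ioc_log (by omega), ← hτ N hN.1 hN.2.le, ← hτ (N + 1) (by omega) hN.2]
        exact ⟨hmono (hτI N hN.1 hN.2.le) hxI hx.1,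
          hmono.monotoneOn hxI (hτI (N + 1) (by omega) hN.2) hx.2⟩
      unfold ff
      rw [h3]
    have e3 : ∫ x in Set.Ioc (τ N) (τ (N + 1)), ff 1 (y x) * ff 1 (z x) =
        g * ∫ x in Set.Ioc (τ N) (τ (N + 1)), ff 1 (z x) := by
      rw [← integral_const_mul]
      exact setIntegral_congr_fun measurableSet_Ioc fun x hx => by
        rw [hval x hx]
    have e4 : ∫ x in Set.Ioc (τ N) (τ (N + 1)), ff 1 (y x) = (τ (N + 1) - τ N) * g := by
      rw [setIntegral_congr_fun measurableSet_Ioc (g := fun _ => g) fun x hx => hval x hx,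
        setIntegral_const, smul_eq_mul, Real.volume_real_Ioc_of_le hlt.le]
    have hc := h1 p q ((le_max_left _ _).trans ((le_max_right _ _).trans hpm)) hpq2 a0 a1 y y' z z'
      hy hz (τ N) (τ (N + 1))
      (hτI N hN.1 hN.2.le).1 hlt.le (hτI (N + 1) (by omega) hN.2).2 N hNp
      (hτ N hN.1 hN.2.le) (hτ (N + 1) (by omega) hN.2)
    have hg0 : 0 ≤ g := by rw [hg]; split_ifs <;> norm_num
    rw [e3, e4]
    calc g * ∫ x in Set.Ioc (τ N) (τ (N + 1)), ff 1 (z x) ≤
        g * (K1 * (τ (N + 1) - τ N) * (1 / ((q : ℝ) - p))) := mul_le_mul_of_nonneg_left hc hg0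
      _ = _ := by ring
  have hsum : ∫ x in Set.Ioc (τ N0) (τ (N1 + 1)), ff 1 (y x) * ff 1 (z x) ≤
      K1 * (1 / ((q : ℝ) - p)) * ∫ x in Set.Ioc (τ N0) (τ (N1 + 1)), ff 1 (y x) := by
    rw [← hsumG, ← hsumF, Finset.mul_sum]
    exact Finset.sum_le_sum hcell
  have hsingle := h2 p ((le_max_right _ _).trans ((le_max_right _ _).trans hpm)) a1 y y' hy
    (τ N0) (τ (N1 + 1)) hτ0I.1 hττ hτ1I.2 (by linarith [hτ0I.1, hτ1I.2])
  have h5 : τ (N1 + 1) - τ N0 + 1 / p ≤ 5 * ((t - s) + 1 / p) := by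
    linarith
  calc ∫ x in Set.Ioc s t, ff 1 (y x) * ff 1 (z x) ≤
      K1 * (1 / ((q : ℝ) - p)) * ∫ x in Set.Ioc (τ N0) (τ (N1 + 1)), ff 1 (y x) := hbig.trans hsum
    _ ≤ K1 * (1 / ((q : ℝ) - p)) * (K2 * (τ (N1 + 1) - τ N0 + 1 / p) * (1 / (p : ℝ))) := by
        gcongr
    _ ≤ K1 * (1 / ((q : ℝ) - p)) * (K2 * (5 * ((t - s) + 1 / p)) * (1 / (p : ℝ))) := by
        gcongr
    _ = _ := by ring

end Pool.Agent.X10.AI
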