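import Mathlib
import Pool.Agent.X10.AI.Mid
import Pool.Agent.X10.AI.Far
import Pool.Agent.X10.AI.Dich

set_option autoImplicit false

/-!
# Shift families of integers are systems of nearly independent events, for all indices
-/

namespace Pool.Agent.X10.AI

open Finset Filter Topology MeasureTheory
open Pool.Agent.W66X (int_comp int_bdd)
open Pool.Agent.H447R2.ML (Sh)
open Pool.Agent.H305R2 (gg LL measurable_gg abs_gg_le abs_gg_le_one LL_nonneg LL_cont
  LL_le_one ff measurable_ff ff_nonneg ff_le_one log_nat_tendsto NN)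

lemma abs_ff1 (x : ℝ) : |ff 1 x| ≤ 1 := by
  rw [abs_of_nonneg (ff_nonneg 1 x)]; exact ff_le_one 1 x

/-- bounds for one index -/
lemma one1 {a : ℝ} (ha : 0 < a) (b0 : ℝ) : ∃ K : ℝ, 0 < K ∧ ∃ P : ℕ, 3 ≤ P ∧ ∀ m ≥ P,
    ∀ y y' : ℝ → ℝ, Sh a (b0 - 1) (b0 + 2) m y y' →
    (∀ t ∈ Set.Ioc b0 (b0 + 1), LL 1 (y t) ≤ K * wt m) ∧
    (∫ t in Set.Ioc b0 (b0 + 1), ff 1 (y t) ≤ K * wt m) ∧
    (∫ t in Set.Ioc b0 (b0 + 1), |gg 1 (y t)| ≤ K * wt m) := by
  obtain ⟨K, hK, hb⟩ := bounds1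
  obtain ⟨K1, hK1, P1, h1⟩ := single1 ha (b0 - 1)
  have hlarge : ∀ᶠ p : ℕ in atTop, (|b0| + 12) * 2 / a < p :=
    tendsto_natCast_atTop_atTop.eventually_gt_atTop _
  obtain ⟨P, hP⟩ := eventually_atTop.1 (hlarge.and ((eventually_ge_atTop 3).and
    (eventually_ge_atTop P1)))
  refine ⟨K * (2 / a) + 2 * K1, by positivity, P + 3, by omega, fun m hm y y' hSh => ?_⟩
  obtain ⟨h4, h5, h6⟩ := hP m (by omega)
  have hm3 : (3 : ℝ) ≤ m := by exact_mod_cast h5
  have hm0 : (0 : ℝ) < m := by linarith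
  have hw : 0 ≤ wt m := wt_nonneg m
  have hinv : 1 / (m : ℝ) ≤ 1 / 3 := one_div_le_one_div_of_le (by norm_num) hm3
  have hinv0 : 0 < 1 / (m : ℝ) := by positivity
  rw [div_lt_iff₀ ha] at h4
  have hb0 := neg_abs_le b0
  have hylow : ∀ t ∈ Set.Icc b0 (b0 + 1), a / 2 * m + 9 ≤ y t := by
    intro t ht
    have := (abs_le.1 (hSh.near t ⟨by linarith [ht.1], by linarith [ht.2]⟩)).1
    linarith [ht.1]
  have ham : 0 < a / 2 * m := by positivity
  have hLL : ∀ t ∈ Set.Ioc b0 (b0 + 1), LL 1 (y t) ≤ K * (2 / a) * wt m := by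
    intro t ht
    have h7 := hylow t ⟨ht.1.le, ht.2⟩
    refine (hb (y t) (by linarith)).1.trans ?_
    have h8 : 1 / y t ≤ 2 / a * (1 / m) := by
      calc 1 / y t ≤ 1 / (a / 2 * m) := one_div_le_one_div_of_le ham (by linarith)
        _ = _ := by field_simp
    unfold wt
    calc K * (1 / y t) ≤ K * (2 / a * (1 / m)) := mul_le_mul_of_nonneg_left h8 hK.le
      _ = _ := by ring
  have hff : ∫ t in Set.Ioc b0 (b0 + 1), ff 1 (y t) ≤ 2 * K1 * wt m := by
    refine (h1 m h6 (b0 + 2) y y' hSh b0 (b0 + 1) (by linarith) (by linarith) (by linarith)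
      (by linarith)).trans ?_
    have h7 : (b0 + 1 - b0) + 1 / (m : ℝ) ≤ 2 := by linarith
    unfold wt
    calc K1 * ((b0 + 1 - b0) + 1 / m) * (1 / m) ≤ K1 * 2 * (1 / m) := by gcongr
      _ = _ := by ring
  have h0 : 0 ≤ K1 * wt m := by positivity
  have h0' : 0 ≤ K * (2 / a) * wt m := by positivity
  refine ⟨fun t ht => (hLL t ht).trans (by nlinarith), hff.trans (by nlinarith), ?_⟩
  have i1 : IntegrableOn (fun t => ff 1 (y t)) (Set.Ioc b0 (b0 + 1)) :=
    int_comp hSh (by linarith) (by linarith) (measurable_ff 1) abs_ff1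
  have i2 : IntegrableOn (fun t => |gg 1 (y t)|) (Set.Ioc b0 (b0 + 1)) :=
    int_comp hSh (by linarith) (by linarith) (F := fun x => |gg 1 x|) (measurable_gg 1).abs (M := 1)
      (fun x => by rw [abs_abs]; exact abs_gg_le_one 1 x)
  have i3 : IntegrableOn (fun _ : ℝ => K * (2 / a) * wt m) (Set.Ioc b0 (b0 + 1)) :=
    integrableOn_const (by simp)
  calc ∫ t in Set.Ioc b0 (b0 + 1), |gg 1 (y t)| ≤
        ∫ t in Set.Ioc b0 (b0 + 1), (ff 1 (y t) + K * (2 / a) * wt m) := by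
        refine setIntegral_mono_on i2 (i1.add i3) measurableSet_Ioc fun t ht => ?_
        exact (abs_gg_le 1 (y t)).trans (by linarith [hLL t ht])
    _ = (∫ t in Set.Ioc b0 (b0 + 1), ff 1 (y t)) + K * (2 / a) * wt m := by
        rw [integral_add i1 i3, setIntegral_const, Real.volume_real_Ioc_of_le (by linarith)]
        simp
    _ ≤ _ := by linarith

/-- reduction of the correlation to the joint event -/
lemma corr1 {a : ℝ} (ha : 0 < a) (b0 : ℝ) : ∃ K : ℝ, 0 < K ∧ ∃ P : ℕ, 3 ≤ P ∧ ∀ p ≥ P, ∀ q ≥ P,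
    ∀ y y' z z' : ℝ → ℝ, Sh a (b0 - 1) (b0 + 2) p y y' → Sh a (b0 - 1) (b0 + 2) q z z' →
    |∫ t in Set.Ioc b0 (b0 + 1), gg 1 (y t) * gg 1 (z t)| ≤
      (∫ t in Set.Ioc b0 (b0 + 1), ff 1 (y t) * ff 1 (z t)) + K * (wt p * wt q) := by
  obtain ⟨K, hK, P, hP3, hP⟩ := one1 ha b0
  refine ⟨3 * K ^ 2, by positivity, P, hP3, fun p hp q hq y y' z z' hy hz => ?_⟩
  obtain ⟨hp1, hp2, _⟩ := hP p hp y y' hy
  obtain ⟨hq1, hq2, _⟩ := hP q hq z z' hz
  set I := Set.Ioc b0 (b0 + 1) with hI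
  have hwp : 0 ≤ wt p := wt_nonneg p
  have hwq : 0 ≤ wt q := wt_nonneg q
  set wp := wt p with hwpd
  set wq := wt q with hwqd
  have hyc : AEMeasurable y (volume.restrict I) :=
    (hy.cont.mono (fun x hx => ⟨by linarith [hx.1], by linarith [hx.2]⟩)).aemeasurable measurableSet_Ioc
  have hzc : AEMeasurable z (volume.restrict I) :=
    (hz.cont.mono (fun x hx => ⟨by linarith [hx.1], by linarith [hx.2]⟩)).aemeasurable measurableSet_Ioc
  have i1 : IntegrableOn (fun t => ff 1 (y t)) I :=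
    int_comp hy (by linarith) (by linarith) (measurable_ff 1) abs_ff1
  have i2 : IntegrableOn (fun t => ff 1 (z t)) I :=
    int_comp hz (by linarith) (by linarith) (measurable_ff 1) abs_ff1
  have i3 : IntegrableOn (fun t => ff 1 (y t) * ff 1 (z t)) I := by
    refine Integrable.of_bound (((measurable_ff 1).comp_aemeasurable hyc).mul
      ((measurable_ff 1).comp_aemeasurable hzc)).aestronglyMeasurable 1 ?_
    refine Eventually.of_forall fun t => ?_
    rw [Real.norm_eq_abs, abs_mul]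
    exact mul_le_one₀ (abs_ff1 _) (abs_nonneg _) (abs_ff1 _)
  have i4 : IntegrableOn (fun t => |gg 1 (y t) * gg 1 (z t)|) I := by
    refine Integrable.abs ?_
    refine Integrable.of_bound (((measurable_gg 1).comp_aemeasurable hyc).mul
      ((measurable_gg 1).comp_aemeasurable hzc)).aestronglyMeasurable 1 ?_
    refine Eventually.of_forall fun t => ?_
    rw [Real.norm_eq_abs, abs_mul]
    exact mul_le_one₀ (abs_gg_le_one 1 _) (abs_nonneg _) (abs_gg_le_one 1 _)
  have i5 : IntegrableOn (fun _ : ℝ => K * wp * (K * wq)) I := integrableOn_const (by simp [hI])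
  have i6 : IntegrableOn (fun t : ℝ => K * wq * ff 1 (y t)) I := i1.const_mul _
  have i7 : IntegrableOn (fun t : ℝ => K * wp * ff 1 (z t)) I := i2.const_mul _
  have i8 : IntegrableOn (fun t : ℝ => K * wq * ff 1 (y t) + K * wp * ff 1 (z t)) I := i6.add i7
  have i9 : IntegrableOn (fun t : ℝ => K * wq * ff 1 (y t) + K * wp * ff 1 (z t) +
      K * wp * (K * wq)) I := i8.add i5
  have i10 : IntegrableOn (fun t : ℝ => ff 1 (y t) * ff 1 (z t) +
      (K * wq * ff 1 (y t) + K * wp * ff 1 (z t) + K * wp * (K * wq))) I := i3.add i9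
  calc |∫ t in I, gg 1 (y t) * gg 1 (z t)| ≤ ∫ t in I, |gg 1 (y t) * gg 1 (z t)| := by
        have := norm_integral_le_integral_norm (μ := volume.restrict I)
          (fun t => gg 1 (y t) * gg 1 (z t))
        simpa [Real.norm_eq_abs] using this
    _ ≤ ∫ t in I, (ff 1 (y t) * ff 1 (z t) +
      (K * wq * ff 1 (y t) + K * wp * ff 1 (z t) + K * wp * (K * wq))) := by
        refine setIntegral_mono_on i4 i10 measurableSet_Ioc fun t ht => ?_
        rw [abs_mul]
        have h1 := abs_gg_le 1 (y t)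
        have h2 := abs_gg_le 1 (z t)
        have h3 := hp1 t ht
        have h4 := hq1 t ht
        have h5 := ff_nonneg 1 (y t)
        have h6 := ff_nonneg 1 (z t)
        have h7 := LL_nonneg 1 (y t)
        have h8 := LL_nonneg 1 (z t)
        have h9 : |gg 1 (y t)| ≤ ff 1 (y t) + K * wp := by linarith
        have h10 : |gg 1 (z t)| ≤ ff 1 (z t) + K * wq := by linarith
        calc |gg 1 (y t)| * |gg 1 (z t)| ≤ (ff 1 (y t) + K * wp) * (ff 1 (z t) + K * wq) :=
              mul_le_mul h9 h10 (abs_nonneg _) (by positivity)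
          _ = _ := by ring
    _ = (∫ t in I, ff 1 (y t) * ff 1 (z t)) +
        (K * wq * (∫ t in I, ff 1 (y t)) + K * wp * (∫ t in I, ff 1 (z t)) + K * wp * (K * wq)) := by
        rw [integral_add i3 i9, integral_add i8 i5, integral_add i6 i7,
          integral_const_mul, integral_const_mul, setIntegral_const, hI,
          Real.volume_real_Ioc_of_le (by linarith)]
        simp
    _ ≤ (∫ t in I, ff 1 (y t) * ff 1 (z t)) +
        (K * wq * (K * wp) + K * wp * (K * wq) + K * wp * (K * wq)) := by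
        gcongr
    _ = _ := by ring

/-- pairs with `2 p ≤ q` -/
lemma mid1 {a : ℝ} (ha : 0 < a) (b0 : ℝ) : ∃ K : ℝ, 0 < K ∧ ∃ P : ℕ, ∀ p ≥ P, ∀ q : ℕ, 2 * p ≤ q →
    ∀ y y' z z' : ℝ → ℝ, Sh a (b0 - 1) (b0 + 2) p y y' → Sh a (b0 - 1) (b0 + 2) q z z' →
    |∫ t in Set.Ioc b0 (b0 + 1), gg 1 (y t) * gg 1 (z t)| ≤ K * (wt p * wt q) := by
  obtain ⟨K1, hK1, P1, hP13, h1⟩ := corr1 ha b0
  obtain ⟨K2, hK2, P2, h2⟩ := pair1 (a := a) (a0 := b0 - 1) (a1 := b0 + 2)
    (b0 := b0) (b1 := b0 + 1) ha (by linarith) (by linarith) (by linarith)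
  refine ⟨K1 + 4 * K2, by positivity, P1 + P2 + 1, fun p hp q hpq y y' z z' hy hz => ?_⟩
  have hp1 : (1 : ℝ) ≤ p := by exact_mod_cast (by omega : 1 ≤ p)
  have hpq' : 2 * (p : ℝ) ≤ q := by exact_mod_cast hpq
  have h3 := h2 p q (by omega) hpq _ _ _ _ hy hz b0 (b0 + 1) le_rfl (by linarith) le_rfl
  have h4 := h1 p (by omega) q (by omega) y y' z z' hy hz
  have hq0 : (0 : ℝ) < q := by linarith
  have hp0 : (0 : ℝ) < p := by linarith
  have h5 : K2 * ((b0 + 1 - b0) + 1 / p) * (1 / p) * (1 / (q - p)) ≤ 4 * K2 * (wt p * wt q) := by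
    have h6 : (b0 + 1 - b0) + 1 / (p : ℝ) ≤ 2 := by
      have : 1 / (p : ℝ) ≤ 1 := by rw [div_le_one (by linarith)]; exact hp1
      linarith
    have h7 : 1 / ((q : ℝ) - p) ≤ 2 * (1 / q) := by
      calc 1 / ((q : ℝ) - p) ≤ 1 / (q / 2) := one_div_le_one_div_of_le (by positivity) (by linarith)
        _ = _ := by field_simp
    have h8 : 0 ≤ 1 / ((q : ℝ) - p) := div_nonneg zero_le_one (by linarith)
    unfold wt
    calc K2 * ((b0 + 1 - b0) + 1 / p) * (1 / p) * (1 / (q - p)) ≤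
          K2 * 2 * (1 / p) * (2 * (1 / q)) := by gcongr
      _ = _ := by ring
  calc _ ≤ _ := h4
    _ ≤ 4 * K2 * (wt p * wt q) + K1 * (wt p * wt q) := by linarith
    _ = _ := by ring

/-- abstract row sum -/
lemma row_all {κ K : ℝ} (hκ : 0 < κ) (hK : 0 < K) (J : ℕ → ℕ → ℝ) (P : ℕ)
    (hfar : ∀ q ≥ P, ∀ p : ℕ, (p : ℝ) ≤ κ * q / Real.log q → |J p q| ≤ K * (1 / (q : ℝ) ^ 2))
    (hpair : ∀ p ≥ P, ∀ q : ℕ, p < q → |J p q| ≤ K * (wt p * wt q)) :
    ∃ C : ℝ, 0 < C ∧ ∃ P' : ℕ, P ≤ P' ∧ 3 ≤ P' ∧ ∀ q ≥ P', ∀ T : Finset ℕ,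
      (∀ p ∈ T, 2 ≤ p ∧ P' ≤ p ∧ p < q) → ∑ p ∈ T, |J p q| ≤
        C * (wt q * (1 + ∑ p ∈ T.filter (fun p : ℕ => κ * q / Real.log q < (p : ℝ)), wt p)) := by
  refine ⟨K, hK, P + 3, by omega, by omega, fun q hq T hTm => ?_⟩
  have hq3 : (3 : ℝ) ≤ q := by exact_mod_cast (by omega : 3 ≤ q)
  have hq0 : (0 : ℝ) < q := by linarith
  classical
  set F := T.filter (fun p : ℕ => ¬ κ * q / Real.log q < (p : ℝ)) with hF
  set L := T.filter (fun p : ℕ => κ * q / Real.log q < (p : ℝ)) with hL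
  have hsplit : ∑ p ∈ T, |J p q| = ∑ p ∈ L, |J p q| + ∑ p ∈ F, |J p q| := by
    rw [hL, hF]
    exact (Finset.sum_filter_add_sum_filter_not T _ _).symm
  have hsF : ∑ p ∈ F, |J p q| ≤ K * wt q := by
    have hcard : (F.card : ℝ) ≤ q := by
      have h1 : F ⊆ Finset.range q := by
        intro p hp
        rw [hF, mem_filter] at hp
        rw [mem_range]
        exact (hTm p hp.1).2.2
      have h2 := Finset.card_le_card h1
      rw [Finset.card_range] at h2
      exact_mod_cast h2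
    calc ∑ p ∈ F, |J p q| ≤ ∑ p ∈ F, K * (1 / (q : ℝ) ^ 2) :=
          Finset.sum_le_sum fun p hp => hfar q (by omega) p (not_lt.1 (mem_filter.1 hp).2)
      _ = F.card * (K * (1 / (q : ℝ) ^ 2)) := by rw [Finset.sum_const, nsmul_eq_mul]
      _ ≤ q * (K * (1 / (q : ℝ) ^ 2)) := by gcongr
      _ = K * wt q := by unfold wt; field_simp
  have hsL : ∑ p ∈ L, |J p q| ≤ K * (wt q * ∑ p ∈ L, wt p) := by
    have h1 : ∀ p ∈ L, |J p q| ≤ (K * wt q) * wt p := by
      intro p hp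
      rw [hL, mem_filter] at hp
      have h2 := hTm p hp.1
      refine (hpair p (by omega) q h2.2.2).trans (le_of_eq ?_)
      ring
    calc ∑ p ∈ L, |J p q| ≤ ∑ p ∈ L, (K * wt q) * wt p := Finset.sum_le_sum h1
      _ = (K * wt q) * ∑ p ∈ L, wt p := by rw [Finset.mul_sum]
      _ = _ := by ring
  rw [hsplit]
  calc ∑ p ∈ L, |J p q| + ∑ p ∈ F, |J p q| ≤ K * (wt q * ∑ p ∈ L, wt p) + K * wt q :=
        add_le_add hsL hsF
    _ = _ := by ring

/-- **A shift family is a system on every window.** -/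
theorem sys_all {a : ℝ} (ha : 0 < a) {y y' : ℕ → ℝ → ℝ} (hym : ∀ p, Measurable (y p))
    (hfam : ∀ a0 a1 : ℝ, a0 < a1 → ∀ᶠ p : ℕ in atTop, Sh a a0 a1 p (y p) (y' p))
    (hw : ∀ b0 : ℝ, ∃ P : ℕ, ∀ p ≥ P, ∀ q ≥ P, p ≤ q → ∃ w : ℝ → ℝ, Measurable w ∧
      MonotoneOn w (Set.Icc (a * q + b0 - 1) (a * q + b0 + 2)) ∧
      (∀ s ∈ Set.Icc (a * q + b0 - 1) (a * q + b0 + 2), ∀ t ∈ Set.Icc (a * q + b0 - 1) (a * q + b0 + 2),
        |w s - w t| ≤ 2 * |s - t|) ∧ w (a * q + b0 + 2) ≤ a * p + |b0| + 3 ∧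
      ∀ t ∈ Set.Ioc b0 (b0 + 1), w (y q t) = y p t)
    (hnear : ∀ b0 : ℝ, ∃ K : ℝ, 0 < K ∧ ∃ P : ℕ, ∀ p ≥ P, ∀ q : ℕ, p < q → q ≤ 2 * p →
      ∫ t in Set.Ioc b0 (b0 + 1), ff 1 (y p t) * ff 1 (y q t) ≤ K * (1 / (p : ℝ)) ^ 2) (b0 : ℝ) :
    Sys (volume.restrict (Set.Ioc b0 (b0 + 1))) (fun p t => ff 1 (y p t)) (fun p t => LL 1 (y p t))
      (fun _ => 1 / a) := by
  obtain ⟨P0, hP0⟩ := eventually_atTop.1 (hfam (b0 - 1) (b0 + 2) (by linarith))
  obtain ⟨κ, K1, hκ, hK1, P1, h1⟩ := far_sh1 ha b0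
  obtain ⟨K2, hK2, P2, h2⟩ := mid1 ha b0
  obtain ⟨K3, hK3, P3, h3⟩ := hnear b0
  obtain ⟨K4, hK4, P4, hP43, h4⟩ := corr1 ha b0
  obtain ⟨K5, hK5, P5, hP53, h5⟩ := one1 ha b0
  obtain ⟨P6, h6⟩ := hw b0
  obtain ⟨P7, h7⟩ := eventually_atTop.1 (log_nat_tendsto.eventually_ge_atTop κ)
  obtain ⟨C8, hC8, h8⟩ := LL1_rate
  have hmem : ∀ᵐ t ∂(volume.restrict (Set.Ioc b0 (b0 + 1))), t ∈ Set.Ioc b0 (b0 + 1) :=
    ae_restrict_mem measurableSet_Ioc
  refine ⟨fun q => (measurable_ff 1).comp (hym q), fun q => (LL_cont 1).measurable.comp (hym q),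
    fun q t => ?_, fun q t => LL_nonneg 1 _, fun q t => LL_le_one 1 _, ?_, ?_, ?_, ?_⟩
  · simp only [ff_one]
    split_ifs
    · exact Or.inr rfl
    · exact Or.inl rfl
  · -- the mean
    have hlarge : ∀ᶠ p : ℕ in atTop, (|b0| + 4) * 2 / a < p :=
      tendsto_natCast_atTop_atTop.eventually_gt_atTop _
    obtain ⟨P9, h9⟩ := eventually_atTop.1 hlarge
    refine ⟨4 * C8 / a ^ 2 + 2 * (|b0| + 3) / a ^ 2, by positivity, P0 + P9 + 1, ?_⟩
    filter_upwards [hmem] with t ht q hq hqp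
    have hq2 : (2 : ℝ) ≤ q := by exact_mod_cast hqp
    have hq0 : (0 : ℝ) < q := by linarith
    have hq1 : 1 / (q : ℝ) ≤ 1 := by
      rw [div_le_one (by linarith)]
      linarith
    have hql := h9 q (by omega)
    rw [div_lt_iff₀ ha] at hql
    have e1 := abs_le.1 ((hP0 q (by omega)).near t ⟨by linarith [ht.1], by linarith [ht.2]⟩)
    set Y := y q t with hY
    have e2 : |Y - a * q| ≤ |b0| + 3 := by
      have e3 := abs_le.1 (le_refl |b0|)
      rw [abs_le]
      constructor <;> linarith [e1.1, e1.2, ht.1, ht.2, e3.1, e3.2]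
    have e2' := abs_le.1 e2
    have haq : 0 < a * q := by positivity
    have hb := abs_nonneg b0
    have hYlow : a / 2 * q ≤ Y := by linarith
    have hY2 : 2 ≤ Y := by linarith
    have hY0 : 0 < Y := by linarith
    have e3 := h8 Y hY2
    have e4 : C8 / Y ^ 2 ≤ 4 * C8 / a ^ 2 * (1 / (q : ℝ) ^ 2) := by
      have e5 : 4 * C8 / a ^ 2 * (1 / (q : ℝ) ^ 2) = C8 / (a / 2 * q) ^ 2 := by
        field_simp
        norm_num
      rw [e5]
      refine div_le_div_of_nonneg_left hC8.le (by positivity) ?_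
      exact pow_le_pow_left₀ (by positivity) hYlow 2
    have e6 : |1 / Y - 1 / (a * q)| ≤ 2 * (|b0| + 3) / a ^ 2 * (1 / (q : ℝ) ^ 2) := by
      have e7 : 1 / Y - 1 / (a * q) = -((Y - a * q) / (Y * (a * q))) := by field_simp; ring
      rw [e7, abs_neg, abs_div, abs_of_pos (by positivity : 0 < Y * (a * q))]
      have e8 : 2 * (|b0| + 3) / a ^ 2 * (1 / (q : ℝ) ^ 2) = (|b0| + 3) / (a / 2 * q * (a * q)) := by
        field_simp
      rw [e8]
      refine div_le_div₀ (by linarith) e2 (by positivity) ?_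
      exact mul_le_mul_of_nonneg_right hYlow haq.le
    have e9 : LL 1 Y - 1 / a * wt q = (LL 1 Y - 1 / Y) + (1 / Y - 1 / (a * q)) := by
      unfold wt
      field_simp
      ring
    rw [e9]
    refine (abs_add_le _ _).trans ?_
    linarith
  · exact ⟨1 / a, 1 / a, by positivity, Eventually.of_forall fun t => ⟨le_rfl, le_rfl⟩⟩
  · set Q := P0 + P1 + P2 + P3 + P4 + P5 + P6 + P7 with hQ
    set J : ℕ → ℕ → ℝ := fun p q => if Q ≤ p then
      ∫ t in Set.Ioc b0 (b0 + 1), gg 1 (y p t) * gg 1 (y q t) else 0 with hJ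
    set K := K1 + K2 + (2 * K3 + K4) with hK
    obtain ⟨C, hC, P', hP', hP3', hrow⟩ := row_all (κ := κ) (K := K) hκ (by positivity) J Q
      (by
        intro q hq p hp
        have hr : 0 ≤ 1 / (q : ℝ) ^ 2 := by positivity
        simp only [hJ]
        split_ifs with hpQ
        · have hlq := h7 q (by omega)
          have hq0 : (0 : ℝ) < q := by exact_mod_cast (by omega : 0 < q)
          have hpq : p ≤ q := by
            have hl : 0 < Real.log q := lt_of_lt_of_le hκ hlq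
            have : (p : ℝ) ≤ q := by
              refine hp.trans ?_
              rw [div_le_iff₀ hl]
              nlinarith
            exact_mod_cast this
          obtain ⟨w, w1, w2, w3, w4, w5⟩ := h6 p (by omega) q (by omega) hpq
          refine (h1 q (by omega) p (y q) (y' q) (y p) w (hP0 q (by omega)) w1 w2 w3 hp w4 w5).trans ?_
          exact mul_le_mul_of_nonneg_right (by rw [hK]; linarith) hr
        · rw [abs_zero]; positivity)
      (by
        intro p hp q hq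
        have hww : 0 ≤ wt p * wt q := mul_nonneg (wt_nonneg p) (wt_nonneg q)
        simp only [hJ]
        rw [if_pos hp]
        rcases le_or_gt (2 * p) q with hc | hc
        · refine (h2 p (by omega) q hc _ _ _ _ (hP0 p (by omega)) (hP0 q (by omega))).trans ?_
          exact mul_le_mul_of_nonneg_right (by rw [hK]; linarith) hww
        · have e1 := h4 p (by omega) q (by omega) _ _ _ _ (hP0 p (by omega)) (hP0 q (by omega))
          have e2 := h3 p (by omega) q hq (by omega)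
          have hp0 : (0 : ℝ) < p := by exact_mod_cast (by omega : 0 < p)
          have hq0 : (0 : ℝ) < q := by exact_mod_cast (by omega : 0 < q)
          have hqp : (q : ℝ) ≤ 2 * p := by exact_mod_cast hc.le
          have e3 : (1 / (p : ℝ)) ^ 2 ≤ 2 * (wt p * wt q) := by
            unfold wt
            have : 2 * (1 / (p : ℝ) * (1 / q)) = 1 / (p * (q / 2)) := by field_simp
            rw [this, one_div_pow]
            apply one_div_le_one_div_of_le (by positivity)
            nlinarith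
          calc _ ≤ _ := e1
            _ ≤ K3 * (2 * (wt p * wt q)) + K4 * (wt p * wt q) := by
                have := mul_le_mul_of_nonneg_left e3 hK3.le
                linarith
            _ = (2 * K3 + K4) * (wt p * wt q) := by ring
            _ ≤ _ := mul_le_mul_of_nonneg_right (by rw [hK]; linarith) hww)
    refine ⟨κ, C + K5, hκ, by positivity, P', hP3', fun q hq _ => ?_, fun q hq _ T hT => ?_⟩
    · have e1 := (h5 q (by omega) _ _ (hP0 q (by omega))).2.2
      have e2 : ∫ t in Set.Ioc b0 (b0 + 1), (gg 1 (y q t)) ^ 2 ≤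
          ∫ t in Set.Ioc b0 (b0 + 1), |gg 1 (y q t)| := by
        have hmg : Measurable (fun t : ℝ => gg 1 (y q t)) := (measurable_gg 1).comp (hym q)
        refine setIntegral_mono_on ?_ ?_ measurableSet_Ioc fun t _ => ?_
        · refine int_bdd (hmg.pow_const 2) (M := 1) (fun t => ?_) _ _
          rw [abs_pow]
          exact pow_le_one₀ (abs_nonneg _) (abs_gg_le_one _ _)
        · refine int_bdd hmg.abs (M := 1) (fun t => ?_) _ _
          rw [abs_abs]
          exact abs_gg_le_one _ _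
        · have h1 := abs_gg_le_one 1 (y q t)
          have h2 := abs_nonneg (gg 1 (y q t))
          rw [← sq_abs]
          nlinarith
      refine (e2.trans e1).trans ?_
      exact mul_le_mul_of_nonneg_right (by linarith) (wt_nonneg q)
    · have hsame : ∑ p ∈ T, |∫ t in Set.Ioc b0 (b0 + 1), gg 1 (y p t) * gg 1 (y q t)| =
          ∑ p ∈ T, |J p q| := by
        refine Finset.sum_congr rfl fun p hp => ?_
        have := (hT p hp).2.1
        simp only [hJ]
        rw [if_pos (hP'.trans this)]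
      have e1 := hrow q hq T hT
      rw [← hsame] at e1
      refine e1.trans ?_
      refine mul_le_mul_of_nonneg_right (by linarith) ?_
      have : 0 ≤ ∑ p ∈ T.filter (fun p : ℕ => κ * q / Real.log q < (p : ℝ)), wt p :=
        Finset.sum_nonneg fun p _ => wt_nonneg p
      exact mul_nonneg (wt_nonneg q) (by linarith)
  · refine ⟨K5, hK5.le, P0 + P5, fun q hq _ => ?_⟩
    exact (h5 q (by omega) _ _ (hP0 q (by omega))).2.1

end Pool.Agent.X10.AI
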