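import Mathlib
import Pool.Agent.X10.AI.Shift
import Pool.Agent.X10.AI.Space
import Pool.Agent.TH888.R.Asy

set_option autoImplicit false

/-!
# From systems to counting functions, for all indices
-/

namespace Pool.Agent.X10.AI

open Finset Filter Topology MeasureTheory Asymptotics
open Pool.Agent.H305R2 (log_nat_tendsto NN ff)
open Pool.Agent.H447R2.ML (Sh sh_of)
open Pool.Agent.TH888.R (gr one_le_gr gr_mono gr_le gr_all gr_set bigO_set loglog_tendsto ae_windows)
open Pool.Agent.W66X (ysh measurable_ysh trans_shift pert8 exp_ysh ae_of_exp')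

lemma VS_univ (n : ℕ) : VS Set.univ n = ∑ p ∈ Finset.Icc 2 n, 1 / (p : ℝ) := by
  unfold VS wt
  have e : Finset.Icc 2 n = (range (n + 1)).filter (fun q => 2 ≤ q) := by
    ext p
    simp only [Finset.mem_filter, Finset.mem_range, Finset.mem_Icc]
    omega
  rw [e, Finset.sum_filter]
  refine Finset.sum_congr rfl fun q _ => ?_
  by_cases h : 2 ≤ q
  · rw [if_pos ⟨Set.mem_univ q, h⟩, if_pos h]
  · rw [if_neg (fun hc => h hc.2), if_neg h]

lemma VS_univ_bound : ∃ C : ℝ, 0 ≤ C ∧ ∀ n : ℕ, 1 ≤ n → |VS Set.univ n - Real.log n| ≤ C := by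
  refine ⟨1, zero_le_one, fun n hn => ?_⟩
  have h1 : VS Set.univ n ≤ Real.log n := by
    rw [VS_univ]
    have e : Finset.Icc 2 n = Finset.Ioc 1 n := by
      ext x; simp only [Finset.mem_Icc, Finset.mem_Ioc]; omega
    rw [e]
    have := sum_inv_le 1 le_rfl n hn
    simpa using this
  have h2 : Real.log ((n + 1 : ℕ) : ℝ) - Real.log 2 ≤ VS Set.univ n := by
    rw [VS_univ]
    induction n, hn using Nat.le_induction with
    | base => norm_num
    | succ n hn ih =>
      have h3 : Finset.Icc 2 (n + 1) = insert (n + 1) (Finset.Icc 2 n) := by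
        ext x; simp only [Finset.mem_Icc, Finset.mem_insert]; omega
      rw [h3, Finset.sum_insert (by simp)]
      have h4 : VS Set.univ n ≤ Real.log n := by
        rw [VS_univ]
        have e : Finset.Icc 2 n = Finset.Ioc 1 n := by
          ext x; simp only [Finset.mem_Icc, Finset.mem_Ioc]; omega
        rw [e]
        have := sum_inv_le 1 le_rfl n hn
        simpa using this
      have h5 := ih h4
      have hn0 : (0 : ℝ) < ((n + 1 : ℕ) : ℝ) := by positivity
      have h6 := Real.log_le_sub_one_of_pos (show (0 : ℝ) < ((n + 1 + 1 : ℕ) : ℝ) / ((n + 1 : ℕ) : ℝ) by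
        positivity)
      rw [Real.log_div (by positivity) hn0.ne'] at h6
      have h7 : ((n + 1 + 1 : ℕ) : ℝ) / ((n + 1 : ℕ) : ℝ) - 1 = 1 / ((n + 1 : ℕ) : ℝ) := by
        push_cast; field_simp; ring
      linarith
  have h3 : Real.log n ≤ Real.log ((n + 1 : ℕ) : ℝ) := by
    refine Real.log_le_log (by exact_mod_cast hn) ?_
    push_cast
    linarith
  have h4 := Real.log_two_lt_d9
  rw [abs_le]
  constructor <;> linarith

lemma VS_univ_tendsto : Tendsto (VS Set.univ) atTop atTop := by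
  obtain ⟨C, _, hC⟩ := VS_univ_bound
  refine tendsto_atTop_mono' _ (f₁ := fun n : ℕ => Real.log n + (-C)) ?_
    (tendsto_atTop_add_const_right _ _ log_nat_tendsto)
  filter_upwards [eventually_ge_atTop 1] with n hn
  have := (abs_le.1 (hC n hn)).1
  linarith

/-- asymptotic form of the law for all indices -/
lemma bigO_all {F : ℕ → ℝ} {c B : ℝ} (hB : 0 ≤ B)
    (h : ∀ n : ℕ, 3 ≤ n → |F n - c * VS Set.univ n| ≤
      B * gr (VS Set.univ n * (1 + Real.log (Real.log n)))) :
    (fun n : ℕ => F n - c * Real.log n) =O[atTop] fun n : ℕ =>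
      Real.sqrt (Real.log n) * (Real.log (Real.log n)) ^ ((5 : ℝ) / 2) := by
  obtain ⟨C, hC0, hC⟩ := VS_univ_bound
  refine IsBigO.of_bound (100 * B + |c| * C) ?_
  filter_upwards [gr_all (C := C) (VS_nonneg Set.univ) (fun n hn => by
    have := (abs_le.1 (hC n hn)).2
    linarith), eventually_ge_atTop 3, log_nat_tendsto.eventually_ge_atTop 1,
    loglog_tendsto.eventually_ge_atTop 1] with n h1 h2 h3 h4
  set E := Real.sqrt (Real.log n) * (Real.log (Real.log n)) ^ ((5 : ℝ) / 2) with hE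
  have hE1 : 1 ≤ E := by
    have h5 : 1 ≤ Real.sqrt (Real.log n) := by rw [Real.one_le_sqrt]; exact h3
    have h6 : 1 ≤ (Real.log (Real.log n)) ^ ((5 : ℝ) / 2) := Real.one_le_rpow h4 (by norm_num)
    rw [hE]
    nlinarith
  rw [Real.norm_eq_abs, Real.norm_of_nonneg (by linarith)]
  have e : F n - c * Real.log n = (F n - c * VS Set.univ n) + c * (VS Set.univ n - Real.log n) := by ring
  rw [e]
  have h7 := h n h2
  have h8 := mul_le_mul_of_nonneg_left h1 hB
  have h9 : |c * (VS Set.univ n - Real.log n)| ≤ |c| * C := by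
    rw [abs_mul]
    exact mul_le_mul_of_nonneg_left (hC n (by omega)) (abs_nonneg c)
  have h10 := abs_add_le (F n - c * VS Set.univ n) (c * (VS Set.univ n - Real.log n))
  have h11 : |c| * C ≤ |c| * C * E := by
    have : 0 ≤ |c| * C := by positivity
    nlinarith
  nlinarith

open Classical in
/-- the number of indices `m` in `S`, `2 ≤ m ≤ n`, for which `s m` is prime -/
noncomputable def cS (S : Set ℕ) (s : ℕ → ℕ) (n : ℕ) : ℕ :=
  ((range (n + 1)).filter (fun p => 2 ≤ p ∧ p ∈ S ∧ (s p).Prime)).card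

/-- The law with error term and the dichotomy at one point, for the integers `s m`. -/
structure Pt (s : ℕ → ℕ) (c : ℝ) (S : Set ℕ) : Prop where
  law : Tendsto (VS S) atTop atTop → ∃ B : ℝ, 0 ≤ B ∧ ∀ n : ℕ, 3 ≤ n →
    |(cS S s n : ℝ) - c * VS S n| ≤ B * gr (VS S n * (1 + Real.log (Real.log n)))
  inf : Tendsto (VS S) atTop atTop → {p : ℕ | 2 ≤ p ∧ p ∈ S ∧ (s p).Prime}.Infinite
  fin : ¬ Tendsto (VS S) atTop atTop → {p : ℕ | 2 ≤ p ∧ p ∈ S ∧ (s p).Prime}.Finite

open Classical in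
/-- **From a system to the counting function.** -/
theorem Sys.pt {Ω : Type*} [MeasurableSpace Ω] {μ : Measure Ω} [IsFiniteMeasure μ] {f m : ℕ → Ω → ℝ}
    {c : Ω → ℝ} (h : Sys μ f m c) {s : Ω → ℕ → ℕ}
    (hs : ∀ᵐ x ∂μ, ∃ P : ℕ, ∀ p ≥ P, f p x = if (s x p).Prime then 1 else 0)
    (S : Set ℕ) : ∀ᵐ x ∂μ, Pt (s x) (c x) S := by
  have hset : ∀ᵐ x ∂μ, ∃ P : ℕ, (∀ p : ℕ, P ≤ p → ((p ∈ S ∧ 2 ≤ p ∧ f p x = 1) ↔
      (2 ≤ p ∧ p ∈ S ∧ (s x p).Prime))) ∧
      ∀ n : ℕ, |(cS S (s x) n : ℝ) - FS f S n x| ≤ P := by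
    filter_upwards [hs] with x hx
    obtain ⟨P, hP⟩ := hx
    refine ⟨P, fun p hp => ?_, fun n => ?_⟩
    · constructor
      · rintro ⟨h1, h2, h3⟩
        refine ⟨h2, h1, ?_⟩
        rw [hP p hp] at h3
        by_contra h4
        rw [if_neg h4] at h3
        norm_num at h3
      · rintro ⟨h1, h2, h3⟩
        refine ⟨h2, h1, ?_⟩
        rw [hP p hp, if_pos h3]
    · have e1 : (cS S (s x) n : ℝ) = ∑ p ∈ range (n + 1),
          if 2 ≤ p ∧ p ∈ S ∧ (s x p).Prime then (1 : ℝ) else 0 := by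
        unfold cS
        rw [Finset.card_eq_sum_ones, Finset.sum_filter]
        push_cast
        rfl
      rw [e1]
      unfold FS
      rw [← Finset.sum_sub_distrib]
      have h1 : ∑ p ∈ range (n + 1), |(if 2 ≤ p ∧ p ∈ S ∧ (s x p).Prime then (1 : ℝ) else 0) -
          if p ∈ S ∧ 2 ≤ p then f p x else 0| ≤ ∑ p ∈ range (n + 1), if p < P then (1 : ℝ) else 0 := by
        refine Finset.sum_le_sum fun p _ => ?_
        by_cases hp : P ≤ p
        · rw [if_neg (by omega : ¬ p < P)]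
          by_cases h2 : p ∈ S ∧ 2 ≤ p
          · rw [if_pos h2, hP p hp]
            by_cases h3 : (s x p).Prime
            · rw [if_pos ⟨h2.2, h2.1, h3⟩, if_pos h3]
              norm_num
            · rw [if_neg (fun h => h3 h.2.2), if_neg h3]
              norm_num
          · rw [if_neg h2, if_neg (fun h => h2 ⟨h.2.1, h.1⟩)]
            norm_num
        · rw [if_pos (by omega : p < P)]
          have h3 := h.f0 p x
          have h4 := h.f1 p x
          rw [abs_le]
          split_ifs <;> constructor <;> linarith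
      have h2 : ∑ p ∈ range (n + 1), (if p < P then (1 : ℝ) else 0) ≤ P := by
        rw [Finset.sum_ite, Finset.sum_const_zero, add_zero, Finset.sum_const, nsmul_eq_mul, mul_one]
        have : ((range (n + 1)).filter (fun q => q < P)).card ≤ P := by
          calc _ ≤ (range P).card := Finset.card_le_card fun q hq => by
                  rw [mem_filter] at hq
                  exact mem_range.2 hq.2
            _ = P := Finset.card_range P
        exact_mod_cast this
      exact (Finset.abs_sum_le_sum_abs _ _).trans (h1.trans h2)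
  by_cases hdiv : Tendsto (VS S) atTop atTop
  · filter_upwards [hset, h.law S hdiv, h.inf S hdiv] with x hx hl hi
    obtain ⟨P, hP1, hP2⟩ := hx
    obtain ⟨B, hB, hBn⟩ := hl
    refine ⟨fun _ => ⟨B + P, by positivity, fun n hn => ?_⟩, fun _ => ?_, fun h1 => absurd hdiv h1⟩
    · have h1 := hBn n hn
      have h2 := hP2 n
      have h3 : 1 ≤ gr (VS S n * (1 + Real.log (Real.log n))) := by
        refine one_le_gr ?_
        have := loglog_nonneg hn
        have := VS_nonneg S n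
        positivity
      have h4 := abs_add_le ((cS S (s x) n : ℝ) - FS f S n x) (FS f S n x - c x * VS S n)
      have e : (cS S (s x) n : ℝ) - FS f S n x + (FS f S n x - c x * VS S n) =
        (cS S (s x) n : ℝ) - c x * VS S n := by ring
      rw [e] at h4
      have h5 : (P : ℝ) ≤ P * gr (VS S n * (1 + Real.log (Real.log n))) := by
        have : (0 : ℝ) ≤ P := Nat.cast_nonneg P
        nlinarith
      linarith
    · intro hfin
      refine hi ((hfin.union (Set.finite_lt_nat P)).subset fun p hp => ?_)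
      by_cases h1 : P ≤ p
      · exact Or.inl ((hP1 p h1).1 hp)
      · exact Or.inr (by show p < P; omega)
  · filter_upwards [hset, h.fin S hdiv] with x hx hi
    obtain ⟨P, hP1, _⟩ := hx
    refine ⟨fun h1 => absurd h1 hdiv, fun h1 => absurd h1 hdiv, fun _ => ?_⟩
    refine (hi.union (Set.finite_lt_nat P)).subset fun p hp => ?_
    by_cases h1 : P ≤ p
    · exact Or.inl ((hP1 p h1).2 hp)
    · exact Or.inr (by show p < P; omega)

variable {α κ C : ℝ} {g : ℕ → ℝ}

/-- **The law for the integers `⌊β α ^ m + g m⌋`, all indices `m`.** -/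
theorem pt_floor (hα : 1 < α) (hκ0 : 0 ≤ κ) (hκ : κ < α) (hg : ∀ p, |g p| ≤ C * κ ^ p)
    (hnear : ∀ b0 : ℝ, ∃ K : ℝ, 0 < K ∧ ∃ P : ℕ, ∀ p ≥ P, ∀ q : ℕ, p < q → q ≤ 2 * p →
      ∫ t in Set.Ioc b0 (b0 + 1), ff 1 (ysh α g p t) * ff 1 (ysh α g q t) ≤ K * (1 / (p : ℝ)) ^ 2)
    (S : Set ℕ) : ∀ᵐ β : ℝ, 0 < β → Pt (fun p => ⌊β * α ^ p + g p⌋₊) (1 / Real.log α) S := by
  have hα0 : 0 < α := by linarith
  refine ae_of_exp' (P := fun β : ℝ => Pt (fun p => ⌊β * α ^ p + g p⌋₊)
    (1 / Real.log α) S) (ae_windows fun b0 => ?_)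
  have hsys := sys_all (Real.log_pos hα) (measurable_ysh α g)
    (fun a0 a1 _ => sh_of (by linarith) hκ0 hκ hg a0 a1)
    (fun b0 => trans_shift hα hκ0 hκ hg b0) hnear b0
  refine hsys.pt (s := fun t p => ⌊Real.exp t * α ^ p + g p⌋₊) ?_ S
  filter_upwards [ae_restrict_of_ae (ae_ne hα0 g)] with t htn
  obtain ⟨P, hP⟩ := eventually_atTop.1 (pert8 hα0 hκ0 hκ hg t 8)
  refine ⟨P, fun p hp => ?_⟩
  have h1 : NN (ysh α g p t) = ⌊Real.exp t * α ^ p + g p⌋₊ :=
    NN_floor (exp_ysh hα0 (hP p hp) le_rfl).2.1 (fun j => htn p j)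
  rw [ff_one, h1]

/-- **The law under the Diophantine condition.** -/
theorem pt_dio (hα : 1 < α) (hκ0 : 0 ≤ κ) (hκ : κ < α) (hg : ∀ p, |g p| ≤ C * κ ^ p)
    (hdio : ∀ h a b : ℕ, 1 ≤ h → 1 ≤ a → 1 ≤ b → 1 ≤ |(a : ℝ) - b * α ^ h| * (a + b))
    (S : Set ℕ) : ∀ᵐ β : ℝ, 0 < β → Pt (fun p => ⌊β * α ^ p + g p⌋₊) (1 / Real.log α) S :=
  pt_floor hα hκ0 hκ hg (fun b0 => by
    obtain ⟨K, hK, P, _, hP⟩ := near_pair hα hκ0 hκ hg hdio b0
    exact ⟨K, hK, P, fun p hp q hpq _ => hP p hp q hpq⟩) S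

end Pool.Agent.X10.AI
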