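import Mathlib

set_option autoImplicit false

/-!
# The admissible primes and the recurrence
-/

namespace Pool.Agent.X10.AI

open Filter Topology

/-- `λ = 17 + 12 √2` -/
noncomputable def lam : ℝ := 17 + 12 * Real.sqrt 2

/-- `⌊β λ ^ m + B λ ^ (-m)⌋ + 5` -/
noncomputable def U (B β : ℝ) (m : ℕ) : ℕ := ⌊β * lam ^ m + B / lam ^ m⌋₊ + 5

lemma sqrt_two_sq : Real.sqrt 2 * Real.sqrt 2 = 2 := Real.mul_self_sqrt (by norm_num)

lemma lam_gt : 33 < lam := by
  unfold lam
  have h := sqrt_two_sq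
  have h0 : 0 < Real.sqrt 2 := by positivity
  nlinarith

lemma lam_pos : 0 < lam := by linarith [lam_gt]

lemma lam_inv : lam * (17 - 12 * Real.sqrt 2) = 1 := by
  unfold lam
  have h := sqrt_two_sq
  linear_combination (-144) * h

lemma inv_eq : lam⁻¹ = 17 - 12 * Real.sqrt 2 := by
  have h := lam_inv
  have h0 := lam_pos
  field_simp
  linarith

lemma lam_sq : lam ^ 2 = 34 * lam - 1 := by
  unfold lam
  linear_combination 144 * sqrt_two_sq

/-- the solutions of `d ^ 2 - 8 b ^ 2 = 1` -/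
def DB : ℕ → ℕ × ℕ
  | 0 => (1, 0)
  | m + 1 => (3 * (DB m).1 + 8 * (DB m).2, (DB m).1 + 3 * (DB m).2)

lemma DB_pell (m : ℕ) : (DB m).1 ^ 2 = 8 * (DB m).2 ^ 2 + 1 := by
  induction m with
  | zero => simp [DB]
  | succ m ih =>
    simp only [DB]
    nlinarith

lemma DB_pos (m : ℕ) : 1 ≤ (DB m).1 := by
  induction m with
  | zero => simp [DB]
  | succ m ih =>
    simp only [DB]
    omega

lemma DB_strict : StrictMono fun m => (DB m).1 := by
  refine strictMono_nat_of_lt_succ fun m => ?_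
  have := DB_pos m
  simp only [DB]
  omega

/-- descent -/
lemma DB_all (b : ℕ) : ∀ d : ℕ, d ^ 2 = 8 * b ^ 2 + 1 → ∃ m, DB m = (d, b) := by
  induction b using Nat.strong_induction_on with
  | _ b ih =>
    intro d hd
    rcases Nat.eq_zero_or_pos b with h | h
    · subst h
      refine ⟨0, ?_⟩
      have : d = 1 := by nlinarith
      rw [this]
      rfl
    · have h1 : d ≤ 3 * b := by nlinarith
      have h2 : 8 * b ≤ 3 * d := by nlinarith
      have h3 : 2 * b < d := by nlinarith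
      obtain ⟨e, he⟩ : ∃ e, 3 * b = d + e := ⟨3 * b - d, by omega⟩
      obtain ⟨f, hf⟩ : ∃ f, 3 * d = 8 * b + f := ⟨3 * d - 8 * b, by omega⟩
      have h4 : e < b := by omega
      have h5 : f ^ 2 = 8 * e ^ 2 + 1 := by
        have he' : (e : ℤ) = 3 * b - d := by
          have : (3 * b : ℤ) = d + e := by exact_mod_cast he
          linarith
        have hf' : (f : ℤ) = 3 * d - 8 * b := by
          have : (3 * d : ℤ) = 8 * b + f := by exact_mod_cast hf
          linarith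
        have hd' : (d : ℤ) ^ 2 = 8 * b ^ 2 + 1 := by exact_mod_cast hd
        have : (f : ℤ) ^ 2 = 8 * e ^ 2 + 1 := by
          rw [he', hf']
          linear_combination hd'
        exact_mod_cast this
      obtain ⟨m, hm⟩ := ih e h4 f h5
      refine ⟨m + 1, ?_⟩
      simp only [DB, hm]
      ext
      · simp only
        omega
      · simp only
        omega

lemma DB_real (m : ℕ) : ((DB m).1 : ℝ) + (DB m).2 * (2 * Real.sqrt 2) = (3 + 2 * Real.sqrt 2) ^ m ∧
    ((DB m).1 : ℝ) - (DB m).2 * (2 * Real.sqrt 2) = (3 - 2 * Real.sqrt 2) ^ m := by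
  induction m with
  | zero => simp [DB]
  | succ m ih =>
    obtain ⟨h1, h2⟩ := ih
    have hs := sqrt_two_sq
    simp only [DB]
    push_cast
    rw [pow_succ, pow_succ, ← h1, ← h2]
    constructor
    · linear_combination (-4 * ((DB m).2 : ℝ)) * hs
    · linear_combination (-4 * ((DB m).2 : ℝ)) * hs

/-- the numbers `8 d ^ 2 + 1` -/
def PV (m : ℕ) : ℕ := 8 * (DB m).1 ^ 2 + 1

lemma PV_strict : StrictMono PV := by
  intro m n h
  have h1 := DB_strict h
  simp only at h1
  unfold PV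
  nlinarith

lemma PV_real (m : ℕ) : (PV m : ℝ) = 2 * lam ^ m + 2 / lam ^ m + 5 := by
  obtain ⟨h1, h2⟩ := DB_real m
  have hs := sqrt_two_sq
  have e1 : lam ^ m = ((3 + 2 * Real.sqrt 2) ^ m) ^ 2 := by
    rw [← pow_mul, mul_comm m 2, pow_mul]
    congr 1
    unfold lam
    linear_combination (-4) * hs
  have e2 : 2 / lam ^ m = 2 * ((3 - 2 * Real.sqrt 2) ^ m) ^ 2 := by
    rw [← pow_mul, mul_comm m 2, pow_mul, div_eq_mul_inv, ← inv_pow, inv_eq]
    congr 2
    linear_combination (-4) * hs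
  have h3 : ((DB m).1 : ℝ) ^ 2 = 8 * ((DB m).2 : ℝ) ^ 2 + 1 := by exact_mod_cast DB_pell m
  rw [e2, e1, ← h1, ← h2]
  unfold PV
  push_cast
  linear_combination 4 * h3 - 16 * ((DB m).2 : ℝ) ^ 2 * hs

lemma U_two (m : ℕ) : U 2 2 m = PV m := by
  have h := PV_real m
  have e : 2 * lam ^ m + 2 / lam ^ m = ((8 * (DB m).1 ^ 2 - 4 : ℕ) : ℝ) := by
    have h1 : 4 ≤ 8 * (DB m).1 ^ 2 := by
      have := DB_pos m
      nlinarith
    rw [Nat.cast_sub h1]
    have h2 : (PV m : ℝ) = 8 * ((DB m).1 : ℝ) ^ 2 + 1 := by unfold PV; push_cast; ring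
    push_cast
    linarith
  unfold U
  rw [e, Nat.floor_natCast]
  unfold PV
  have := DB_pos m
  have h1 : 4 ≤ 8 * (DB m).1 ^ 2 := by nlinarith
  omega

/-- the admissible primes are the prime values of the sequence -/
theorem admissible_iff :
    {p : ℕ | p.Prime ∧ ∃ b d : ℤ, (p : ℤ) = 64 * b ^ 2 + 9 ∧ (p : ℤ) = 8 * d ^ 2 + 1}.Infinite ↔
      {m : ℕ | (U 2 2 m).Prime}.Infinite := by
  have e : {p : ℕ | p.Prime ∧ ∃ b d : ℤ, (p : ℤ) = 64 * b ^ 2 + 9 ∧ (p : ℤ) = 8 * d ^ 2 + 1} =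
      PV '' {m : ℕ | (U 2 2 m).Prime} := by
    ext p
    constructor
    · rintro ⟨hp, b, d, h1, h2⟩
      have h3 : d.natAbs ^ 2 = 8 * b.natAbs ^ 2 + 1 := by
        have h4 : d ^ 2 = 8 * b ^ 2 + 1 := by linarith
        have h5 : ((d.natAbs : ℤ)) ^ 2 = 8 * (b.natAbs : ℤ) ^ 2 + 1 := by
          rw [Int.natAbs_sq, Int.natAbs_sq]
          exact h4
        exact_mod_cast h5
      obtain ⟨m, hm⟩ := DB_all _ _ h3
      have h6 : PV m = p := by
        unfold PV
        rw [hm]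
        have h7 : (p : ℤ) = 8 * (d.natAbs : ℤ) ^ 2 + 1 := by
          rw [Int.natAbs_sq]
          exact h2
        have : p = 8 * d.natAbs ^ 2 + 1 := by exact_mod_cast h7
        simp only
        omega
      refine ⟨m, ?_, h6⟩
      simp only [Set.mem_ofPred_eq]
      rw [U_two, h6]
      exact hp
    · rintro ⟨m, hm, rfl⟩
      simp only [Set.mem_ofPred_eq] at hm
      rw [U_two] at hm
      refine ⟨hm, (DB m).2, (DB m).1, ?_, ?_⟩
      · have h1 : (((DB m).1 : ℤ)) ^ 2 = 8 * ((DB m).2 : ℤ) ^ 2 + 1 := by exact_mod_cast DB_pell m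
        unfold PV
        push_cast
        linarith
      · unfold PV
        push_cast
        ring
  rw [e]
  exact Set.infinite_image_iff PV_strict.injective.injOn

/-- every real solution of the recurrence -/
theorem solution (x : ℕ → ℝ) (hx : ∀ m, x (m + 2) = 34 * x (m + 1) - x m) :
    ∃ β B : ℝ, ∀ m, x m = β * lam ^ m + B / lam ^ m := by
  have h0 := lam_pos
  have hsq := lam_sq
  have hne : lam - lam⁻¹ ≠ 0 := by
    have h1 := lam_gt
    have h2 : lam⁻¹ < 1 := inv_lt_one_of_one_lt₀ (by linarith)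
    have : 0 < lam - lam⁻¹ := by linarith
    exact this.ne'
  set β := (x 1 - x 0 * lam⁻¹) / (lam - lam⁻¹) with hβ
  refine ⟨β, x 0 - β, fun m => ?_⟩
  have hβ1 : β * (lam - lam⁻¹) = x 1 - x 0 * lam⁻¹ := by
    rw [hβ, div_mul_cancel₀ _ hne]
  have hinv : lam⁻¹ ^ 2 = 34 * lam⁻¹ - 1 := by
    rw [inv_eq]
    linear_combination 144 * sqrt_two_sq
  simp only [div_eq_mul_inv, ← inv_pow]
  induction m using Nat.twoStepInduction with
  | zero => simp
  | one =>
    rw [pow_one, pow_one]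
    linarith
  | more n h1 h2 =>
    rw [hx n, h1, h2]
    have e1 : lam ^ (n + 2) = 34 * lam ^ (n + 1) - lam ^ n := by
      rw [pow_add, hsq]; ring
    have e2 : lam⁻¹ ^ (n + 2) = 34 * lam⁻¹ ^ (n + 1) - lam⁻¹ ^ n := by
      rw [pow_add, hinv]; ring
    rw [e1, e2]
    ring

end Pool.Agent.X10.AI
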