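import Mathlib
import Pool.Agent.X10.AI.Alg
import Pool.Agent.X10.AI.Space
import Pool.Agent.H19P.QA

set_option autoImplicit false

/-!
# The case of `λ = 17 + 12 √2`
-/

namespace Pool.Agent.X10.AI

open Filter Topology MeasureTheory

lemma lam_dio (h a b : ℕ) (hh : 1 ≤ h) (ha : 1 ≤ a) (hb : 1 ≤ b) :
    1 ≤ |(a : ℝ) - b * lam ^ h| * (a + b) := by
  have hs := sqrt_two_sq
  have h0 : 0 < Real.sqrt 2 := by positivity
  have h1 := Pool.Agent.H19P.dio_unit (α := 1 + Real.sqrt 2) (α' := 1 - Real.sqrt 2) (P := 2)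
    (by linarith) (by push_cast; ring) (by linear_combination -hs) (4 * h) a b (by omega) ha hb
  have e : (1 + Real.sqrt 2) ^ (4 * h) = lam ^ h := by
    rw [pow_mul]
    congr 1
    unfold lam
    linear_combination (Real.sqrt 2 * Real.sqrt 2 + 4 * Real.sqrt 2 + 8) * hs
  rw [e, one_pow, one_mul] at h1
  exact h1

/-- the perturbation -/
noncomputable def gB (B : ℝ) (m : ℕ) : ℝ := B / lam ^ m + 5

lemma one_le_lam_pow (m : ℕ) : 1 ≤ lam ^ m := one_le_pow₀ (by linarith [lam_gt])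

lemma abs_div_le (B : ℝ) (m : ℕ) : |B / lam ^ m| ≤ |B| := by
  rw [abs_div, abs_of_pos (pow_pos lam_pos m)]
  exact div_le_self (abs_nonneg _) (one_le_lam_pow m)

lemma gB_bound (B : ℝ) (m : ℕ) : |gB B m| ≤ (|B| + 5) * 1 ^ m := by
  unfold gB
  rw [one_pow, mul_one]
  refine (abs_add_le _ _).trans ?_
  have := abs_div_le B m
  rw [abs_of_pos (show (0 : ℝ) < 5 by norm_num)]
  linarith

lemma U_eq (B : ℝ) {β : ℝ} (hβ : 0 < β) : ∀ᶠ m : ℕ in atTop, ⌊β * lam ^ m + gB B m⌋₊ = U B β m := by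
  have h1 : Tendsto (fun m : ℕ => β * lam ^ m) atTop atTop :=
    (tendsto_pow_atTop_atTop_of_one_lt (by linarith [lam_gt])).const_mul_atTop hβ
  filter_upwards [h1.eventually_ge_atTop |B|] with m hm
  have h2 := abs_le.1 (abs_div_le B m)
  unfold gB U
  have h3 : 0 ≤ β * lam ^ m + B / lam ^ m := by linarith
  rw [← add_assoc]
  exact Nat.floor_add_ofNat h3 5

/-- **Spacing for the recurrence.** -/
theorem spacing_U (B : ℝ) (W : ℕ → ℕ) (hW : Summable fun m : ℕ => (W m : ℝ) / (m : ℝ) ^ 2) :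
    ∀ᵐ β : ℝ, 0 < β → ∀ᶠ m : ℕ in atTop, ∀ n : ℕ, m < n → n ≤ m + W m →
      ¬ ((U B β m).Prime ∧ (U B β n).Prime) := by
  have h := spacing (α := lam) (κ := 1) (C := |B| + 5) (g := gB B) (by linarith [lam_gt]) zero_le_one
    (by linarith [lam_gt]) (gB_bound B) (fun h a b hh ha hb => lam_dio h a b hh ha hb) W hW
  filter_upwards [h] with β hβ h0
  obtain ⟨P, hP⟩ := eventually_atTop.1 (U_eq B h0)
  filter_upwards [hβ h0, eventually_ge_atTop P] with m hm hmP n hn1 hn2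
  rw [← hP m hmP, ← hP n (by omega)]
  exact hm n hn1 hn2

end Pool.Agent.X10.AI
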