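import Mathlib
import Pool.Agent.X10.AI.Spec
import Pool.Agent.X10.AI.Asy

set_option autoImplicit false

/-!
# The law for `λ = 17 + 12 √2`
-/

namespace Pool.Agent.X10.AI

open Finset Filter Topology MeasureTheory
open Pool.Agent.H305R2 (log_nat_tendsto NN ff)
open Pool.Agent.H447R2.ML (Sh sh_of)
open Pool.Agent.TH888.R (ae_windows)
open Pool.Agent.W66X (ysh measurable_ysh trans_shift pert8 exp_ysh ae_of_exp')

/-- the law for integers that are eventually `⌊β α ^ m + g m⌋` -/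
theorem pt_ev {α κ C : ℝ} {g : ℕ → ℝ} (hα : 1 < α) (hκ0 : 0 ≤ κ) (hκ : κ < α)
    (hg : ∀ p, |g p| ≤ C * κ ^ p)
    (hnear : ∀ b0 : ℝ, ∃ K : ℝ, 0 < K ∧ ∃ P : ℕ, ∀ p ≥ P, ∀ q : ℕ, p < q → q ≤ 2 * p →
      ∫ t in Set.Ioc b0 (b0 + 1), ff 1 (ysh α g p t) * ff 1 (ysh α g q t) ≤ K * (1 / (p : ℝ)) ^ 2)
    {s : ℝ → ℕ → ℕ} (hs : ∀ β : ℝ, 0 < β → ∀ᶠ p : ℕ in atTop, ⌊β * α ^ p + g p⌋₊ = s β p)
    (S : Set ℕ) : ∀ᵐ β : ℝ, 0 < β → Pt (s β) (1 / Real.log α) S := by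
  have hα0 : 0 < α := by linarith
  refine ae_of_exp' (P := fun β : ℝ => Pt (s β) (1 / Real.log α) S) (ae_windows fun b0 => ?_)
  have hsys := sys_all (Real.log_pos hα) (measurable_ysh α g)
    (fun a0 a1 _ => sh_of (by linarith) hκ0 hκ hg a0 a1)
    (fun b0 => trans_shift hα hκ0 hκ hg b0) hnear b0
  refine hsys.pt (s := fun t p => s (Real.exp t) p) ?_ S
  filter_upwards [ae_restrict_of_ae (ae_ne hα0 g)] with t htn
  obtain ⟨P, hP⟩ := eventually_atTop.1 (pert8 hα0 hκ0 hκ hg t 8)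
  obtain ⟨P', hP'⟩ := eventually_atTop.1 (hs (Real.exp t) (Real.exp_pos t))
  refine ⟨P + P', fun p hp => ?_⟩
  have h1 : NN (ysh α g p t) = ⌊Real.exp t * α ^ p + g p⌋₊ :=
    NN_floor (exp_ysh hα0 (hP p (by omega)) le_rfl).2.1 (fun j => htn p j)
  rw [ff_one, h1, hP' p (by omega)]

/-- the law for the recurrence -/
theorem pt_U (B : ℝ) (S : Set ℕ) : ∀ᵐ β : ℝ, 0 < β → Pt (U B β) (1 / Real.log lam) S :=
  pt_ev (α := lam) (κ := 1) (C := |B| + 5) (g := gB B) (by linarith [lam_gt]) zero_le_one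
    (by linarith [lam_gt]) (gB_bound B) (fun b0 => by
      obtain ⟨K, hK, P, _, hP⟩ := near_pair (α := lam) (κ := 1) (C := |B| + 5) (g := gB B)
        (by linarith [lam_gt]) zero_le_one
        (by linarith [lam_gt]) (gB_bound B) (fun h a b hh ha hb => lam_dio h a b hh ha hb) b0
      exact ⟨K, hK, P, fun p hp q hpq _ => hP p hp q hpq⟩)
    (fun β hβ => U_eq B hβ) S

end Pool.Agent.X10.AI
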