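import Mathlib
import Pool.Agent.X10.AI.Cross
import Pool.Agent.X10.AI.SpecL

set_option autoImplicit false

/-!
# The Fibonacci recurrence
-/

namespace Pool.Agent.X10.AI.Fib

open Finset MeasureTheory Filter Topology

/-- The golden ratio. -/
noncomputable def φ : ℝ := (1 + Real.sqrt 5) / 2

/-- The conjugate of the golden ratio. -/
noncomputable def ψ : ℝ := (1 - Real.sqrt 5) / 2

lemma s5_sq : Real.sqrt 5 ^ 2 = 5 := Real.sq_sqrt (by norm_num)

lemma s5_pos : 0 < Real.sqrt 5 := Real.sqrt_pos.2 (by norm_num)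

lemma s5_lt : Real.sqrt 5 < 2.25 := by
  rw [show (2.25 : ℝ) = Real.sqrt (2.25 ^ 2) by rw [Real.sqrt_sq (by norm_num)]]
  exact Real.sqrt_lt_sqrt (by norm_num) (by norm_num)

lemma s5_gt : 2.2 < Real.sqrt 5 := by
  rw [show (2.2 : ℝ) = Real.sqrt (2.2 ^ 2) by rw [Real.sqrt_sq (by norm_num)]]
  exact Real.sqrt_lt_sqrt (by norm_num) (by norm_num)

lemma phi_sq : φ ^ 2 = φ + 1 := by unfold φ; nlinarith [s5_sq]

lemma psi_sq : ψ ^ 2 = ψ + 1 := by unfold ψ; nlinarith [s5_sq]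

lemma phi_gt : 1.6 < φ := by unfold φ; linarith [s5_gt]

lemma phi_lt : φ < 1.625 := by unfold φ; linarith [s5_lt]

lemma phi_pos : 0 < φ := by linarith [phi_gt]

lemma psi_abs : |ψ| < 1 := by
  rw [abs_lt]; unfold ψ
  constructor <;> linarith [s5_gt, s5_lt]

lemma psi_ne : ψ ≠ 0 := by unfold ψ; linarith [s5_gt]

lemma psi_pow_abs (n : ℕ) : |ψ ^ n| ≤ 1 := by
  rw [abs_pow]; exact pow_le_one₀ (abs_nonneg _) psi_abs.le

lemma irr {r s : ℤ} (h : (r : ℝ) * Real.sqrt 5 = s) : r = 0 := by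
  by_contra hr
  have h5 : Irrational (Real.sqrt 5) := by
    have := Nat.Prime.irrational_sqrt (show Nat.Prime 5 by norm_num)
    simpa using this
  refine h5 ⟨(s : ℚ) / r, ?_⟩
  have hr' : (r : ℝ) ≠ 0 := by exact_mod_cast hr
  push_cast
  rw [div_eq_iff hr', ← h]
  ring

/-- coordinates of the powers -/
lemma uv (h : ℕ) : ∃ u v : ℤ, φ ^ h = u * φ + v ∧ ψ ^ h = u * ψ + v ∧ 0 ≤ u ∧ 0 ≤ v ∧ 0 < u + v ∧
    2 * u ≠ v ∧ (h = 0 ∨ v ≤ u) := by
  induction h with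
  | zero => exact ⟨0, 1, by simp, by simp, by norm_num, by norm_num, by norm_num, by norm_num,
      Or.inl rfl⟩
  | succ h ih =>
    obtain ⟨u, v, h1, h2, hu, hv, huv, _, _⟩ := ih
    refine ⟨u + v, u, ?_, ?_, by omega, hu, by omega, by omega, Or.inr (by omega)⟩
    · rw [pow_succ, h1]; push_cast
      linear_combination (u : ℝ) * phi_sq
    · rw [pow_succ, h2]; push_cast
      linear_combination (u : ℝ) * psi_sq

/-- integer norms are at least one -/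
lemma one_le_of_int {N : ℤ} {x y : ℝ} (h : x * y = N) (hx : x ≠ 0) (hy : y ≠ 0) : 1 ≤ |x| * |y| := by
  have hN : N ≠ 0 := by
    intro h0
    rw [h0, Int.cast_zero] at h
    rcases mul_eq_zero.1 h with h | h
    · exact hx h
    · exact hy h
  rw [← abs_mul, h, ← Int.cast_abs]
  exact_mod_cast Int.one_le_abs hN

lemma dio_c (h a b : ℕ) (ha : 1 ≤ a) (hb : 1 ≤ b) :
    1 ≤ |(a : ℝ) - b * (Real.sqrt 5 / φ * φ ^ h)| * (5 * (a + b)) := by
  obtain ⟨u, v, h1, h2, hu, hv, huv, huv2, _⟩ := uv h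
  have hs := s5_sq
  have ha1 : (1 : ℝ) ≤ a := by exact_mod_cast ha
  have hb1 : (1 : ℝ) ≤ b := by exact_mod_cast hb
  have hx : Real.sqrt 5 / φ * φ ^ h = Real.sqrt 5 * (2 * u - v) / 2 + 5 * v / 2 := by
    rw [h1, div_mul_eq_mul_div, div_eq_iff phi_pos.ne']
    unfold φ
    linear_combination ((v : ℝ) / 4) * hs
  have hy : Real.sqrt 5 / ψ * ψ ^ h = -(-Real.sqrt 5 * (2 * u - v) / 2 + 5 * v / 2) := by
    rw [h2, div_mul_eq_mul_div, div_eq_iff psi_ne]
    unfold ψ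
    linear_combination (-(v : ℝ) / 4) * hs
  set x := Real.sqrt 5 / φ * φ ^ h with hxd
  set y := -Real.sqrt 5 * (2 * u - v) / 2 + 5 * v / 2 with hyd
  have hyb : |y| ≤ 5 := by
    have e : y = -(Real.sqrt 5 / ψ * ψ ^ h) := by rw [hy]; ring
    rw [e, abs_neg, abs_mul]
    have h3 : |Real.sqrt 5 / ψ| ≤ 5 := by
      rw [abs_div, abs_of_pos s5_pos, div_le_iff₀ (abs_pos.2 psi_ne)]
      have : |ψ| = (Real.sqrt 5 - 1) / 2 := by
        rw [abs_of_neg (by unfold ψ; linarith [s5_gt])]; unfold ψ; ring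
      rw [this]
      linarith [s5_gt]
    calc |Real.sqrt 5 / ψ| * |ψ ^ h| ≤ 5 * 1 := by
          refine mul_le_mul h3 (psi_pow_abs h) (abs_nonneg _) (by norm_num)
      _ = 5 := by ring
  have hN : ((a : ℝ) - b * x) * (a - b * y) =
      ((a ^ 2 - 5 * v * a * b + 5 * b ^ 2 * (v ^ 2 + u * v - u ^ 2) : ℤ) : ℝ) := by
    push_cast
    rw [hx, hyd]
    linear_combination (-(b : ℝ) ^ 2 * (2 * u - v) ^ 2 / 4) * hs
  have hxn : (a : ℝ) - b * x ≠ 0 := by
    intro h0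
    rw [hx] at h0
    have h3 : (((b : ℤ) * (2 * u - v) : ℤ) : ℝ) * Real.sqrt 5 = ((2 * a - 5 * b * v : ℤ) : ℝ) := by
      push_cast
      linarith
    have h4 := irr h3
    rcases mul_eq_zero.1 h4 with h5 | h5
    · omega
    · exact huv2 (by omega)
  have hyn : (a : ℝ) - b * y ≠ 0 := by
    intro h0
    rw [hyd] at h0
    have h3 : (((b : ℤ) * (2 * u - v) : ℤ) : ℝ) * Real.sqrt 5 = ((5 * b * v - 2 * a : ℤ) : ℝ) := by
      push_cast
      linarith
    have h4 := irr h3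
    rcases mul_eq_zero.1 h4 with h5 | h5
    · omega
    · exact huv2 (by omega)
  refine (one_le_of_int hN hxn hyn).trans (mul_le_mul_of_nonneg_left ?_ (abs_nonneg _))
  calc |(a : ℝ) - b * y| ≤ |(a : ℝ)| + |b * y| := abs_sub _ _
    _ = a + b * |y| := by rw [abs_mul, Nat.abs_cast, Nat.abs_cast]
    _ ≤ 5 * (a + b) := by nlinarith

lemma dio_d (h a b : ℕ) (ha : 1 ≤ a) (hb : 1 ≤ b) :
    1 ≤ |(a : ℝ) - b * (φ ^ 2 / Real.sqrt 5 * φ ^ h)| * (5 * (a + b)) := by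
  obtain ⟨u, v, h1, h2, hu, hv, huv, _, huv3⟩ := uv (h + 2)
  have hs := s5_sq
  have h5 := s5_pos
  have ha1 : (1 : ℝ) ≤ a := by exact_mod_cast ha
  have hb1 : (1 : ℝ) ≤ b := by exact_mod_cast hb
  have hx : φ ^ 2 / Real.sqrt 5 * φ ^ h = φ ^ (h + 2) / Real.sqrt 5 := by rw [pow_add]; ring
  rw [hx]
  set y := φ ^ (h + 2) with hyd
  set z := ψ ^ (h + 2) with hzd
  have hz1 : |z| ≤ 1 := psi_pow_abs _
  have hN : (Real.sqrt 5 * a - b * y) * (-(Real.sqrt 5 * a) - b * z) =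
      ((-5 * a ^ 2 + 5 * u * a * b + b ^ 2 * (v ^ 2 + u * v - u ^ 2) : ℤ) : ℝ) := by
    push_cast
    rw [h1, h2]
    unfold φ ψ
    linear_combination (-(a : ℝ) ^ 2 + a * b * u - b ^ 2 * u ^ 2 / 4) * hs
  have key : ∀ σ : ℤ, (σ : ℝ) * Real.sqrt 5 = ((b * (u + 2 * v) : ℤ) : ℝ) → False := by
    intro σ h0
    have h3 := irr h0
    rw [h3, Int.cast_zero, zero_mul] at h0
    have h4 : (b : ℤ) * (u + 2 * v) = 0 := by exact_mod_cast h0.symm
    rcases mul_eq_zero.1 h4 with h6 | h6 <;> omega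
  have hyn : Real.sqrt 5 * a - b * y ≠ 0 := by
    intro h0
    refine key (2 * a - b * u) ?_
    rw [h1] at h0
    unfold φ at h0
    push_cast
    linarith
  have hzn : -(Real.sqrt 5 * a) - b * z ≠ 0 := by
    intro h0
    refine key (b * u - 2 * a) ?_
    rw [h2] at h0
    unfold ψ at h0
    push_cast
    linarith
  have h6 := one_le_of_int hN hyn hzn
  have h7 : |(a : ℝ) - b * (y / Real.sqrt 5)| = |Real.sqrt 5 * a - b * y| / Real.sqrt 5 := by
    rw [← abs_of_pos h5, ← abs_div, abs_of_pos h5]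
    congr 1
    field_simp
  have h8 : |-(Real.sqrt 5 * a) - b * z| ≤ Real.sqrt 5 * a + b := by
    calc |-(Real.sqrt 5 * a) - b * z| ≤ |-(Real.sqrt 5 * a)| + |b * z| := abs_sub _ _
      _ = Real.sqrt 5 * a + b * |z| := by
        rw [abs_neg, abs_mul, abs_mul, Nat.abs_cast, Nat.abs_cast, abs_of_pos h5]
      _ ≤ _ := by nlinarith
  rw [h7]
  have h9 : 0 ≤ |Real.sqrt 5 * a - b * y| := abs_nonneg _
  have h10 : Real.sqrt 5 * a + b ≤ 5 * (a + b) / Real.sqrt 5 := by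
    rw [le_div_iff₀ h5]
    nlinarith [s5_lt, s5_gt]
  calc (1 : ℝ) ≤ |Real.sqrt 5 * a - b * y| * |-(Real.sqrt 5 * a) - b * z| := h6
    _ ≤ |Real.sqrt 5 * a - b * y| * (5 * (a + b) / Real.sqrt 5) :=
        mul_le_mul_of_nonneg_left (h8.trans h10) h9
    _ = _ := by ring

end Pool.Agent.X10.AI.Fib
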