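import Mathlib
import Pool.Agent.X10.AI.Fib

set_option autoImplicit false

/-!
# The Fibonacci recurrence: law and spacing
-/

namespace Pool.Agent.X10.AI.Fib

open Finset MeasureTheory Filter Topology
open Pool.Agent.X10.AI (Pt pt_dio spacing cross ae_scale)

/-- the real solutions of the recurrence -/
noncomputable def T (β B : ℝ) (n : ℕ) : ℝ := β * φ ^ n + B * ψ ^ n

/-- the companion sequence -/
noncomputable def T' (β B : ℝ) (n : ℕ) : ℝ := Real.sqrt 5 * (β * φ ^ n - B * ψ ^ n)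

lemma g_bound (B : ℝ) (n : ℕ) : |B * ψ ^ n| ≤ |B| * 1 ^ n := by
  rw [abs_mul, one_pow]
  exact mul_le_mul_of_nonneg_left (psi_pow_abs n) (abs_nonneg _)

lemma dio_phi (h a b : ℕ) (hh : 1 ≤ h) (ha : 1 ≤ a) (hb : 1 ≤ b) :
    1 ≤ |(a : ℝ) - b * φ ^ h| * (a + b) := by
  have h1 := Pool.Agent.H19P.dio_unit (α := φ) (α' := ψ) (P := 1)
    (by linarith [phi_gt]) (by unfold φ ψ; push_cast; ring)
    (by unfold φ ψ; linear_combination (-1 / 4 : ℝ) * s5_sq) h a b hh ha hb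
  rw [one_pow, one_mul] at h1
  exact h1

/-- the law -/
theorem law_T (B : ℝ) (S : Set ℕ) : ∀ᵐ β : ℝ, 0 < β →
    Pt (fun n => ⌊T β B n⌋₊) (1 / Real.log φ) S :=
  pt_dio (α := φ) (κ := 1) (C := |B|) (g := fun n => B * ψ ^ n) (by linarith [phi_gt]) zero_le_one
    (by linarith [phi_gt]) (g_bound B) dio_phi S

lemma sum_shift {W : ℕ → ℕ} (hW : Summable fun m : ℕ => (W m : ℝ) / (m : ℝ) ^ 2) :
    Summable fun m : ℕ => ((W m + 1 : ℕ) : ℝ) / (m : ℝ) ^ 2 := by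
  have hone : Summable fun m : ℕ => 1 / (m : ℝ) ^ 2 := Real.summable_one_div_nat_pow.2 one_lt_two
  refine (hW.add hone).congr fun m => ?_
  push_cast
  rw [add_div]

theorem space_TT (B : ℝ) (W : ℕ → ℕ) (hW : Summable fun m : ℕ => (W m : ℝ) / (m : ℝ) ^ 2) :
    ∀ᵐ β : ℝ, 0 < β → ∀ᶠ m : ℕ in atTop, ∀ n : ℕ, m < n → n ≤ m + W m →
      ¬ ((⌊T β B m⌋₊).Prime ∧ (⌊T β B n⌋₊).Prime) :=
  spacing (α := φ) (κ := 1) (C := |B|) (g := fun n => B * ψ ^ n) (by linarith [phi_gt]) zero_le_one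
    (by linarith [phi_gt]) (g_bound B) dio_phi W hW

theorem space_SS (B : ℝ) (W : ℕ → ℕ) (hW : Summable fun m : ℕ => (W m : ℝ) / (m : ℝ) ^ 2) :
    ∀ᵐ β : ℝ, 0 < β → ∀ᶠ m : ℕ in atTop, ∀ n : ℕ, m < n → n ≤ m + W m →
      ¬ ((⌊T' β B m⌋₊).Prime ∧ (⌊T' β B n⌋₊).Prime) := by
  have h := ae_scale s5_pos.ne' (space_TT (-(Real.sqrt 5 * B)) W hW)
  filter_upwards [h] with β hβ h0
  have e : ∀ n, T' β B n = T (Real.sqrt 5 * β) (-(Real.sqrt 5 * B)) n := by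
    intro n; unfold T T'; ring
  simp only [e]
  exact hβ (mul_pos s5_pos h0)

/-- `T` at `m` and `T'` at `n ≥ m - 1` -/
theorem space_TS (B : ℝ) (W : ℕ → ℕ) (hW : Summable fun m : ℕ => (W m : ℝ) / (m : ℝ) ^ 2) :
    ∀ᵐ β : ℝ, 0 < β → ∀ᶠ m : ℕ in atTop, ∀ n : ℕ, m ≤ n + 1 → n ≤ m + W m →
      ¬ ((⌊T β B m⌋₊).Prime ∧ (⌊T' β B n⌋₊).Prime) := by
  have hc : 1 ≤ Real.sqrt 5 / φ := by
    rw [le_div_iff₀ phi_pos]
    linarith [phi_lt, s5_gt]
  have h := cross (α := φ) (κ := 1) (C := |B|) (C' := |-(Real.sqrt 5 * B / ψ)|)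
    (c := Real.sqrt 5 / φ) (A := 5)
    (g := fun n => B * ψ ^ n) (g' := fun n => -(Real.sqrt 5 * B / ψ) * ψ ^ n)
    (by linarith [phi_gt]) zero_le_one (by linarith [phi_gt]) hc (by norm_num) (g_bound B)
    (g_bound _) dio_c (fun m => W m + 1) (sum_shift hW)
  filter_upwards [h] with β hβ h0
  filter_upwards [hβ h0] with m hm n hn1 hn2 hb
  refine hm (n + 1) hn1 (by show n + 1 ≤ m + (W m + 1); omega) ⟨hb.1, ?_⟩
  have e : Real.sqrt 5 / φ * (β * φ ^ (n + 1)) + -(Real.sqrt 5 * B / ψ) * ψ ^ (n + 1) =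
      T' β B n := by
    unfold T'
    rw [pow_succ, pow_succ]
    have h1 := phi_pos.ne'
    have h2 := psi_ne
    field_simp
    ring
  rw [e]
  exact hb.2

/-- `T'` at `m` and `T` at `n ≥ m + 2` -/
theorem space_ST (B : ℝ) (W : ℕ → ℕ) (hW : Summable fun m : ℕ => (W m : ℝ) / (m : ℝ) ^ 2) :
    ∀ᵐ β : ℝ, 0 < β → ∀ᶠ m : ℕ in atTop, ∀ n : ℕ, m + 2 ≤ n → n ≤ m + W m →
      ¬ ((⌊T' β B m⌋₊).Prime ∧ (⌊T β B n⌋₊).Prime) := by
  have h5 := s5_pos
  have hc : 1 ≤ φ ^ 2 / Real.sqrt 5 := by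
    rw [le_div_iff₀ h5, phi_sq]
    linarith [phi_gt, s5_lt]
  have h := cross (α := φ) (κ := 1) (C := |-(Real.sqrt 5 * B)|) (C' := |B * ψ ^ 2|)
    (c := φ ^ 2 / Real.sqrt 5) (A := 5)
    (g := fun n => -(Real.sqrt 5 * B) * ψ ^ n) (g' := fun n => B * ψ ^ 2 * ψ ^ n)
    (by linarith [phi_gt]) zero_le_one (by linarith [phi_gt]) hc (by norm_num) (g_bound _)
    (g_bound _) dio_d W hW
  filter_upwards [ae_scale s5_pos.ne' h] with β hβ h0
  filter_upwards [hβ (mul_pos s5_pos h0)] with m hm n hn1 hn2 hb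
  refine hm (n - 2) (by omega) (by omega) ⟨?_, ?_⟩
  · have e : Real.sqrt 5 * β * φ ^ m + -(Real.sqrt 5 * B) * ψ ^ m = T' β B m := by
      unfold T'; ring
    rw [e]
    exact hb.1
  · obtain ⟨k, rfl⟩ : ∃ k, n = k + 2 := ⟨n - 2, by omega⟩
    have e : φ ^ 2 / Real.sqrt 5 * (Real.sqrt 5 * β * φ ^ (k + 2 - 2)) +
        B * ψ ^ 2 * ψ ^ (k + 2 - 2) = T β B (k + 2) := by
      rw [Nat.add_sub_cancel]
      unfold T
      rw [pow_add, pow_add]
      field_simp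
    rw [e]
    exact hb.2

/-- the two sequences -/
noncomputable def X (i : Bool) (β B : ℝ) (n : ℕ) : ℕ := if i then ⌊T' β B n⌋₊ else ⌊T β B n⌋₊

/-- **Spacing of the prime values in both sequences.** -/
theorem space_all (B : ℝ) (W : ℕ → ℕ) (hW : Summable fun m : ℕ => (W m : ℝ) / (m : ℝ) ^ 2) :
    ∀ᵐ β : ℝ, 0 < β → ∀ᶠ m : ℕ in atTop, ∀ n : ℕ, m ≤ n → n ≤ m + W m → ∀ i j : Bool,
      (m, i) ≠ (n, j) → ¬ ((X i β B m).Prime ∧ (X j β B n).Prime) := by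
  filter_upwards [space_TT B W hW, space_SS B W hW, space_TS B W hW, space_ST B W hW]
    with β h1 h2 h3 h4 h0
  obtain ⟨M, hM⟩ := eventually_atTop.1 ((h1 h0).and ((h2 h0).and ((h3 h0).and (h4 h0))))
  refine eventually_atTop.2 ⟨M, fun m hm n hn1 hn2 i j hij hb => ?_⟩
  obtain ⟨k1, k2, k3, k4⟩ := hM m hm
  obtain ⟨_, _, k3', _⟩ := hM n (by omega)
  cases i <;> cases j
  · have hb' : (⌊T β B m⌋₊).Prime ∧ (⌊T β B n⌋₊).Prime := by simpa [X] using hb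
    have hmn : m ≠ n := fun h => hij (by rw [h])
    exact k1 n (by omega) hn2 hb'
  · have hb' : (⌊T β B m⌋₊).Prime ∧ (⌊T' β B n⌋₊).Prime := by simpa [X] using hb
    exact k3 n (by omega) hn2 hb'
  · have hb' : (⌊T' β B m⌋₊).Prime ∧ (⌊T β B n⌋₊).Prime := by simpa [X] using hb
    by_cases hmn : m + 2 ≤ n
    · exact k4 n hmn hn2 hb'
    · exact k3' m (by omega) (by omega) ⟨hb'.2, hb'.1⟩
  · have hb' : (⌊T' β B m⌋₊).Prime ∧ (⌊T' β B n⌋₊).Prime := by simpa [X] using hb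
    have hmn : m ≠ n := fun h => hij (by rw [h])
    exact k2 n (by omega) hn2 hb'

/-- the real solutions of the recurrence -/
theorem solution (x : ℕ → ℝ) (hx : ∀ n, x (n + 2) = x (n + 1) + x n) :
    ∃ β B : ℝ, ∀ n, x n = T β B n := by
  have h5 := s5_pos
  refine ⟨(x 1 - ψ * x 0) / Real.sqrt 5, (φ * x 0 - x 1) / Real.sqrt 5, fun n => ?_⟩
  have e : ∀ n, x n = T ((x 1 - ψ * x 0) / Real.sqrt 5) ((φ * x 0 - x 1) / Real.sqrt 5) n ∧
      x (n + 1) = T ((x 1 - ψ * x 0) / Real.sqrt 5) ((φ * x 0 - x 1) / Real.sqrt 5) (n + 1) := by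
    intro n
    induction n with
    | zero =>
      constructor
      · unfold T
        rw [pow_zero, pow_zero]
        field_simp
        unfold φ ψ
        ring
      · unfold T
        rw [zero_add, pow_one, pow_one]
        field_simp
        unfold φ ψ
        ring
    | succ n ih =>
      refine ⟨ih.2, ?_⟩
      rw [hx n, ih.1, ih.2]
      unfold T
      linear_combination (-(x 1 - ψ * x 0) / Real.sqrt 5 * φ ^ n) * phi_sq +
        (-(φ * x 0 - x 1) / Real.sqrt 5 * ψ ^ n) * psi_sq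
  exact (e n).1

theorem companion (β B : ℝ) (n : ℕ) : T' β B (n + 1) = T β B n + T β B (n + 2) := by
  have hp : φ ^ 2 + 1 = Real.sqrt 5 * φ := by
    unfold φ; nlinarith [s5_sq]
  have hq : ψ ^ 2 + 1 = -(Real.sqrt 5 * ψ) := by
    unfold ψ; nlinarith [s5_sq]
  unfold T T'
  linear_combination (-β * φ ^ n) * hp + (-B * ψ ^ n) * hq

theorem fib_eq (n : ℕ) : T (1 / Real.sqrt 5) (-(1 / Real.sqrt 5)) n = Nat.fib n := by
  have h5 := s5_pos
  have e : ∀ n, T (1 / Real.sqrt 5) (-(1 / Real.sqrt 5)) n = Nat.fib n ∧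
      T (1 / Real.sqrt 5) (-(1 / Real.sqrt 5)) (n + 1) = Nat.fib (n + 1) := by
    intro n
    induction n with
    | zero =>
      constructor
      · unfold T; simp
      · unfold T
        simp only [zero_add, pow_one, Nat.fib_one, Nat.cast_one]
        field_simp
        unfold φ ψ
        ring
    | succ n ih =>
      refine ⟨ih.2, ?_⟩
      rw [Nat.fib_add_two, Nat.cast_add, ← ih.1, ← ih.2]
      unfold T
      linear_combination (1 / Real.sqrt 5 * φ ^ n) * phi_sq - (1 / Real.sqrt 5 * ψ ^ n) * psi_sq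
  exact (e n).1

end Pool.Agent.X10.AI.Fib
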