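import Mathlib
import Pool.Agent.X10.AI.Space
import Pool.Agent.Erdos456.Iface
import Pool.Agent.Erdos456.Smooth2

set_option autoImplicit false

/-!
# Pairs of prime values in an integer base: counting
-/

namespace Pool.Agent.X10.AI

open Finset MeasureTheory Filter Topology
open Pool.Agent.Erdos456 (GG sieve_two' sum_GG_sq_le GG_mul_le GG_nonneg one_le_GG GG_mono_dvd)

lemma sumGG2 : ∃ C : ℝ, 0 < C ∧ ∀ X : ℕ, ∑ z ∈ Finset.Icc 1 X, GG z ^ 2 ≤ C * X := by
  obtain ⟨C, hC, h⟩ := sum_GG_sq_le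
  refine ⟨C, hC, fun X => ?_⟩
  have h1 : ENNReal.ofReal (∑ z ∈ Finset.Icc 1 X, GG z ^ 2) ≤ ENNReal.ofReal (C * X) := by
    rw [ENNReal.ofReal_sum_of_nonneg (fun i _ => by positivity)]
    refine le_trans ?_ (h X (Nat.cast_nonneg X))
    refine le_trans (le_of_eq ?_) (ENNReal.sum_le_tsum (Finset.Icc 1 X))
    refine Finset.sum_congr rfl fun z hz => ?_
    rw [Finset.mem_Icc] at hz
    rw [if_pos ⟨hz.1, by exact_mod_cast hz.2⟩]
  exact (ENNReal.ofReal_le_ofReal_iff (by positivity)).1 h1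

lemma GG_pow {b h : ℕ} (hb : 0 < b) (hh : h ≠ 0) : GG (b ^ h) = GG b := by
  rw [Pool.Agent.Erdos456.GG_eq_prod (pow_pos hb h), Pool.Agent.Erdos456.GG_eq_prod hb,
    Nat.primeFactors_pow b hh]

/-- the shift -/
def zz (b c h r : ℕ) : ℕ := (((1 * (r + c) : ℕ) : ℤ) - ((b ^ h * c : ℕ) : ℤ)).natAbs

/-- the number of good `k ≤ X`, for one residue -/
lemma one_res {b c : ℕ} (hb : 2 ≤ b) : ∃ C : ℝ, 0 < C ∧ ∀ h r X : ℕ, 1 ≤ h → r < b ^ h → 2 ≤ X →
    (((Finset.Icc (c + 2) X).filter
      (fun k => (k + c).Prime ∧ (b ^ h * k + (r + c)).Prime)).card : ℝ) ≤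
      C * (if zz b c h r = 0 then 0 else GG (zz b c h r) ^ 2) * X / (Real.log X) ^ 2 := by
  obtain ⟨C, hC, hs⟩ := sieve_two'
  refine ⟨C * GG b ^ 2, by have := one_le_GG (n := b) (by omega); positivity,
    fun h r X hh hr hX => ?_⟩
  have hX0 : (0 : ℝ) ≤ X := Nat.cast_nonneg X
  have hbh : 2 ≤ b ^ h := le_trans hb (by
    calc b = b ^ 1 := (pow_one b).symm
      _ ≤ b ^ h := Nat.pow_le_pow_right (by omega) hh)
  have hR0 : 0 ≤ C * GG b ^ 2 * (if zz b c h r = 0 then 0 else GG (zz b c h r) ^ 2) * X /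
      (Real.log X) ^ 2 := by
    have : (0 : ℝ) ≤ (if zz b c h r = 0 then 0 else GG (zz b c h r) ^ 2) := by
      split_ifs <;> positivity
    positivity
  have hempty : (∀ k, c + 2 ≤ k → (k + c).Prime → (b ^ h * k + (r + c)).Prime → False) →
      (((Finset.Icc (c + 2) X).filter
      (fun k => (k + c).Prime ∧ (b ^ h * k + (r + c)).Prime)).card : ℝ) = 0 := by
    intro H
    rw [Nat.cast_eq_zero, Finset.card_eq_zero, Finset.filter_eq_empty_iff]
    rintro k hk ⟨h1, h2⟩
    rw [Finset.mem_Icc] at hk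
    exact H k hk.1 h1 h2
  by_cases hz : zz b c h r = 0
  · rw [hempty ?_]
    · exact hR0
    · intro k hk _ h2
      unfold zz at hz
      rw [Int.natAbs_eq_zero, one_mul] at hz
      have e : r + c = b ^ h * c := by exact_mod_cast sub_eq_zero.1 hz
      rw [e, ← mul_add] at h2
      rcases Nat.prime_mul_iff.1 h2 with h3 | h3
      · omega
      · omega
  by_cases hcop : Nat.Coprime (b ^ h) (r + c)
  · have h1 := hs 1 c (b ^ h) (r + c) X one_pos (by omega) (Nat.coprime_one_left c) hcop (by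
      intro e
      refine hz ?_
      unfold zz
      rw [Int.natAbs_eq_zero, e, sub_self]) hX
    have e : (1 * b ^ h * (((1 * (r + c) : ℕ) : ℤ) - ((b ^ h * c : ℕ) : ℤ)).natAbs) =
        b ^ h * zz b c h r := by unfold zz; ring
    rw [e] at h1
    have hsub : (Finset.Icc (c + 2) X).filter
        (fun k => (k + c).Prime ∧ (b ^ h * k + (r + c)).Prime) ⊆
        (Finset.Icc 1 X).filter (fun n => (1 * n + c).Prime ∧ (b ^ h * n + (r + c)).Prime) := by
      intro k hk
      rw [Finset.mem_filter, Finset.mem_Icc] at hk ⊢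
      refine ⟨⟨by omega, hk.1.2⟩, ?_, hk.2.2⟩
      rw [one_mul]
      exact hk.2.1
    have h2 : (((Finset.Icc (c + 2) X).filter
        (fun k => (k + c).Prime ∧ (b ^ h * k + (r + c)).Prime)).card : ℝ) ≤
        (((Finset.Icc 1 X).filter (fun n => (1 * n + c).Prime ∧
          (b ^ h * n + (r + c)).Prime)).card : ℝ) := by
      exact_mod_cast Finset.card_le_card hsub
    refine h2.trans (h1.trans ?_)
    rw [if_neg hz]
    have h3 : GG (b ^ h * zz b c h r) ≤ GG b * GG (zz b c h r) := by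
      rw [← GG_pow (b := b) (h := h) (by omega) (by omega)]
      exact GG_mul_le _ _
    have h4 : GG (b ^ h * zz b c h r) ^ 2 ≤ (GG b * GG (zz b c h r)) ^ 2 :=
      pow_le_pow_left₀ (GG_nonneg _) h3 2
    refine div_le_div_of_nonneg_right ?_ (by positivity)
    refine mul_le_mul_of_nonneg_right ?_ hX0
    calc C * GG (b ^ h * zz b c h r) ^ 2 ≤ C * (GG b * GG (zz b c h r)) ^ 2 :=
          mul_le_mul_of_nonneg_left h4 hC.le
      _ = _ := by ring
  · rw [hempty ?_]
    · exact hR0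
    · intro k hk _ h2
      set d := Nat.gcd (b ^ h) (r + c) with hd
      have hd1 : d ≠ 1 := hcop
      have hdv : d ∣ b ^ h * k + (r + c) :=
        dvd_add ((Nat.gcd_dvd_left _ _).mul_right k) (Nat.gcd_dvd_right _ _)
      rcases (Nat.dvd_prime h2).1 hdv with h3 | h3
      · exact hd1 h3
      · have h4 : d ≤ b ^ h := Nat.le_of_dvd (by omega) (Nat.gcd_dvd_left _ _)
        have h5 : b ^ h * 2 ≤ b ^ h * k := Nat.mul_le_mul_left _ (by omega)
        omega

/-- the number of good pairs `(k, r)` -/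
lemma all_res {b c : ℕ} (hb : 2 ≤ b) : ∃ C : ℝ, 0 < C ∧ ∀ h X : ℕ, 1 ≤ h → 2 ≤ X →
    ∑ r ∈ Finset.range (b ^ h), (((Finset.Icc (c + 2) X).filter
      (fun k => (k + c).Prime ∧ (b ^ h * k + (r + c)).Prime)).card : ℝ) ≤
      C * (b : ℝ) ^ h * X / (Real.log X) ^ 2 := by
  obtain ⟨C1, hC1, h1⟩ := one_res (c := c) hb
  obtain ⟨C2, hC2, h2⟩ := sumGG2
  refine ⟨C1 * (C2 * (c + 1)), by positivity, fun h X hh hX => ?_⟩
  have hX0 : (0 : ℝ) ≤ X := Nat.cast_nonneg X
  have hsum : ∑ r ∈ Finset.range (b ^ h), (if zz b c h r = 0 then 0 else GG (zz b c h r) ^ 2) ≤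
      C2 * (c + 1) * (b : ℝ) ^ h := by
    have h3 : ∑ r ∈ Finset.range (b ^ h), (if zz b c h r = 0 then 0 else GG (zz b c h r) ^ 2) =
        ∑ r ∈ (Finset.range (b ^ h)).filter (fun r => zz b c h r ≠ 0), GG (zz b c h r) ^ 2 := by
      rw [Finset.sum_filter]
      refine Finset.sum_congr rfl fun r _ => ?_
      by_cases hz : zz b c h r = 0
      · rw [if_pos hz, if_neg (by simpa using hz)]
      · rw [if_neg hz, if_pos hz]
    rw [h3]
    have hform : ∀ r, r < b ^ h → (c = 0 ∧ zz b c h r = r) ∨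
        (1 ≤ c ∧ zz b c h r + r = (b ^ h - 1) * c) := by
      intro r hr
      rcases Nat.eq_zero_or_pos c with hc | hc
      · left
        refine ⟨hc, ?_⟩
        unfold zz
        subst hc
        simp
      · right
        refine ⟨hc, ?_⟩
        have hP : 1 ≤ b ^ h := Nat.one_le_pow _ _ (by omega)
        obtain ⟨Q, hQ⟩ : ∃ Q, b ^ h = Q + 1 := ⟨b ^ h - 1, by omega⟩
        have hrQ : r ≤ Q := by omega
        have hQc : r ≤ Q * c := hrQ.trans (Nat.le_mul_of_pos_right Q hc)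
        unfold zz
        rw [hQ, Nat.add_sub_cancel, one_mul]
        push_cast
        have e : ((r : ℤ) + c) - ((Q : ℤ) + 1) * c = -(((Q * c - r : ℕ) : ℤ)) := by
          rw [Nat.cast_sub hQc]
          push_cast
          ring
        rw [e, Int.natAbs_neg, Int.natAbs_natCast]
        omega
    have hinj : Set.InjOn (fun r => zz b c h r)
        (((Finset.range (b ^ h)).filter (fun r => zz b c h r ≠ 0) : Finset ℕ) : Set ℕ) := by
      intro r hr s hs hrs
      simp only [Finset.coe_filter, Finset.mem_range, Set.mem_ofPred_eq] at hr hs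
      have e : zz b c h r = zz b c h s := hrs
      rcases hform r hr.1 with h4 | h4 <;> rcases hform s hs.1 with h5 | h5 <;> omega
    rw [← Finset.sum_image (f := fun z => GG z ^ 2) hinj]
    have hsub : ((Finset.range (b ^ h)).filter (fun r => zz b c h r ≠ 0)).image
        (fun r => zz b c h r) ⊆ Finset.Icc 1 ((c + 1) * b ^ h) := by
      intro z hz
      rw [Finset.mem_image] at hz
      obtain ⟨r, hr, rfl⟩ := hz
      rw [Finset.mem_filter, Finset.mem_range] at hr
      rw [Finset.mem_Icc]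
      have hP : 1 ≤ b ^ h := Nat.one_le_pow _ _ (by omega)
      refine ⟨Nat.one_le_iff_ne_zero.2 hr.2, ?_⟩
      rcases hform r hr.1 with h4 | h4
      · rw [h4.2, h4.1]
        omega
      · have h6 : (b ^ h - 1) * c ≤ b ^ h * c := Nat.mul_le_mul_right _ (Nat.sub_le _ _)
        have h7 : (c + 1) * b ^ h = b ^ h * c + b ^ h := by ring
        omega
    refine (Finset.sum_le_sum_of_subset_of_nonneg hsub (fun z _ _ => by positivity)).trans ?_
    refine (h2 _).trans (le_of_eq ?_)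
    push_cast
    ring
  calc ∑ r ∈ Finset.range (b ^ h), (((Finset.Icc (c + 2) X).filter
      (fun k => (k + c).Prime ∧ (b ^ h * k + (r + c)).Prime)).card : ℝ) ≤
      ∑ r ∈ Finset.range (b ^ h),
        C1 * (if zz b c h r = 0 then 0 else GG (zz b c h r) ^ 2) * X / (Real.log X) ^ 2 :=
        Finset.sum_le_sum fun r hr => h1 h r X hh (Finset.mem_range.1 hr) hX
    _ = C1 * (∑ r ∈ Finset.range (b ^ h), (if zz b c h r = 0 then 0 else GG (zz b c h r) ^ 2)) * X /
        (Real.log X) ^ 2 := by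
        rw [Finset.mul_sum, Finset.sum_mul, Finset.sum_div]
    _ ≤ C1 * (C2 * (c + 1) * (b : ℝ) ^ h) * X / (Real.log X) ^ 2 := by
        gcongr
    _ = _ := by ring

end Pool.Agent.X10.AI
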