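import Mathlib
import Pool.Agent.X10.AI.Int1
import Pool.Agent.X10.AI.Asy

set_option autoImplicit false

/-!
# Pairs of prime values in an integer base: measure
-/

namespace Pool.Agent.X10.AI

open Finset MeasureTheory Filter Topology
open Pool.Agent.W66X (ysh measurable_ysh pert8 exp_ysh ae_of_exp')
open Pool.Agent.H305R2 (roughPart NN ff measurable_NN measurable_ff ff_nonneg ff_le_one)
open Pool.Agent.TH888.R (ae_windows)

lemma NN_add {x : ℝ} (hx : 0 < x) (c : ℕ) : NN (Real.log (x + c)) = (⌈x⌉₊ - 1) + c := by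
  unfold NN
  rw [Real.exp_log (by positivity), Nat.ceil_add_natCast hx.le]
  have : 1 ≤ ⌈x⌉₊ := Nat.one_le_ceil_iff.2 hx
  omega

/-- the places where `exp t * A` lies in `(M, M + 1]` -/
lemma volume_cell {A : ℝ} (hA : 0 < A) {M : ℕ} (hM : 0 < M) :
    volume {t : ℝ | (M : ℝ) < Real.exp t * A ∧ Real.exp t * A ≤ M + 1} ≤
      ENNReal.ofReal (1 / (M : ℝ)) := by
  have hM0 : (0 : ℝ) < M := by exact_mod_cast hM
  have hsub : {t : ℝ | (M : ℝ) < Real.exp t * A ∧ Real.exp t * A ≤ M + 1} ⊆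
      Set.Ioc (Real.log (M / A)) (Real.log ((M + 1) / A)) := by
    rintro t ⟨h1, h2⟩
    constructor
    · rw [Real.log_lt_iff_lt_exp (by positivity), div_lt_iff₀ hA]
      exact h1
    · rw [Real.le_log_iff_exp_le (by positivity), le_div_iff₀ hA]
      exact h2
  refine (measure_mono hsub).trans ?_
  rw [Real.volume_Ioc]
  refine ENNReal.ofReal_le_ofReal ?_
  rw [← Real.log_div (by positivity) (by positivity)]
  have e : ((M : ℝ) + 1) / A / (M / A) = 1 + 1 / M := by field_simp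
  rw [e]
  have h := Real.log_le_sub_one_of_pos (show (0 : ℝ) < 1 + 1 / M by positivity)
  linarith

open Classical in
/-- **Near pairs in an integer base.** -/
theorem int_pair {b : ℕ} (hb : 2 ≤ b) (c : ℕ) (b0 : ℝ) : ∃ K : ℝ, 0 < K ∧ ∃ P : ℕ, 3 ≤ P ∧
    ∀ m ≥ P, ∀ n : ℕ, m < n →
    ∫ t in Set.Ioc b0 (b0 + 1), ff 1 (ysh b (fun _ => (c : ℝ)) m t) *
      ff 1 (ysh b (fun _ => (c : ℝ)) n t) ≤ K * (1 / (m : ℝ)) ^ 2 := by
  obtain ⟨C, hC, hres⟩ := all_res (c := c) hb
  have hbr : (2 : ℝ) ≤ b := by exact_mod_cast hb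
  have hb0 : (0 : ℝ) < b := by linarith
  set L := Real.log b with hL
  have hL0 : 0 < L := Real.log_pos (by linarith)
  have hlarge : ∀ᶠ m : ℕ in atTop, 2 * (|b0| + c + 4) / L < m :=
    tendsto_natCast_atTop_atTop.eventually_gt_atTop _
  obtain ⟨P, hP⟩ := eventually_atTop.1 hlarge
  refine ⟨10 * C * (4 / L ^ 2), by positivity, P + 3, by omega, fun m hm n hmn => ?_⟩
  have hml := hP m (by omega)
  have hm3 : 3 ≤ m := by omega
  have hm0 : (0 : ℝ) < m := by
    have : (3 : ℝ) ≤ m := by exact_mod_cast hm3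
    linarith
  rw [div_lt_iff₀ hL0] at hml
  have hb0n := neg_abs_le b0
  have hc0 : (0 : ℝ) ≤ c := Nat.cast_nonneg c
  obtain ⟨h, hnh, hh⟩ : ∃ h, n = m + h ∧ 1 ≤ h := ⟨n - m, by omega, by omega⟩
  set E := Real.exp b0 * (b : ℝ) ^ m with hE
  have hbm : (b : ℝ) ^ m = Real.exp (L * m) := by
    rw [hL, mul_comm, Real.exp_nat_mul, Real.exp_log hb0]
  have hEe : E = Real.exp (b0 + L * m) := by rw [hE, hbm, Real.exp_add]
  have hlow : L * m / 2 + c + 4 ≤ b0 + L * m := by nlinarith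
  have hEbig : (c : ℝ) + 5 ≤ E := by
    rw [hEe]
    have h1 := Real.add_one_le_exp (b0 + L * m)
    have h2 : 0 ≤ L * m / 2 := by positivity
    linarith
  have hEbig2 : 2 * (c : ℝ) + 6 ≤ E := by
    rw [hEe]
    have h1 := Real.quadratic_le_exp_of_nonneg (x := b0 + L * m) (by
      have h2 : 0 ≤ L * m / 2 := by positivity
      linarith)
    have h2 : 0 ≤ L * m / 2 := by positivity
    nlinarith
  have hE0 : 0 < E := by linarith
  set X := ⌊Real.exp 1 * E⌋₊ + 2 with hX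
  have hX2 : 2 ≤ X := by omega
  have hXE : (X : ℝ) ≤ 5 * E := by
    rw [hX]
    push_cast
    have h1 := Nat.floor_le (show 0 ≤ Real.exp 1 * E by positivity)
    have h2 := Real.exp_one_lt_d9
    nlinarith
  have hXlow : E ≤ X := by
    rw [hX]
    push_cast
    have h1 := Nat.lt_floor_add_one (Real.exp 1 * E)
    have h2 : (1 : ℝ) ≤ Real.exp 1 := Real.one_le_exp (by norm_num)
    nlinarith
  have hlogX : L * m / 2 ≤ Real.log X := by
    have h1 : Real.log E ≤ Real.log X := Real.log_le_log hE0 hXlow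
    rw [hEe, Real.log_exp] at h1
    linarith
  -- the measure
  have hbnd : (0 : ℝ) ≤ 10 * C * (4 / L ^ 2) * (1 / (m : ℝ)) ^ 2 := by positivity
  set A := both (b : ℝ) (fun _ => (c : ℝ)) m n with hA
  have hbase : ∫ t in Set.Ioc b0 (b0 + 1), ff 1 (ysh b (fun _ => (c : ℝ)) m t) *
      ff 1 (ysh b (fun _ => (c : ℝ)) n t) = (volume.restrict (Set.Ioc b0 (b0 + 1))).real A := by
    simp only [ff_mul_eq]
    rw [integral_indicator_const _ (measurableSet_both (b : ℝ) _ m n), smul_eq_mul, mul_one]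
  rw [hbase, measureReal_def]
  refine ENNReal.toReal_le_of_le_ofReal hbnd ?_
  rw [Measure.restrict_apply (measurableSet_both (b : ℝ) _ m n)]
  -- covering
  set F : ℕ → Finset ℕ := fun r => ((Finset.Icc (c + 2) X).filter
      (fun k => (k + c).Prime ∧ (b ^ h * k + (r + c)).Prime)).filter (fun k => E / 2 ≤ (k : ℝ)) with hF
  have hcover : A ∩ Set.Ioc b0 (b0 + 1) ⊆ ⋃ r ∈ Finset.range (b ^ h), ⋃ k ∈ F r,
      {t : ℝ | ((b ^ h * k + r : ℕ) : ℝ) < Real.exp t * (b : ℝ) ^ n ∧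
        Real.exp t * (b : ℝ) ^ n ≤ ((b ^ h * k + r : ℕ) : ℝ) + 1} := by
    rintro t ⟨⟨p1, p2⟩, ht1, ht2⟩
    set x := Real.exp t * (b : ℝ) ^ m with hx
    have hx0 : 0 < x := by positivity
    have hxn : Real.exp t * (b : ℝ) ^ n = (b : ℝ) ^ h * x := by
      rw [hx, hnh, pow_add]; ring
    have hbh0 : (0 : ℝ) < (b : ℝ) ^ h := by positivity
    have hxE : E ≤ x := by
      rw [hE, hx]
      exact mul_le_mul_of_nonneg_right (Real.exp_le_exp.2 ht1.le) (by positivity)
    have hxE2 : x ≤ Real.exp 1 * E := by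
      have : Real.exp t ≤ Real.exp 1 * Real.exp b0 := by
        rw [← Real.exp_add]
        exact Real.exp_le_exp.2 (by linarith)
      calc x ≤ (Real.exp 1 * Real.exp b0) * (b : ℝ) ^ m :=
            mul_le_mul_of_nonneg_right this (by positivity)
        _ = _ := by rw [hE]; ring
    have e1 : NN (ysh (b : ℝ) (fun _ => (c : ℝ)) m t) = (⌈x⌉₊ - 1) + c := NN_add hx0 c
    have e2 : NN (ysh (b : ℝ) (fun _ => (c : ℝ)) n t) = (⌈(b : ℝ) ^ h * x⌉₊ - 1) + c := by
      have h1 := NN_add (x := (b : ℝ) ^ h * x) (by positivity) c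
      rw [← hxn] at h1
      rw [hxn] at h1
      rw [← h1]
      unfold ysh
      rw [hxn]
    rw [e1] at p1
    rw [e2] at p2
    set k := ⌈x⌉₊ - 1 with hk
    have hceil : 1 ≤ ⌈x⌉₊ := Nat.one_le_ceil_iff.2 hx0
    have hk1 : (k : ℝ) + 1 = ⌈x⌉₊ := by
      have : k + 1 = ⌈x⌉₊ := by omega
      exact_mod_cast this
    have hkx : (k : ℝ) < x := by
      have := Nat.ceil_lt_add_one hx0.le
      linarith
    have hxk : x ≤ k + 1 := by
      rw [hk1]; exact Nat.le_ceil x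
    set M := ⌈(b : ℝ) ^ h * x⌉₊ - 1 with hM
    have hceil2 : 1 ≤ ⌈(b : ℝ) ^ h * x⌉₊ := Nat.one_le_ceil_iff.2 (by positivity)
    have hM1 : (M : ℝ) + 1 = ⌈(b : ℝ) ^ h * x⌉₊ := by
      have : M + 1 = ⌈(b : ℝ) ^ h * x⌉₊ := by omega
      exact_mod_cast this
    have hMlow : b ^ h * k ≤ M := by
      have h1 : ((b ^ h * k : ℕ) : ℝ) < (b : ℝ) ^ h * x := by
        push_cast
        exact mul_lt_mul_of_pos_left hkx hbh0
      have h2 : b ^ h * k < ⌈(b : ℝ) ^ h * x⌉₊ := Nat.lt_ceil.2 h1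
      omega
    have hMup : M < b ^ h * k + b ^ h := by
      have h1 : (b : ℝ) ^ h * x ≤ ((b ^ h * k + b ^ h : ℕ) : ℝ) := by
        push_cast
        calc (b : ℝ) ^ h * x ≤ (b : ℝ) ^ h * (k + 1) := mul_le_mul_of_nonneg_left hxk hbh0.le
          _ = _ := by ring
      have h2 : ⌈(b : ℝ) ^ h * x⌉₊ ≤ b ^ h * k + b ^ h := Nat.ceil_le.2 h1
      omega
    obtain ⟨r, hr⟩ := Nat.exists_eq_add_of_le hMlow
    have hkE : E / 2 ≤ (k : ℝ) := by linarith
    simp only [Set.mem_iUnion]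
    refine ⟨r, Finset.mem_range.2 (by omega), k, ?_, ?_⟩
    · simp only [hF]
      rw [Finset.mem_filter, Finset.mem_filter, Finset.mem_Icc]
      refine ⟨⟨⟨?_, ?_⟩, p1, ?_⟩, hkE⟩
      · have : ((c + 2 : ℕ) : ℝ) ≤ k := by push_cast; linarith
        exact_mod_cast this
      · have h1 : (k : ℝ) < ⌊Real.exp 1 * E⌋₊ + 1 := by
          have := Nat.lt_floor_add_one (Real.exp 1 * E)
          linarith
        have h2 : k < ⌊Real.exp 1 * E⌋₊ + 1 := by exact_mod_cast h1
        omega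
      · have e : b ^ h * k + (r + c) = M + c := by omega
        rw [e]
        exact p2
    · show ((b ^ h * k + r : ℕ) : ℝ) < _ ∧ _ ≤ ((b ^ h * k + r : ℕ) : ℝ) + 1
      rw [← hr, hxn]
      constructor
      · have := Nat.ceil_lt_add_one (show 0 ≤ (b : ℝ) ^ h * x by positivity)
        linarith
      · rw [hM1]; exact Nat.le_ceil _
  refine (measure_mono hcover).trans ?_
  have hbh1 : (0 : ℝ) < (b : ℝ) ^ h := by positivity
  set w := 2 / ((b : ℝ) ^ h * E) with hw
  have hw0 : 0 ≤ w := by positivity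
  have hcell : ∀ r ∈ Finset.range (b ^ h), ∀ k ∈ F r,
      volume {t : ℝ | ((b ^ h * k + r : ℕ) : ℝ) < Real.exp t * (b : ℝ) ^ n ∧
        Real.exp t * (b : ℝ) ^ n ≤ ((b ^ h * k + r : ℕ) : ℝ) + 1} ≤ ENNReal.ofReal w := by
    intro r _ k hk
    simp only [hF] at hk
    rw [Finset.mem_filter, Finset.mem_filter, Finset.mem_Icc] at hk
    have hbh : 1 ≤ b ^ h := Nat.one_le_pow _ _ (by omega)
    have hk2 : 1 ≤ b ^ h * k := Nat.one_le_iff_ne_zero.2 (Nat.mul_ne_zero (by omega) (by omega))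
    refine (volume_cell (pow_pos hb0 n) (M := b ^ h * k + r) (by omega)).trans ?_
    refine ENNReal.ofReal_le_ofReal ?_
    rw [hw]
    push_cast
    have hk0 : 0 < E / 2 := by positivity
    have hkk : E / 2 ≤ (k : ℝ) := hk.2
    calc 1 / ((b : ℝ) ^ h * k + r) ≤ 1 / ((b : ℝ) ^ h * (E / 2)) := by
          apply one_div_le_one_div_of_le (by positivity)
          have h1 : (b : ℝ) ^ h * (E / 2) ≤ (b : ℝ) ^ h * k :=
            mul_le_mul_of_nonneg_left hkk hbh1.le
          have h2 : (0 : ℝ) ≤ r := Nat.cast_nonneg r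
          linarith
      _ = _ := by field_simp
  have hsum : volume (⋃ r ∈ Finset.range (b ^ h), ⋃ k ∈ F r,
      {t : ℝ | ((b ^ h * k + r : ℕ) : ℝ) < Real.exp t * (b : ℝ) ^ n ∧
        Real.exp t * (b : ℝ) ^ n ≤ ((b ^ h * k + r : ℕ) : ℝ) + 1}) ≤
      ∑ r ∈ Finset.range (b ^ h), ∑ k ∈ F r, ENNReal.ofReal w := by
    refine (measure_biUnion_finset_le _ _).trans (Finset.sum_le_sum fun r hr => ?_)
    refine (measure_biUnion_finset_le _ _).trans (Finset.sum_le_sum fun k hk => ?_)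
    exact hcell r hr k hk
  refine hsum.trans ?_
  have e3 : ∑ r ∈ Finset.range (b ^ h), ∑ k ∈ F r, ENNReal.ofReal w =
      ENNReal.ofReal (∑ r ∈ Finset.range (b ^ h), ((F r).card : ℝ) * w) := by
    rw [ENNReal.ofReal_sum_of_nonneg (fun r _ => by positivity)]
    refine Finset.sum_congr rfl fun r _ => ?_
    rw [Finset.sum_const, nsmul_eq_mul, ENNReal.ofReal_mul (Nat.cast_nonneg _),
      ENNReal.ofReal_natCast]
  rw [e3]
  refine ENNReal.ofReal_le_ofReal ?_
  have hle : ∑ r ∈ Finset.range (b ^ h), ((F r).card : ℝ) ≤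
      C * (b : ℝ) ^ h * X / (Real.log X) ^ 2 := by
    refine (Finset.sum_le_sum fun r _ => ?_).trans (hres h X hh hX2)
    exact_mod_cast Finset.card_le_card (Finset.filter_subset _ _)
  have hLm : 0 < L * m / 2 := by positivity
  rw [← Finset.sum_mul]
  calc (∑ r ∈ Finset.range (b ^ h), ((F r).card : ℝ)) * w ≤
        (C * (b : ℝ) ^ h * X / (Real.log X) ^ 2) * w := mul_le_mul_of_nonneg_right hle hw0
    _ ≤ (C * (b : ℝ) ^ h * (5 * E) / (L * m / 2) ^ 2) * w := by
        refine mul_le_mul_of_nonneg_right ?_ hw0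
        have h1 : (L * m / 2) ^ 2 ≤ (Real.log X) ^ 2 := pow_le_pow_left₀ hLm.le hlogX 2
        have h2 : C * (b : ℝ) ^ h * X ≤ C * (b : ℝ) ^ h * (5 * E) :=
          mul_le_mul_of_nonneg_left hXE (by positivity)
        exact div_le_div₀ (by positivity) h2 (by positivity) h1
    _ = _ := by
        rw [hw]
        field_simp
        ring

end Pool.Agent.X10.AI
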