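import Mathlib
import Pool.Agent.X10.AI.Int2

set_option autoImplicit false

/-!
# Prime values of `⌊β b ^ m⌋ + c`: law and spacing
-/

namespace Pool.Agent.X10.AI

open Finset MeasureTheory Filter Topology
open Pool.Agent.W66X (ysh measurable_ysh pert8 exp_ysh ae_of_exp')
open Pool.Agent.H305R2 (roughPart NN ff measurable_NN measurable_ff ff_nonneg ff_le_one)
open Pool.Agent.TH888.R (ae_windows)

/-- **Spacing from a bound for the pairs.** -/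
theorem spacing_near {α κ C : ℝ} (hα : 1 < α) (hκ0 : 0 ≤ κ) (hκ : κ < α) {g : ℕ → ℝ}
    (hg : ∀ p, |g p| ≤ C * κ ^ p)
    (hnear : ∀ b0 : ℝ, ∃ K : ℝ, 0 < K ∧ ∃ P : ℕ, 3 ≤ P ∧ ∀ m ≥ P, ∀ n : ℕ, m < n →
      ∫ t in Set.Ioc b0 (b0 + 1), ff 1 (ysh α g m t) * ff 1 (ysh α g n t) ≤ K * (1 / (m : ℝ)) ^ 2)
    (W : ℕ → ℕ) (hW : Summable fun m : ℕ => (W m : ℝ) / (m : ℝ) ^ 2) :
    ∀ᵐ β : ℝ, 0 < β → ∀ᶠ m : ℕ in atTop, ∀ n : ℕ, m < n → n ≤ m + W m →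
      ¬ ((⌊β * α ^ m + g m⌋₊).Prime ∧ (⌊β * α ^ n + g n⌋₊).Prime) := by
  have hα0 : 0 < α := by linarith
  refine ae_of_exp' (P := fun β : ℝ => ∀ᶠ m : ℕ in atTop, ∀ n : ℕ, m < n → n ≤ m + W m →
      ¬ ((⌊β * α ^ m + g m⌋₊).Prime ∧ (⌊β * α ^ n + g n⌋₊).Prime)) (ae_windows fun b0 => ?_)
  obtain ⟨K, hK, P, hP3, hP⟩ := hnear b0
  set μ := volume.restrict (Set.Ioc b0 (b0 + 1)) with hμ
  set A : ℕ → Set ℝ := fun m => if P ≤ m then ⋃ n ∈ Finset.Ioc m (m + W m), both α g m n else ∅ with hA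
  have hle : ∀ m, μ (A m) ≤ ENNReal.ofReal (K * ((W m : ℝ) / (m : ℝ) ^ 2)) := by
    intro m
    simp only [hA]
    split_ifs with hm
    · refine (measure_biUnion_finset_le _ _).trans ?_
      have h1 : ∀ n ∈ Finset.Ioc m (m + W m), μ (both α g m n) ≤
          ENNReal.ofReal (K * (1 / (m : ℝ)) ^ 2) := by
        intro n hn
        rw [Finset.mem_Ioc] at hn
        exact measure_both (by positivity) (hP m hm n hn.1)
      refine (Finset.sum_le_sum h1).trans ?_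
      rw [Finset.sum_const, Nat.card_Ioc, Nat.add_sub_cancel_left, nsmul_eq_mul]
      have h2 : ((W m : ℕ) : ENNReal) = ENNReal.ofReal (W m : ℝ) := (ENNReal.ofReal_natCast _).symm
      rw [h2, ← ENNReal.ofReal_mul (Nat.cast_nonneg _)]
      refine ENNReal.ofReal_le_ofReal (le_of_eq ?_)
      ring
    · simp
  have hsum : (∑' m, μ (A m)) ≠ ⊤ := by
    refine ne_top_of_le_ne_top ?_ (ENNReal.tsum_le_tsum hle)
    exact (hW.mul_left K).tsum_ofReal_ne_top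
  filter_upwards [ae_eventually_notMem hsum, ae_restrict_of_ae (ae_ne hα0 g)] with t ht htn
  obtain ⟨P1, hP1⟩ := eventually_atTop.1 (pert8 hα0 hκ0 hκ hg t 8)
  filter_upwards [ht, eventually_ge_atTop (P + P1)] with m hm hmP n hn1 hn2 hb
  refine hm ?_
  simp only [hA]
  rw [if_pos (show P ≤ m by omega)]
  simp only [Set.mem_iUnion, Finset.mem_Ioc]
  refine ⟨n, ⟨hn1, hn2⟩, ?_⟩
  have h1 : ∀ k, P1 ≤ k → NN (ysh α g k t) = ⌊Real.exp t * α ^ k + g k⌋₊ := fun k hk =>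
    NN_floor (exp_ysh hα0 (hP1 k hk) le_rfl).2.1 (fun j => htn k j)
  show (NN (ysh α g m t)).Prime ∧ (NN (ysh α g n t)).Prime
  rw [h1 m (by omega), h1 n (by omega)]
  exact hb

lemma cbound (c : ℕ) (p : ℕ) : |((fun _ : ℕ => (c : ℝ)) p)| ≤ (c : ℝ) * 1 ^ p := by
  simp

lemma floor_c {b : ℕ} (c : ℕ) {β : ℝ} (hβ : 0 < β) (p : ℕ) :
    ⌊β * (b : ℝ) ^ p + (fun _ : ℕ => (c : ℝ)) p⌋₊ = ⌊β * (b : ℝ) ^ p⌋₊ + c := by
  exact Nat.floor_add_natCast (by positivity) c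

/-- **The law in an integer base, all indices.** -/
theorem law_int {b : ℕ} (hb : 2 ≤ b) (c : ℕ) (S : Set ℕ) : ∀ᵐ β : ℝ, 0 < β →
    Pt (fun p => ⌊β * (b : ℝ) ^ p⌋₊ + c) (1 / Real.log b) S := by
  have hbr : (2 : ℝ) ≤ b := by exact_mod_cast hb
  have h := pt_floor (α := (b : ℝ)) (κ := 1) (C := c) (g := fun _ => (c : ℝ)) (by linarith)
    zero_le_one (by linarith) (cbound c) (fun b0 => by
      obtain ⟨K, hK, P, _, hP⟩ := int_pair hb c b0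
      exact ⟨K, hK, P, fun p hp q hpq _ => hP p hp q hpq⟩) S
  filter_upwards [h] with β hβ h0
  have := hβ h0
  simp only [Nat.floor_add_natCast (show 0 ≤ β * (b : ℝ) ^ _ by positivity)] at this
  exact this

/-- **Spacing in an integer base.** -/
theorem spacing_int {b : ℕ} (hb : 2 ≤ b) (c : ℕ) (W : ℕ → ℕ)
    (hW : Summable fun m : ℕ => (W m : ℝ) / (m : ℝ) ^ 2) :
    ∀ᵐ β : ℝ, 0 < β → ∀ᶠ m : ℕ in atTop, ∀ n : ℕ, m < n → n ≤ m + W m →
      ¬ ((⌊β * (b : ℝ) ^ m⌋₊ + c).Prime ∧ (⌊β * (b : ℝ) ^ n⌋₊ + c).Prime) := by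
  have hbr : (2 : ℝ) ≤ b := by exact_mod_cast hb
  have h := spacing_near (α := (b : ℝ)) (κ := 1) (C := c) (g := fun _ => (c : ℝ)) (by linarith)
    zero_le_one (by linarith) (cbound c) (fun b0 => int_pair hb c b0) W hW
  filter_upwards [h] with β hβ h0
  filter_upwards [hβ h0] with m hm n hn1 hn2 hb'
  refine hm n hn1 hn2 ?_
  rw [floor_c c h0, floor_c c h0]
  exact hb'

end Pool.Agent.X10.AI
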