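import Mathlib
import Pool.Agent.X10.AI.Int1

set_option autoImplicit false

/-!
# Pairs of prime values in an integer base with two shifts: counting
-/

namespace Pool.Agent.X10.AI

open Finset MeasureTheory Filter Topology
open Pool.Agent.Erdos456 (GG sieve_two' GG_mul_le GG_nonneg one_le_GG)

/-- the shift -/
def zc (b c c' h r : ℕ) : ℕ := (((1 * (r + c') : ℕ) : ℤ) - ((b ^ h * c : ℕ) : ℤ)).natAbs

lemma GG_pow_le {b : ℕ} (hb : 0 < b) (h : ℕ) : GG (b ^ h) ≤ GG b := by
  rcases Nat.eq_zero_or_pos h with rfl | hh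
  · rw [pow_zero]
    have e : GG 1 = 1 := by unfold Pool.Agent.Erdos456.GG; simp
    rw [e]
    exact one_le_GG hb
  · rw [GG_pow hb (by omega)]

/-- the number of good `k ≤ X`, for one residue -/
lemma one_resC {b c c' : ℕ} (hb : 2 ≤ b) : ∃ C : ℝ, 0 < C ∧ ∀ h r X : ℕ, (h = 0 → c ≠ c') →
    r < b ^ h → 2 ≤ X →
    (((Finset.Icc (c + c' + 2) X).filter
      (fun k => (k + c).Prime ∧ (b ^ h * k + (r + c')).Prime)).card : ℝ) ≤
      C * (if zc b c c' h r = 0 then 0 else GG (zc b c c' h r) ^ 2) * X / (Real.log X) ^ 2 := by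
  obtain ⟨C, hC, hs⟩ := sieve_two'
  refine ⟨C * GG b ^ 2, by have := one_le_GG (n := b) (by omega); positivity,
    fun h r X hh hr hX => ?_⟩
  have hX0 : (0 : ℝ) ≤ X := Nat.cast_nonneg X
  have hR0 : 0 ≤ C * GG b ^ 2 * (if zc b c c' h r = 0 then 0 else GG (zc b c c' h r) ^ 2) * X /
      (Real.log X) ^ 2 := by
    have : (0 : ℝ) ≤ (if zc b c c' h r = 0 then 0 else GG (zc b c c' h r) ^ 2) := by
      split_ifs <;> positivity
    positivity
  have hempty : (∀ k, c + c' + 2 ≤ k → (k + c).Prime → (b ^ h * k + (r + c')).Prime → False) →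
      (((Finset.Icc (c + c' + 2) X).filter
      (fun k => (k + c).Prime ∧ (b ^ h * k + (r + c')).Prime)).card : ℝ) = 0 := by
    intro H
    rw [Nat.cast_eq_zero, Finset.card_eq_zero, Finset.filter_eq_empty_iff]
    rintro k hk ⟨h1, h2⟩
    rw [Finset.mem_Icc] at hk
    exact H k hk.1 h1 h2
  by_cases hz : zc b c c' h r = 0
  · rw [hempty ?_]
    · exact hR0
    · intro k hk _ h2
      unfold zc at hz
      rw [Int.natAbs_eq_zero, one_mul] at hz
      have e : r + c' = b ^ h * c := by exact_mod_cast sub_eq_zero.1 hz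
      rcases Nat.eq_zero_or_pos h with h0 | h0
      · subst h0
        rw [pow_zero] at hr e
        exact hh rfl (by omega)
      · have hbh : 2 ≤ b ^ h := le_trans hb (by
          calc b = b ^ 1 := (pow_one b).symm
            _ ≤ b ^ h := Nat.pow_le_pow_right (by omega) h0)
        rw [e, ← mul_add] at h2
        rcases Nat.prime_mul_iff.1 h2 with h3 | h3
        · omega
        · omega
  by_cases hcop : Nat.Coprime (b ^ h) (r + c')
  · have h1 := hs 1 c (b ^ h) (r + c') X one_pos (pow_pos (by omega) h) (Nat.coprime_one_left c)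
      hcop (by
      intro e
      refine hz ?_
      unfold zc
      rw [Int.natAbs_eq_zero, e, sub_self]) hX
    have e : (1 * b ^ h * (((1 * (r + c') : ℕ) : ℤ) - ((b ^ h * c : ℕ) : ℤ)).natAbs) =
        b ^ h * zc b c c' h r := by unfold zc; ring
    rw [e] at h1
    have hsub : (Finset.Icc (c + c' + 2) X).filter
        (fun k => (k + c).Prime ∧ (b ^ h * k + (r + c')).Prime) ⊆
        (Finset.Icc 1 X).filter (fun n => (1 * n + c).Prime ∧ (b ^ h * n + (r + c')).Prime) := by
      intro k hk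
      rw [Finset.mem_filter, Finset.mem_Icc] at hk ⊢
      refine ⟨⟨by omega, hk.1.2⟩, ?_, hk.2.2⟩
      rw [one_mul]
      exact hk.2.1
    have h2 : (((Finset.Icc (c + c' + 2) X).filter
        (fun k => (k + c).Prime ∧ (b ^ h * k + (r + c')).Prime)).card : ℝ) ≤
        (((Finset.Icc 1 X).filter (fun n => (1 * n + c).Prime ∧
          (b ^ h * n + (r + c')).Prime)).card : ℝ) := by
      exact_mod_cast Finset.card_le_card hsub
    refine h2.trans (h1.trans ?_)
    rw [if_neg hz]
    have h3 : GG (b ^ h * zc b c c' h r) ≤ GG b * GG (zc b c c' h r) :=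
      (GG_mul_le _ _).trans (mul_le_mul_of_nonneg_right (GG_pow_le (by omega) h) (GG_nonneg _))
    have h4 : GG (b ^ h * zc b c c' h r) ^ 2 ≤ (GG b * GG (zc b c c' h r)) ^ 2 :=
      pow_le_pow_left₀ (GG_nonneg _) h3 2
    refine div_le_div_of_nonneg_right ?_ (by positivity)
    refine mul_le_mul_of_nonneg_right ?_ hX0
    calc C * GG (b ^ h * zc b c c' h r) ^ 2 ≤ C * (GG b * GG (zc b c c' h r)) ^ 2 :=
          mul_le_mul_of_nonneg_left h4 hC.le
      _ = _ := by ring
  · rw [hempty ?_]
    · exact hR0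
    · intro k hk _ h2
      set d := Nat.gcd (b ^ h) (r + c') with hd
      have hd1 : d ≠ 1 := hcop
      have hdv : d ∣ b ^ h * k + (r + c') :=
        dvd_add ((Nat.gcd_dvd_left _ _).mul_right k) (Nat.gcd_dvd_right _ _)
      have hP : 0 < b ^ h := pow_pos (by omega) h
      rcases (Nat.dvd_prime h2).1 hdv with h3 | h3
      · exact hd1 h3
      · have h4 : d ≤ b ^ h := Nat.le_of_dvd hP (Nat.gcd_dvd_left _ _)
        have h5 : b ^ h * 2 ≤ b ^ h * k := Nat.mul_le_mul_left _ (by omega)
        omega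

/-- the number of good pairs `(k, r)` -/
lemma all_resC {b : ℕ} (c c' : ℕ) (hb : 2 ≤ b) : ∃ C : ℝ, 0 < C ∧ ∀ h X : ℕ,
    (h = 0 → c ≠ c') → 2 ≤ X →
    ∑ r ∈ Finset.range (b ^ h), (((Finset.Icc (c + c' + 2) X).filter
      (fun k => (k + c).Prime ∧ (b ^ h * k + (r + c')).Prime)).card : ℝ) ≤
      C * (b : ℝ) ^ h * X / (Real.log X) ^ 2 := by
  obtain ⟨C1, hC1, h1⟩ := one_resC (c := c) (c' := c') hb
  obtain ⟨C2, hC2, h2⟩ := sumGG2
  refine ⟨C1 * (2 * (C2 * (c + c' + 1))), by positivity, fun h X hh hX => ?_⟩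
  have hX0 : (0 : ℝ) ≤ X := Nat.cast_nonneg X
  set Z := zc b c c' h with hZ
  have hzle : ∀ r, r < b ^ h → Z r ≤ (c + c' + 1) * b ^ h := by
    intro r hr
    have hP : 0 < b ^ h := pow_pos (by omega) h
    have h3 : Z r ≤ (r + c') + b ^ h * c := by
      rw [hZ]
      unfold zc
      rw [one_mul]
      omega
    have h4 : c' ≤ c' * b ^ h := Nat.le_mul_of_pos_right c' hP
    have h5 : (c + c' + 1) * b ^ h = b ^ h * c + c' * b ^ h + b ^ h := by ring
    omega
  have hpart : ∀ T : Finset ℕ, T ⊆ Finset.range (b ^ h) → (∀ r ∈ T, Z r ≠ 0) →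
      Set.InjOn Z (T : Set ℕ) → ∑ r ∈ T, GG (Z r) ^ 2 ≤ C2 * (c + c' + 1) * (b : ℝ) ^ h := by
    intro T hT hT0 hinj
    rw [← Finset.sum_image (f := fun z => GG z ^ 2) hinj]
    have hsub : T.image Z ⊆ Finset.Icc 1 ((c + c' + 1) * b ^ h) := by
      intro z hz
      rw [Finset.mem_image] at hz
      obtain ⟨r, hr, rfl⟩ := hz
      rw [Finset.mem_Icc]
      exact ⟨Nat.one_le_iff_ne_zero.2 (hT0 r hr), hzle r (Finset.mem_range.1 (hT hr))⟩
    refine (Finset.sum_le_sum_of_subset_of_nonneg hsub (fun z _ _ => by positivity)).trans ?_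
    refine (h2 _).trans (le_of_eq ?_)
    push_cast
    ring
  have hsum : ∑ r ∈ Finset.range (b ^ h), (if Z r = 0 then 0 else GG (Z r) ^ 2) ≤
      2 * (C2 * (c + c' + 1)) * (b : ℝ) ^ h := by
    have h3 : ∑ r ∈ Finset.range (b ^ h), (if Z r = 0 then 0 else GG (Z r) ^ 2) =
        ∑ r ∈ (Finset.range (b ^ h)).filter (fun r => b ^ h * c < r + c'), GG (Z r) ^ 2 +
        ∑ r ∈ (Finset.range (b ^ h)).filter (fun r => r + c' < b ^ h * c), GG (Z r) ^ 2 := by
      rw [Finset.sum_filter, Finset.sum_filter, ← Finset.sum_add_distrib]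
      refine Finset.sum_congr rfl fun r _ => ?_
      have hz : Z r = 0 ↔ r + c' = b ^ h * c := by
        rw [hZ]
        unfold zc
        rw [one_mul]
        omega
      rcases lt_trichotomy (b ^ h * c) (r + c') with h4 | h4 | h4
      · rw [if_neg (by rw [hz]; omega), if_pos h4, if_neg (by omega), add_zero]
      · rw [if_pos (hz.2 h4.symm), if_neg (by omega), if_neg (by omega), add_zero]
      · rw [if_neg (by rw [hz]; omega), if_neg (by omega), if_pos h4, zero_add]
    rw [h3]
    have h4 := hpart ((Finset.range (b ^ h)).filter (fun r => b ^ h * c < r + c'))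
      (Finset.filter_subset _ _) (by
        intro r hr
        rw [Finset.mem_filter] at hr
        rw [hZ]
        unfold zc
        rw [one_mul]
        omega) (by
        intro r hr s hs hrs
        simp only [Finset.coe_filter, Set.mem_ofPred_eq, hZ] at hr hs hrs
        unfold zc at hrs
        rw [one_mul, one_mul] at hrs
        omega)
    have h5 := hpart ((Finset.range (b ^ h)).filter (fun r => r + c' < b ^ h * c))
      (Finset.filter_subset _ _) (by
        intro r hr
        rw [Finset.mem_filter] at hr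
        rw [hZ]
        unfold zc
        rw [one_mul]
        omega) (by
        intro r hr s hs hrs
        simp only [Finset.coe_filter, Set.mem_ofPred_eq, hZ] at hr hs hrs
        unfold zc at hrs
        rw [one_mul, one_mul] at hrs
        omega)
    linarith
  calc ∑ r ∈ Finset.range (b ^ h), (((Finset.Icc (c + c' + 2) X).filter
      (fun k => (k + c).Prime ∧ (b ^ h * k + (r + c')).Prime)).card : ℝ) ≤
      ∑ r ∈ Finset.range (b ^ h),
        C1 * (if Z r = 0 then 0 else GG (Z r) ^ 2) * X / (Real.log X) ^ 2 :=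
        Finset.sum_le_sum fun r hr => h1 h r X hh (Finset.mem_range.1 hr) hX
    _ = C1 * (∑ r ∈ Finset.range (b ^ h), (if Z r = 0 then 0 else GG (Z r) ^ 2)) * X /
        (Real.log X) ^ 2 := by
        rw [Finset.mul_sum, Finset.sum_mul, Finset.sum_div]
    _ ≤ C1 * (2 * (C2 * (c + c' + 1)) * (b : ℝ) ^ h) * X / (Real.log X) ^ 2 := by
        gcongr
    _ = _ := by ring

end Pool.Agent.X10.AI
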