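import Mathlib
import Pool.Agent.X10.AI.IntC1
import Pool.Agent.X29.UT.Tot

set_option autoImplicit false

/-!
# The mean of `(n / φ(n)) ^ 2` over short intervals
-/

namespace Pool.Agent.X10.AI

open Finset
open Pool.Agent.Erdos456 (GG GG_eq_prod factor_ge_one GG_nonneg one_le_GG)

/-- the weight -/
noncomputable def f5 (p : ℕ) : ℝ := 5 / Real.sqrt p

lemma f5_nonneg (p : ℕ) : 0 ≤ f5 p := by unfold f5; positivity

lemma factor_sq {p : ℕ} (hp : 2 ≤ p) : ((1 - (p : ℝ)⁻¹)⁻¹) ^ 2 ≤ 1 + f5 p := by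
  have hp' : (2 : ℝ) ≤ p := by exact_mod_cast hp
  unfold f5
  obtain ⟨s, hs⟩ : ∃ s, s = Real.sqrt p := ⟨_, rfl⟩
  have hss : s * s = p := by rw [hs]; exact Real.mul_self_sqrt (by linarith)
  have hs0 : 0 ≤ s := by rw [hs]; positivity
  have hs1 : 0 < s := by
    rcases hs0.eq_or_lt with h | h
    · rw [← h] at hss
      linarith
    · exact h
  rw [← hs, ← hss]
  have h2 : 2 ≤ s * s := by rw [hss]; exact hp'
  have h3 : 0 < s * s - 1 := by linarith
  have e : (1 - (s * s)⁻¹)⁻¹ = (s * s) / (s * s - 1) := by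
    have h4 : s * s ≠ 0 := by positivity
    field_simp
  rw [e, div_pow, show 1 + 5 / s = (s + 5) / s by field_simp,
    div_le_div_iff₀ (by positivity) hs1]
  have key : 0 ≤ (s * s - 2) * (5 * (s * s) - 2 * s) + (5 - 3 * s) := by
    have h1 : 1 ≤ s := by nlinarith
    rcases le_or_gt s (5 / 3) with h4 | h4
    · have h5 : 0 ≤ 5 * (s * s) - 2 * s := by nlinarith
      have := mul_nonneg (by linarith : 0 ≤ s * s - 2) h5
      linarith
    · have h5 : 7 / 9 ≤ s * s - 2 := by nlinarith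
      have h6 : 6 * s ≤ 5 * (s * s) - 2 * s := by nlinarith
      have := mul_le_mul h5 h6 (by linarith) (by linarith)
      linarith
  nlinarith

lemma factor_tail {p y : ℕ} (hy : 1 ≤ y) (hp : y < p) :
    ((1 - (p : ℝ)⁻¹)⁻¹) ^ 2 ≤ Real.exp (4 / y) := by
  have hp' : (2 : ℝ) ≤ p := by exact_mod_cast (by omega : 2 ≤ p)
  have hy0 : (0 : ℝ) < y := by exact_mod_cast hy
  have hyp : (y : ℝ) ≤ p - 1 := by
    have : (y : ℝ) + 1 ≤ p := by exact_mod_cast hp
    linarith
  have h1 : (1 - (p : ℝ)⁻¹)⁻¹ = 1 / ((p : ℝ) - 1) + 1 := by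
    have : (p : ℝ) - 1 ≠ 0 := by linarith
    field_simp
    ring
  have h2 : (1 - (p : ℝ)⁻¹)⁻¹ ≤ Real.exp (1 / y) := by
    rw [h1]
    refine (Real.add_one_le_exp _).trans (Real.exp_le_exp.2 ?_)
    exact one_div_le_one_div_of_le hy0 hyp
  have h3 : 0 ≤ (1 - (p : ℝ)⁻¹)⁻¹ := by
    rw [h1]
    have : 0 < (p : ℝ) - 1 := by linarith
    positivity
  calc ((1 - (p : ℝ)⁻¹)⁻¹) ^ 2 ≤ Real.exp (1 / y) ^ 2 := pow_le_pow_left₀ h3 h2 2
    _ = Real.exp (2 / y) := by
        rw [← Real.exp_nat_mul]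
        congr 1
        push_cast
        ring
    _ ≤ _ := by
        apply Real.exp_le_exp.2
        exact div_le_div_of_nonneg_right (by norm_num) hy0.le

/-- the primes up to `y` -/
def pri (y : ℕ) : Finset ℕ := (Finset.Icc 1 y).filter Nat.Prime

lemma GG_sq_prod {z y : ℕ} (hz : 0 < z) (hy : 1 ≤ y) (hzy : Real.log z ≤ y) :
    GG z ^ 2 ≤ Real.exp 6 * ∏ p ∈ (pri y).filter (fun p => p ∣ z), (1 + f5 p) := by
  rw [GG_eq_prod hz, ← Finset.prod_pow,
    ← Finset.prod_filter_mul_prod_filter_not z.primeFactors (fun p => p ≤ y), mul_comm]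
  have hy0 : (0 : ℝ) < y := by exact_mod_cast hy
  have h1 : ∏ p ∈ z.primeFactors.filter (fun p => ¬ p ≤ y), ((1 - (p : ℝ)⁻¹)⁻¹) ^ 2 ≤
      Real.exp 6 := by
    calc ∏ p ∈ z.primeFactors.filter (fun p => ¬ p ≤ y), ((1 - (p : ℝ)⁻¹)⁻¹) ^ 2 ≤
          ∏ p ∈ z.primeFactors.filter (fun p => ¬ p ≤ y), Real.exp (4 / y) := by
          refine Finset.prod_le_prod (fun p _ => by positivity) fun p hp => ?_
          rw [Finset.mem_filter, not_le] at hp
          exact factor_tail hy hp.2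
      _ = Real.exp (4 / y) ^ (z.primeFactors.filter (fun p => ¬ p ≤ y)).card := by
          rw [Finset.prod_const]
      _ = Real.exp ((z.primeFactors.filter (fun p => ¬ p ≤ y)).card * (4 / y)) := by
          rw [← Real.exp_nat_mul]
      _ ≤ Real.exp 6 := by
          apply Real.exp_le_exp.2
          have h2 := Pool.Agent.X29.UT.omega_le hz
          have h3 : ((z.primeFactors.filter (fun p => ¬ p ≤ y)).card : ℝ) ≤
              z.primeFactors.card := by exact_mod_cast Finset.card_filter_le _ _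
          have h4 := Real.log_two_gt_d9
          have h5 : (z.primeFactors.card : ℝ) * (2 / 3) ≤ y := by
            have : (z.primeFactors.card : ℝ) * (2 / 3) ≤ z.primeFactors.card * Real.log 2 :=
              mul_le_mul_of_nonneg_left (by linarith) (Nat.cast_nonneg _)
            linarith
          calc ((z.primeFactors.filter (fun p => ¬ p ≤ y)).card : ℝ) * (4 / y) ≤
                z.primeFactors.card * (4 / y) := mul_le_mul_of_nonneg_right h3 (by positivity)
            _ = 6 * ((z.primeFactors.card * (2 / 3)) / y) := by ring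
            _ ≤ 6 * 1 := by
                apply mul_le_mul_of_nonneg_left _ (by norm_num)
                rw [div_le_one hy0]
                exact h5
            _ = 6 := by norm_num
  have h2 : ∏ p ∈ z.primeFactors.filter (fun p => p ≤ y), ((1 - (p : ℝ)⁻¹)⁻¹) ^ 2 ≤
      ∏ p ∈ (pri y).filter (fun p => p ∣ z), (1 + f5 p) := by
    have e : z.primeFactors.filter (fun p => p ≤ y) = (pri y).filter (fun p => p ∣ z) := by
      ext p
      unfold pri
      simp only [Finset.mem_filter, Nat.mem_primeFactors, Finset.mem_Icc]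
      constructor
      · rintro ⟨⟨h3, h4, _⟩, h5⟩
        exact ⟨⟨⟨h3.one_lt.le, h5⟩, h3⟩, h4⟩
      · rintro ⟨⟨⟨_, h5⟩, h3⟩, h4⟩
        exact ⟨⟨h3, h4, hz.ne'⟩, h5⟩
    rw [e]
    refine Finset.prod_le_prod (fun p _ => by positivity) fun p hp => ?_
    unfold pri at hp
    simp only [Finset.mem_filter] at hp
    exact factor_sq hp.1.2.two_le
  have h3 : 0 ≤ ∏ p ∈ z.primeFactors.filter (fun p => p ≤ y), ((1 - (p : ℝ)⁻¹)⁻¹) ^ 2 :=
    Finset.prod_nonneg fun p _ => by positivity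
  exact mul_le_mul h1 h2 h3 (by positivity)

lemma card_dvd (R q : ℕ) (hq : 0 < q) (s : ℤ) :
    (((Finset.range R).filter (fun r : ℕ => q ∣ ((r : ℤ) + s).natAbs)).card : ℝ) ≤ R / q + 1 := by
  obtain ⟨v, hv⟩ : ∃ v : ℕ, (v : ℤ) = (-s) % (q : ℤ) :=
    ⟨((-s) % (q : ℤ)).toNat, Int.toNat_of_nonneg (Int.emod_nonneg _ (by omega))⟩
  have hsub : (Finset.range R).filter (fun r : ℕ => q ∣ ((r : ℤ) + s).natAbs) ⊆
      (Finset.range R).filter (fun r : ℕ => r ≡ v [MOD q]) := by
    intro r hr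
    rw [Finset.mem_filter] at hr ⊢
    refine ⟨hr.1, ?_⟩
    have h1 : (q : ℤ) ∣ (r : ℤ) + s := Int.natCast_dvd.2 hr.2
    have h2 : (r : ℤ) ≡ v [ZMOD q] := by
      rw [hv]
      refine Int.ModEq.trans ?_ (Int.mod_modEq (-s) q).symm
      refine Int.modEq_iff_dvd.2 ?_
      have : -s - (r : ℤ) = -((r : ℤ) + s) := by ring
      rw [this]
      exact (dvd_neg).2 h1
    exact (Int.natCast_modEq_iff).1 h2
  have h1 : (((Finset.range R).filter (fun r : ℕ => q ∣ ((r : ℤ) + s).natAbs)).card : ℝ) ≤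
      (((Finset.range R).filter (fun r : ℕ => r ≡ v [MOD q])).card : ℝ) := by
    exact_mod_cast Finset.card_le_card hsub
  refine h1.trans ?_
  rw [← Nat.count_eq_card_filter_range, Nat.count_modEq_card R hq v]
  push_cast
  have h2 : ((R / q : ℕ) : ℝ) ≤ R / q := Nat.cast_div_le
  split_ifs <;> push_cast <;> linarith

lemma sum_inv_sqrt (y : ℕ) : ∑ n ∈ Finset.Icc 1 y, 1 / Real.sqrt n ≤ 2 * Real.sqrt y := by
  induction y with
  | zero => simp
  | succ y ih =>
    rw [Finset.sum_Icc_succ_top (by omega)]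
    have h1 : (0 : ℝ) ≤ y := Nat.cast_nonneg y
    have hu := Real.sqrt_nonneg (y : ℝ)
    have hv : 0 < Real.sqrt ((y + 1 : ℕ) : ℝ) := by
      apply Real.sqrt_pos.2
      positivity
    have hle : Real.sqrt (y : ℝ) ≤ Real.sqrt ((y + 1 : ℕ) : ℝ) := by
      apply Real.sqrt_le_sqrt
      push_cast
      linarith
    have h2 : Real.sqrt (y : ℝ) ^ 2 = y := Real.sq_sqrt h1
    have h3 : Real.sqrt ((y + 1 : ℕ) : ℝ) ^ 2 = y + 1 := by
      rw [Real.sq_sqrt (by positivity)]
      push_cast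
      ring
    have h4 : 1 / Real.sqrt ((y + 1 : ℕ) : ℝ) ≤
        2 * (Real.sqrt ((y + 1 : ℕ) : ℝ) - Real.sqrt (y : ℝ)) := by
      rw [div_le_iff₀ hv]
      nlinarith
    linarith

lemma prod_pri (y : ℕ) : ∏ p ∈ pri y, (1 + f5 p) ≤ Real.exp (10 * Real.sqrt y) := by
  calc ∏ p ∈ pri y, (1 + f5 p) ≤ ∏ p ∈ pri y, Real.exp (f5 p) := by
        refine Finset.prod_le_prod (fun p _ => by have := f5_nonneg p; linarith) fun p _ => ?_
        rw [add_comm]
        exact Real.add_one_le_exp _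
    _ = Real.exp (∑ p ∈ pri y, f5 p) := (Real.exp_sum _ _).symm
    _ ≤ _ := by
        apply Real.exp_le_exp.2
        calc ∑ p ∈ pri y, f5 p ≤ ∑ p ∈ Finset.Icc 1 y, f5 p :=
              Finset.sum_le_sum_of_subset_of_nonneg (Finset.filter_subset _ _)
                fun p _ _ => f5_nonneg p
          _ = 5 * ∑ p ∈ Finset.Icc 1 y, 1 / Real.sqrt p := by
              rw [Finset.mul_sum]
              refine Finset.sum_congr rfl fun p _ => ?_
              unfold f5
              ring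
          _ ≤ 5 * (2 * Real.sqrt y) := mul_le_mul_of_nonneg_left (sum_inv_sqrt y) (by norm_num)
          _ = _ := by ring

lemma prod_pri' : ∃ C : ℝ, 0 < C ∧ ∀ y : ℕ, ∏ p ∈ pri y, (1 + f5 p / p) ≤ C := by
  have hs : Summable (fun n : ℕ => ((n : ℝ) ^ (3 / 2 : ℝ))⁻¹) :=
    Real.summable_nat_rpow_inv.2 (by norm_num)
  refine ⟨Real.exp (5 * ∑' n : ℕ, ((n : ℝ) ^ (3 / 2 : ℝ))⁻¹), Real.exp_pos _, fun y => ?_⟩
  calc ∏ p ∈ pri y, (1 + f5 p / p) ≤ ∏ p ∈ pri y, Real.exp (f5 p / p) := by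
        refine Finset.prod_le_prod (fun p _ => by have := f5_nonneg p; positivity) fun p _ => ?_
        rw [add_comm]
        exact Real.add_one_le_exp _
    _ = Real.exp (∑ p ∈ pri y, f5 p / p) := (Real.exp_sum _ _).symm
    _ ≤ _ := by
        apply Real.exp_le_exp.2
        calc ∑ p ∈ pri y, f5 p / p = 5 * ∑ p ∈ pri y, ((p : ℝ) ^ (3 / 2 : ℝ))⁻¹ := by
              rw [Finset.mul_sum]
              refine Finset.sum_congr rfl fun p hp => ?_
              unfold pri at hp
              rw [Finset.mem_filter] at hp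
              have hp0 : (0 : ℝ) < p := by exact_mod_cast hp.2.pos
              have e : (p : ℝ) ^ (3 / 2 : ℝ) = p * Real.sqrt p := by
                rw [Real.sqrt_eq_rpow, show (3 / 2 : ℝ) = 1 + 1 / 2 by norm_num,
                  Real.rpow_add hp0, Real.rpow_one]
              rw [e]
              unfold f5
              have : 0 < Real.sqrt p := Real.sqrt_pos.2 hp0
              field_simp
          _ ≤ 5 * ∑' n : ℕ, ((n : ℝ) ^ (3 / 2 : ℝ))⁻¹ := by
              apply mul_le_mul_of_nonneg_left _ (by norm_num)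
              exact hs.sum_le_tsum _ (fun n _ => by positivity)

/-- **The mean of the squares over a short interval.** -/
lemma avg_GG : ∃ C : ℝ, 0 < C ∧ ∀ (y R : ℕ) (s : ℤ), 1 ≤ y →
    (∀ r < R, Real.log (((r : ℤ) + s).natAbs : ℝ) ≤ y) →
    ∑ r ∈ Finset.range R, (if ((r : ℤ) + s).natAbs = 0 then 0 else GG ((r : ℤ) + s).natAbs ^ 2) ≤
      C * (R + Real.exp (10 * Real.sqrt y)) := by
  classical
  obtain ⟨C0, hC0, h0⟩ := prod_pri'
  refine ⟨Real.exp 6 * (C0 + 1), by positivity, fun y R s hy hlog => ?_⟩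
  have hR0 : (0 : ℝ) ≤ R := Nat.cast_nonneg R
  have hterm : ∀ r ∈ Finset.range R,
      (if ((r : ℤ) + s).natAbs = 0 then 0 else GG ((r : ℤ) + s).natAbs ^ 2) ≤
      Real.exp 6 * ∑ D ∈ (pri y).powerset,
        if (∏ p ∈ D, p) ∣ ((r : ℤ) + s).natAbs then ∏ p ∈ D, f5 p else 0 := by
    intro r hr
    rw [Finset.mem_range] at hr
    have hnn : ∀ D : Finset ℕ, 0 ≤ ∏ p ∈ D, f5 p := fun D =>
      Finset.prod_nonneg fun p _ => f5_nonneg p
    split_ifs with hz
    · refine mul_nonneg (by positivity) (Finset.sum_nonneg fun D _ => ?_)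
      split_ifs
      · exact hnn D
      · exact le_rfl
    · refine (GG_sq_prod (Nat.pos_of_ne_zero hz) hy (hlog r hr)).trans ?_
      refine mul_le_mul_of_nonneg_left ?_ (by positivity)
      rw [Finset.prod_one_add]
      rw [← Finset.sum_filter]
      refine Finset.sum_le_sum_of_subset_of_nonneg ?_ fun D _ _ => hnn D
      intro D hD
      rw [Finset.mem_powerset] at hD
      rw [Finset.mem_filter, Finset.mem_powerset]
      refine ⟨hD.trans (Finset.filter_subset _ _), ?_⟩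
      refine Finset.prod_primes_dvd _ (fun p hp => ?_) (fun p hp => ?_)
      · have := hD hp
        unfold pri at this
        simp only [Finset.mem_filter] at this
        exact this.1.2.prime
      · have := hD hp
        rw [Finset.mem_filter] at this
        exact this.2
  refine (Finset.sum_le_sum hterm).trans ?_
  rw [← Finset.mul_sum, Finset.sum_comm]
  have hD : ∀ D ∈ (pri y).powerset, ∑ r ∈ Finset.range R,
      (if (∏ p ∈ D, p) ∣ ((r : ℤ) + s).natAbs then ∏ p ∈ D, f5 p else 0) ≤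
      R * ∏ p ∈ D, (f5 p / p) + ∏ p ∈ D, f5 p := by
    intro D hD
    rw [Finset.mem_powerset] at hD
    have hpos : 0 < ∏ p ∈ D, p := by
      refine Finset.prod_pos fun p hp => ?_
      have := hD hp
      unfold pri at this
      rw [Finset.mem_filter] at this
      exact this.2.pos
    have hnn : 0 ≤ ∏ p ∈ D, f5 p := Finset.prod_nonneg fun p _ => f5_nonneg p
    rw [← Finset.sum_filter, Finset.sum_const, nsmul_eq_mul]
    calc (((Finset.range R).filter (fun r : ℕ => (∏ p ∈ D, p) ∣ ((r : ℤ) + s).natAbs)).card : ℝ) *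
          ∏ p ∈ D, f5 p ≤ ((R : ℝ) / ((∏ p ∈ D, p : ℕ) : ℝ) + 1) * ∏ p ∈ D, f5 p :=
          mul_le_mul_of_nonneg_right (card_dvd R _ hpos s) hnn
      _ = _ := by
          rw [Finset.prod_div_distrib]
          push_cast
          ring
  refine (mul_le_mul_of_nonneg_left (Finset.sum_le_sum hD) (by positivity)).trans ?_
  rw [Finset.sum_add_distrib, ← Finset.mul_sum, ← Finset.prod_one_add, ← Finset.prod_one_add]
  have h1 := h0 y
  have h2 := prod_pri y
  have h3 := Real.exp_pos (10 * Real.sqrt y)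
  calc Real.exp 6 * (R * ∏ p ∈ pri y, (1 + f5 p / p) + ∏ p ∈ pri y, (1 + f5 p)) ≤
        Real.exp 6 * (R * C0 + Real.exp (10 * Real.sqrt y)) := by
        gcongr
    _ ≤ Real.exp 6 * ((C0 + 1) * (R + Real.exp (10 * Real.sqrt y))) := by
        apply mul_le_mul_of_nonneg_left _ (by positivity)
        nlinarith
    _ = _ := by ring

/-- the pointwise bound -/
lemma point_GG : ∃ C : ℝ, 0 < C ∧ ∀ (y z : ℕ), 3 ≤ y → 0 < z → Real.log z ≤ y →
    GG z ^ 2 ≤ C * Real.log y ^ 2 := by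
  obtain ⟨C, hC, h⟩ := Pool.Agent.X29.UT.tot_bound
  refine ⟨C ^ 2, by positivity, fun y z hy hz hzy => ?_⟩
  have hy3 : (3 : ℝ) ≤ y := by exact_mod_cast hy
  have h1 : (16 : ℝ) ≤ Real.exp y := by
    have h2 : Real.exp 3 ≤ Real.exp y := Real.exp_le_exp.2 hy3
    have h3 : (16 : ℝ) ≤ Real.exp 3 := by
      have h4 := Real.exp_one_gt_d9
      have e : Real.exp 3 = Real.exp 1 ^ 3 := by
        rw [← Real.exp_nat_mul]; norm_num
      rw [e]
      have h5 : (2.7 : ℝ) ≤ Real.exp 1 := by linarith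
      calc (16 : ℝ) ≤ 2.7 ^ 3 := by norm_num
        _ ≤ _ := pow_le_pow_left₀ (by norm_num) h5 3
    linarith
  have hz0 : (0 : ℝ) < z := by exact_mod_cast hz
  have h2 := h (Real.exp y) h1 z hz (by
    rw [← Real.log_le_iff_le_exp hz0]
    exact hzy)
  rw [Real.log_exp] at h2
  have h3 : GG z ≤ C * Real.log y := h2
  calc GG z ^ 2 ≤ (C * Real.log y) ^ 2 := pow_le_pow_left₀ (GG_nonneg z) h3 2
    _ = _ := by ring

end Pool.Agent.X10.AI
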