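import Mathlib
import Pool.Agent.X10.AI.Gen1

set_option autoImplicit false

/-!
# Pairs of prime values in an integer base, with uniform shifts: counting
-/

namespace Pool.Agent.X10.AI

open Finset
open Pool.Agent.Erdos456 (GG sieve_two' GG_mul_le GG_nonneg one_le_GG)

/-- the number of good `k ≤ X`, for one residue, uniformly in the shifts -/
lemma one_resU {b : ℕ} (hb : 2 ≤ b) : ∃ C : ℝ, 0 < C ∧ ∀ c c' h r X : ℕ,
    (h = 0 → zc b c c' h r ≠ 0) → 2 ≤ X →
    (((Finset.Icc 2 X).filter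
      (fun k => (k + c).Prime ∧ (b ^ h * k + (r + c')).Prime)).card : ℝ) ≤
      C * (if zc b c c' h r = 0 then 0 else GG (zc b c c' h r) ^ 2) * X / (Real.log X) ^ 2 := by
  obtain ⟨C, hC, hs⟩ := sieve_two'
  refine ⟨C * GG b ^ 2, by have := one_le_GG (n := b) (by omega); positivity,
    fun c c' h r X hh hX => ?_⟩
  have hX0 : (0 : ℝ) ≤ X := Nat.cast_nonneg X
  have hR0 : 0 ≤ C * GG b ^ 2 * (if zc b c c' h r = 0 then 0 else GG (zc b c c' h r) ^ 2) * X /
      (Real.log X) ^ 2 := by
    have : (0 : ℝ) ≤ (if zc b c c' h r = 0 then 0 else GG (zc b c c' h r) ^ 2) := by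
      split_ifs <;> positivity
    positivity
  have hempty : (∀ k, 2 ≤ k → (k + c).Prime → (b ^ h * k + (r + c')).Prime → False) →
      (((Finset.Icc 2 X).filter
      (fun k => (k + c).Prime ∧ (b ^ h * k + (r + c')).Prime)).card : ℝ) = 0 := by
    intro H
    rw [Nat.cast_eq_zero, Finset.card_eq_zero, Finset.filter_eq_empty_iff]
    rintro k hk ⟨h1, h2⟩
    rw [Finset.mem_Icc] at hk
    exact H k hk.1 h1 h2
  by_cases hz : zc b c c' h r = 0
  · rw [hempty ?_]
    · exact hR0
    · intro k hk _ h2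
      have hh1 : 1 ≤ h := by
        rcases Nat.eq_zero_or_pos h with h0 | h0
        · exact absurd hz (hh h0)
        · exact h0
      have hbh : 2 ≤ b ^ h := le_trans hb (by
        calc b = b ^ 1 := (pow_one b).symm
          _ ≤ b ^ h := Nat.pow_le_pow_right (by omega) hh1)
      unfold zc at hz
      rw [Int.natAbs_eq_zero, one_mul] at hz
      have e : r + c' = b ^ h * c := by exact_mod_cast sub_eq_zero.1 hz
      rw [e, ← mul_add] at h2
      rcases Nat.prime_mul_iff.1 h2 with h3 | h3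
      · omega
      · omega
  by_cases hcop : Nat.Coprime (b ^ h) (r + c')
  · have h1 := hs 1 c (b ^ h) (r + c') X one_pos (pow_pos (by omega) h) (Nat.coprime_one_left c)
      hcop (by
      intro e
      refine hz ?_
      unfold zc
      rw [Int.natAbs_eq_zero, e, sub_self]) hX
    have e : (1 * b ^ h * (((1 * (r + c') : ℕ) : ℤ) - ((b ^ h * c : ℕ) : ℤ)).natAbs) =
        b ^ h * zc b c c' h r := by unfold zc; ring
    rw [e] at h1
    have hsub : (Finset.Icc 2 X).filter
        (fun k => (k + c).Prime ∧ (b ^ h * k + (r + c')).Prime) ⊆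
        (Finset.Icc 1 X).filter (fun n => (1 * n + c).Prime ∧ (b ^ h * n + (r + c')).Prime) := by
      intro k hk
      rw [Finset.mem_filter, Finset.mem_Icc] at hk ⊢
      refine ⟨⟨by omega, hk.1.2⟩, ?_, hk.2.2⟩
      rw [one_mul]
      exact hk.2.1
    have h2 : (((Finset.Icc 2 X).filter
        (fun k => (k + c).Prime ∧ (b ^ h * k + (r + c')).Prime)).card : ℝ) ≤
        (((Finset.Icc 1 X).filter (fun n => (1 * n + c).Prime ∧
          (b ^ h * n + (r + c')).Prime)).card : ℝ) := by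
      exact_mod_cast Finset.card_le_card hsub
    refine h2.trans (h1.trans ?_)
    rw [if_neg hz]
    have h3 : GG (b ^ h * zc b c c' h r) ≤ GG b * GG (zc b c c' h r) :=
      (GG_mul_le _ _).trans (mul_le_mul_of_nonneg_right (GG_pow_le (by omega) h) (GG_nonneg _))
    have h4 : GG (b ^ h * zc b c c' h r) ^ 2 ≤ (GG b * GG (zc b c c' h r)) ^ 2 :=
      pow_le_pow_left₀ (GG_nonneg _) h3 2
    refine div_le_div_of_nonneg_right ?_ (by positivity)
    refine mul_le_mul_of_nonneg_right ?_ hX0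
    calc C * GG (b ^ h * zc b c c' h r) ^ 2 ≤ C * (GG b * GG (zc b c c' h r)) ^ 2 :=
          mul_le_mul_of_nonneg_left h4 hC.le
      _ = _ := by ring
  · rw [hempty ?_]
    · exact hR0
    · intro k hk _ h2
      set d := Nat.gcd (b ^ h) (r + c') with hd
      have hd1 : d ≠ 1 := hcop
      have hdv : d ∣ b ^ h * k + (r + c') :=
        dvd_add ((Nat.gcd_dvd_left _ _).mul_right k) (Nat.gcd_dvd_right _ _)
      have hP : 0 < b ^ h := pow_pos (by omega) h
      rcases (Nat.dvd_prime h2).1 hdv with h3 | h3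
      · exact hd1 h3
      · have h4 : d ≤ b ^ h := Nat.le_of_dvd hP (Nat.gcd_dvd_left _ _)
        have h5 : b ^ h * 2 ≤ b ^ h * k := Nat.mul_le_mul_left _ (by omega)
        omega

lemma zc_eq (b c c' h r : ℕ) :
    zc b c c' h r = ((r : ℤ) + ((c' : ℤ) - ((b ^ h * c : ℕ) : ℤ))).natAbs := by
  unfold zc
  congr 1
  push_cast
  ring

/-- the residues -/
def RR (b c c' h : ℕ) : Finset ℕ :=
  (Finset.range (b ^ h + 1)).filter (fun r => h = 0 → zc b c c' h r ≠ 0)

/-- the number of good pairs `(k, r)`, uniformly in the shifts -/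
lemma all_resU {b : ℕ} (hb : 2 ≤ b) : ∃ C : ℝ, 0 < C ∧ ∀ c c' h X y : ℕ,
    2 ≤ X → 3 ≤ y → (∀ r < b ^ h + 1, Real.log (zc b c c' h r : ℝ) ≤ y) →
    (∑ r ∈ RR b c c' h, (((Finset.Icc 2 X).filter
      (fun k => (k + c).Prime ∧ (b ^ h * k + (r + c')).Prime)).card : ℝ) ≤
      C * ((b : ℝ) ^ h + Real.exp (10 * Real.sqrt y)) * X / (Real.log X) ^ 2) ∧
    ∑ r ∈ RR b c c' h, (((Finset.Icc 2 X).filter
      (fun k => (k + c).Prime ∧ (b ^ h * k + (r + c')).Prime)).card : ℝ) ≤
      C * (Real.log y ^ 2 * (b : ℝ) ^ h) * X / (Real.log X) ^ 2 := by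
  obtain ⟨C1, hC1, h1⟩ := one_resU hb
  obtain ⟨C2, hC2, h2⟩ := avg_GG
  obtain ⟨C3, hC3, h3⟩ := point_GG
  refine ⟨C1 * (2 * (C2 + C3)), by positivity, fun c c' h X y hX hy hlog => ?_⟩
  have hX0 : (0 : ℝ) ≤ X := Nat.cast_nonneg X
  have hb0 : (0 : ℝ) < b := by exact_mod_cast (by omega : 0 < b)
  have hbh1 : (1 : ℝ) ≤ (b : ℝ) ^ h := one_le_pow₀ (by exact_mod_cast (by omega : 1 ≤ b))
  have hbase : ∑ r ∈ RR b c c' h, (((Finset.Icc 2 X).filter
      (fun k => (k + c).Prime ∧ (b ^ h * k + (r + c')).Prime)).card : ℝ) ≤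
      C1 * (∑ r ∈ Finset.range (b ^ h + 1),
        (if zc b c c' h r = 0 then 0 else GG (zc b c c' h r) ^ 2)) * X / (Real.log X) ^ 2 := by
    calc _ ≤ ∑ r ∈ RR b c c' h,
          C1 * (if zc b c c' h r = 0 then 0 else GG (zc b c c' h r) ^ 2) * X / (Real.log X) ^ 2 :=
          Finset.sum_le_sum fun r hr => by
            unfold RR at hr
            rw [Finset.mem_filter] at hr
            exact h1 c c' h r X hr.2 hX
      _ ≤ ∑ r ∈ Finset.range (b ^ h + 1),
          C1 * (if zc b c c' h r = 0 then 0 else GG (zc b c c' h r) ^ 2) * X / (Real.log X) ^ 2 := by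
          refine Finset.sum_le_sum_of_subset_of_nonneg (Finset.filter_subset _ _) fun r _ _ => ?_
          have : (0 : ℝ) ≤ (if zc b c c' h r = 0 then 0 else GG (zc b c c' h r) ^ 2) := by
            split_ifs <;> positivity
          positivity
      _ = _ := by rw [Finset.mul_sum, Finset.sum_mul, Finset.sum_div]
  constructor
  · refine hbase.trans ?_
    have h4 := h2 y (b ^ h + 1) ((c' : ℤ) - ((b ^ h * c : ℕ) : ℤ)) (by omega) (fun r hr => by
      rw [← zc_eq]
      exact hlog r hr)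
    have h5 : ∑ r ∈ Finset.range (b ^ h + 1),
        (if zc b c c' h r = 0 then 0 else GG (zc b c c' h r) ^ 2) ≤
        C2 * (((b : ℝ) ^ h + 1) + Real.exp (10 * Real.sqrt y)) := by
      simp only [zc_eq]
      refine h4.trans (le_of_eq ?_)
      push_cast
      ring
    have he := Real.exp_pos (10 * Real.sqrt y)
    have h6 : C2 * (((b : ℝ) ^ h + 1) + Real.exp (10 * Real.sqrt y)) ≤
        2 * (C2 + C3) * ((b : ℝ) ^ h + Real.exp (10 * Real.sqrt y)) := by
      calc C2 * (((b : ℝ) ^ h + 1) + Real.exp (10 * Real.sqrt y)) ≤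
            C2 * (2 * ((b : ℝ) ^ h + Real.exp (10 * Real.sqrt y))) :=
            mul_le_mul_of_nonneg_left (by linarith) hC2.le
        _ = 2 * C2 * ((b : ℝ) ^ h + Real.exp (10 * Real.sqrt y)) := by ring
        _ ≤ _ := mul_le_mul_of_nonneg_right (by linarith) (by positivity)
    refine div_le_div_of_nonneg_right ?_ (by positivity)
    refine mul_le_mul_of_nonneg_right ?_ hX0
    calc C1 * (∑ r ∈ Finset.range (b ^ h + 1),
        (if zc b c c' h r = 0 then 0 else GG (zc b c c' h r) ^ 2)) ≤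
        C1 * (2 * (C2 + C3) * ((b : ℝ) ^ h + Real.exp (10 * Real.sqrt y))) :=
          mul_le_mul_of_nonneg_left (h5.trans h6) hC1.le
      _ = _ := by ring
  · refine hbase.trans ?_
    have h5 : ∑ r ∈ Finset.range (b ^ h + 1),
        (if zc b c c' h r = 0 then 0 else GG (zc b c c' h r) ^ 2) ≤
        C3 * Real.log y ^ 2 * ((b : ℝ) ^ h + 1) := by
      calc _ ≤ ∑ r ∈ Finset.range (b ^ h + 1), C3 * Real.log y ^ 2 := by
            refine Finset.sum_le_sum fun r hr => ?_
            split_ifs with hz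
            · positivity
            · exact h3 y _ hy (Nat.pos_of_ne_zero hz) (hlog r (Finset.mem_range.1 hr))
        _ = _ := by
            rw [Finset.sum_const, Finset.card_range, nsmul_eq_mul]
            push_cast
            ring
    have h6 : C3 * Real.log y ^ 2 * ((b : ℝ) ^ h + 1) ≤
        2 * (C2 + C3) * (Real.log y ^ 2 * (b : ℝ) ^ h) := by
      calc C3 * Real.log y ^ 2 * ((b : ℝ) ^ h + 1) ≤ C3 * Real.log y ^ 2 * (2 * (b : ℝ) ^ h) :=
            mul_le_mul_of_nonneg_left (by linarith) (by positivity)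
        _ = 2 * C3 * (Real.log y ^ 2 * (b : ℝ) ^ h) := by ring
        _ ≤ _ := mul_le_mul_of_nonneg_right (by linarith) (by positivity)
    refine div_le_div_of_nonneg_right ?_ (by positivity)
    refine mul_le_mul_of_nonneg_right ?_ hX0
    calc C1 * (∑ r ∈ Finset.range (b ^ h + 1),
        (if zc b c c' h r = 0 then 0 else GG (zc b c c' h r) ^ 2)) ≤
        C1 * (2 * (C2 + C3) * (Real.log y ^ 2 * (b : ℝ) ^ h)) :=
          mul_le_mul_of_nonneg_left (h5.trans h6) hC1.le
      _ = _ := by ring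

end Pool.Agent.X10.AI
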