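import Mathlib
import Pool.Agent.X10.AI.Gen2
import Pool.Agent.X10.AI.Int3

set_option autoImplicit false

/-!
# Pairs of prime values in an integer base, general second term: measure
-/

namespace Pool.Agent.X10.AI

open Finset MeasureTheory Filter Topology
open Pool.Agent.W66X (ysh measurable_ysh pert8 exp_ysh ae_of_exp')
open Pool.Agent.H305R2 (roughPart NN ff measurable_NN measurable_ff ff_nonneg ff_le_one)

/-- the places where `exp t * A` lies in `(u, u + 1]` -/
lemma volume_cellR {A : ℝ} (hA : 0 < A) {u : ℝ} (hu : 0 < u) :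
    volume {t : ℝ | u < Real.exp t * A ∧ Real.exp t * A ≤ u + 1} ≤ ENNReal.ofReal (1 / u) := by
  have hsub : {t : ℝ | u < Real.exp t * A ∧ Real.exp t * A ≤ u + 1} ⊆
      Set.Ioc (Real.log (u / A)) (Real.log ((u + 1) / A)) := by
    rintro t ⟨h1, h2⟩
    constructor
    · rw [Real.log_lt_iff_lt_exp (by positivity), div_lt_iff₀ hA]
      exact h1
    · rw [Real.le_log_iff_exp_le (by positivity), le_div_iff₀ hA]
      exact h2
  refine (measure_mono hsub).trans ?_
  rw [Real.volume_Ioc]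
  refine ENNReal.ofReal_le_ofReal ?_
  rw [← Real.log_div (by positivity) (by positivity)]
  have e : (u + 1) / A / (u / A) = 1 + 1 / u := by field_simp
  rw [e]
  have h := Real.log_le_sub_one_of_pos (show (0 : ℝ) < 1 + 1 / u by positivity)
  linarith

lemma NN_real {x : ℝ} (hx : 0 < x) : NN (Real.log x) = ⌈x⌉₊ - 1 := by
  unfold NN
  rw [Real.exp_log hx]

/-- both values are prime, and they are different if the indices are equal -/
def both2 (α : ℝ) (g g' : ℕ → ℝ) (m n : ℕ) : Set ℝ :=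
  {t : ℝ | (NN (ysh α g m t)).Prime ∧ (NN (ysh α g' n t)).Prime ∧
    (m = n → NN (ysh α g m t) ≠ NN (ysh α g' n t))}

lemma measurable_NNysh (α : ℝ) (g : ℕ → ℝ) (m : ℕ) : Measurable fun t => NN (ysh α g m t) :=
  measurable_NN.comp (measurable_ysh α g m)

lemma measurableSet_both2 (α : ℝ) (g g' : ℕ → ℝ) (m n : ℕ) : MeasurableSet (both2 α g g' m n) := by
  have h1 := measurable_NNysh α g m
  have h2 := measurable_NNysh α g' n
  refine (measurable_ysh α g m measurableSet_prime).inter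
    ((measurable_ysh α g' n measurableSet_prime).inter ?_)
  by_cases hmn : m = n
  · have e : {t : ℝ | m = n → NN (ysh α g m t) ≠ NN (ysh α g' n t)} =
        {t : ℝ | NN (ysh α g m t) = NN (ysh α g' n t)}ᶜ := by
      ext t
      simp [hmn]
    have h3 : MeasurableSet {t : ℝ | m = n → NN (ysh α g m t) ≠ NN (ysh α g' n t)} := by
      rw [e]
      exact (measurableSet_eq_fun h1 h2).compl
    exact h3
  · have e : {t : ℝ | m = n → NN (ysh α g m t) ≠ NN (ysh α g' n t)} = Set.univ := by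
      ext t
      simp [hmn]
    have h3 : MeasurableSet {t : ℝ | m = n → NN (ysh α g m t) ≠ NN (ysh α g' n t)} := by
      rw [e]
      exact MeasurableSet.univ
    exact h3

open Classical in
/-- one pair of indices -/
lemma gen_core {b : ℕ} (hb : 2 ≤ b) : ∃ C0 : ℝ, 0 < C0 ∧ ∀ (g g' : ℕ → ℝ) (b0 : ℝ) (m h y : ℕ)
    (E : ℝ), 3 ≤ y → E = Real.exp b0 * (b : ℝ) ^ m → 64 ≤ E → |g m| ≤ E / 16 →
    |g' (m + h)| ≤ (b : ℝ) ^ h * E / 16 → Real.log ((b : ℝ) ^ h * E) ≤ y →
    (volume.restrict (Set.Ioc b0 (b0 + 1))) (both2 b g g' m (m + h)) ≤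
      ENNReal.ofReal (C0 * (1 + Real.exp (10 * Real.sqrt y) / (b : ℝ) ^ h) / (Real.log E) ^ 2) ∧
    (volume.restrict (Set.Ioc b0 (b0 + 1))) (both2 b g g' m (m + h)) ≤
      ENNReal.ofReal (C0 * (Real.log y) ^ 2 / (Real.log E) ^ 2) := by
  obtain ⟨C, hC, hres⟩ := all_resU hb
  refine ⟨10 * C, by positivity, fun g g' b0 m h y E hy3 hE hE64 hgm hgn hylog => ?_⟩
  have hbr : (2 : ℝ) ≤ b := by exact_mod_cast hb
  have hb0 : (0 : ℝ) < b := by linarith
  have hE0 : 0 < E := by linarith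
  obtain ⟨B, hB⟩ : ∃ B : ℕ, B = b ^ h := ⟨_, rfl⟩
  have hBr : (b : ℝ) ^ h = B := by rw [hB]; push_cast; rfl
  rw [hBr] at hgn hylog ⊢
  have hB1 : 1 ≤ B := by rw [hB]; exact Nat.one_le_pow _ _ (by omega)
  have hB1r : (1 : ℝ) ≤ B := by exact_mod_cast hB1
  have hB0 : (0 : ℝ) < B := by linarith
  have hBE : (64 : ℝ) ≤ B * E := by nlinarith
  -- the shift
  obtain ⟨θ, hθ⟩ : ∃ θ, θ = g' (m + h) - B * g m := ⟨_, rfl⟩
  have hθabs : |θ| ≤ B * E / 8 := by
    rw [hθ]
    have h1 := abs_sub (g' (m + h)) (B * g m)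
    rw [abs_mul, abs_of_pos hB0] at h1
    have h2 : (B : ℝ) * |g m| ≤ B * (E / 16) := mul_le_mul_of_nonneg_left hgm hB0.le
    linarith
  obtain ⟨s, hs⟩ : ∃ s : ℤ, s = ⌊θ⌋ := ⟨_, rfl⟩
  have hs1 : (s : ℝ) ≤ θ := by rw [hs]; exact Int.floor_le θ
  have hs2 : θ < s + 1 := by rw [hs]; exact Int.lt_floor_add_one θ
  have hsabs : |(s : ℝ)| ≤ B * E / 8 + 1 := by
    have h1 := abs_le.1 hθabs
    rw [abs_le]
    constructor <;> linarith [h1.1, h1.2]
  have hsnat : ((s.natAbs : ℕ) : ℝ) = |(s : ℝ)| := by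
    rw [Nat.cast_natAbs]
    push_cast
    rfl
  obtain ⟨t0, ht0⟩ : ∃ t0 : ℕ, t0 = s.natAbs / B + 1 := ⟨_, rfl⟩
  have ht0r : (t0 : ℝ) ≤ E / 8 + 2 := by
    rw [ht0]
    push_cast
    have h1 : ((s.natAbs / B : ℕ) : ℝ) ≤ (s.natAbs : ℝ) / B := Nat.cast_div_le
    have h2 : (s.natAbs : ℝ) / B ≤ E / 8 + 1 := by
      rw [div_le_iff₀ hB0, hsnat]
      nlinarith
    linarith
  have hct : 0 ≤ (B : ℤ) * t0 + s := by
    have h1 : s.natAbs < B * t0 := by
      rw [ht0]
      exact Nat.lt_mul_div_succ _ (by omega)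
    have h2 : -(s.natAbs : ℤ) ≤ s := by omega
    have h3 : (s.natAbs : ℤ) < (B : ℤ) * t0 := by exact_mod_cast h1
    linarith
  obtain ⟨c', hc'⟩ : ∃ c' : ℕ, (c' : ℤ) = (B : ℤ) * t0 + s := ⟨((B : ℤ) * t0 + s).toNat, Int.toNat_of_nonneg hct⟩
  have hzc : ∀ r, zc b t0 c' h r = ((r : ℤ) + s).natAbs := by
    intro r
    rw [zc_eq, ← hB, hc']
    congr 1
    push_cast
    ring
  have hzlog : ∀ r < b ^ h + 1, Real.log (zc b t0 c' h r : ℝ) ≤ y := by
    intro r hr
    rw [← hB] at hr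
    rw [hzc]
    rcases Nat.eq_zero_or_pos ((r : ℤ) + s).natAbs with h0 | h0
    · rw [h0]
      simp
    · refine le_trans (Real.log_le_log (by exact_mod_cast h0) ?_) hylog
      have h1 : (((r : ℤ) + s).natAbs : ℝ) ≤ r + |(s : ℝ)| := by
        rw [Nat.cast_natAbs]
        push_cast
        refine (abs_add_le _ _).trans ?_
        rw [abs_of_nonneg (Nat.cast_nonneg r)]
      have h2 : (r : ℝ) ≤ B := by exact_mod_cast (by omega : r ≤ B)
      nlinarith
  set X := ⌊4 * E⌋₊ + 2 with hX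
  have hX2 : 2 ≤ X := by omega
  have hXE : (X : ℝ) ≤ 5 * E := by
    rw [hX]
    push_cast
    have h1 := Nat.floor_le (show 0 ≤ 4 * E by positivity)
    linarith
  have hXlow : E ≤ X := by
    rw [hX]
    push_cast
    have h1 := Nat.lt_floor_add_one (4 * E)
    linarith
  have hlogE : 0 < Real.log E := Real.log_pos (by linarith)
  have hlogX : Real.log E ≤ Real.log X := Real.log_le_log hE0 hXlow
  obtain ⟨hr1, hr2⟩ := hres t0 c' h X y hX2 hy3 hzlog
  -- covering
  set A := both2 (b : ℝ) g g' m (m + h) with hA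
  set F : ℕ → Finset ℕ := fun r => ((Finset.Icc 2 X).filter
      (fun k => (k + t0).Prime ∧ (b ^ h * k + (r + c')).Prime)).filter
      (fun k => 11 * E / 16 ≤ (k : ℝ)) with hF
  set U : ℕ → ℕ → ℝ := fun r k => (B : ℝ) * k + (r + c') - g' (m + h) with hU
  have hcover : A ∩ Set.Ioc b0 (b0 + 1) ⊆ ⋃ r ∈ RR b t0 c' h, ⋃ k ∈ F r,
      {t : ℝ | U r k < Real.exp t * (b : ℝ) ^ (m + h) ∧
        Real.exp t * (b : ℝ) ^ (m + h) ≤ U r k + 1} := by
    rintro t ⟨⟨p1, p2, p3⟩, ht1, ht2⟩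
    have hlow : E ≤ Real.exp t * (b : ℝ) ^ m := by
      rw [hE]
      exact mul_le_mul_of_nonneg_right (Real.exp_le_exp.2 ht1.le) (by positivity)
    have hup : Real.exp t * (b : ℝ) ^ m ≤ 3 * E := by
      have h1 : Real.exp t ≤ Real.exp 1 * Real.exp b0 := by
        rw [← Real.exp_add]
        exact Real.exp_le_exp.2 (by linarith)
      have h2 := Real.exp_one_lt_d9
      calc Real.exp t * (b : ℝ) ^ m ≤ (Real.exp 1 * Real.exp b0) * (b : ℝ) ^ m :=
            mul_le_mul_of_nonneg_right h1 (by positivity)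
        _ = Real.exp 1 * E := by rw [hE]; ring
        _ ≤ 3 * E := mul_le_mul_of_nonneg_right (by linarith) hE0.le
    have hgm' := abs_le.1 hgm
    have hgn' := abs_le.1 hgn
    obtain ⟨x, hx⟩ : ∃ x, x = Real.exp t * (b : ℝ) ^ m + g m := ⟨_, rfl⟩
    have hx0 : 0 < x := by rw [hx]; linarith [hgm'.1]
    have hvx : Real.exp t * (b : ℝ) ^ (m + h) + g' (m + h) = B * x + θ := by
      rw [hθ, hx, pow_add, hBr]
      ring
    have hv0 : 0 < Real.exp t * (b : ℝ) ^ (m + h) + g' (m + h) := by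
      rw [pow_add, hBr]
      have h1 : (B : ℝ) * E ≤ Real.exp t * ((b : ℝ) ^ m * B) := by
        calc (B : ℝ) * E ≤ B * (Real.exp t * (b : ℝ) ^ m) := mul_le_mul_of_nonneg_left hlow hB0.le
          _ = _ := by ring
      have h2 : 0 < (B : ℝ) * E := by positivity
      linarith [hgn'.1]
    obtain ⟨v, hv⟩ : ∃ v, v = Real.exp t * (b : ℝ) ^ (m + h) + g' (m + h) := ⟨_, rfl⟩
    have e1 : NN (ysh (b : ℝ) g m t) = ⌈x⌉₊ - 1 := by
      unfold ysh
      rw [← hx]
      exact NN_real hx0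
    have e2 : NN (ysh (b : ℝ) g' (m + h) t) = ⌈v⌉₊ - 1 := by
      unfold ysh
      rw [← hv]
      exact NN_real (by rw [hv]; exact hv0)
    rw [e1] at p1
    rw [e2] at p2
    rw [e1, e2] at p3
    rw [← hv] at hvx hv0
    obtain ⟨k0, hk0⟩ : ∃ k0, k0 = ⌈x⌉₊ - 1 := ⟨_, rfl⟩
    obtain ⟨N2, hN2⟩ : ∃ N2, N2 = ⌈v⌉₊ - 1 := ⟨_, rfl⟩
    rw [← hk0] at p1
    rw [← hN2] at p2
    rw [← hk0, ← hN2] at p3
    have hceil : 1 ≤ ⌈x⌉₊ := Nat.one_le_ceil_iff.2 hx0
    have hceil2 : 1 ≤ ⌈v⌉₊ := Nat.one_le_ceil_iff.2 hv0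
    have hk1 : (k0 : ℝ) + 1 = ⌈x⌉₊ := by
      have : k0 + 1 = ⌈x⌉₊ := by omega
      exact_mod_cast this
    have hN1 : (N2 : ℝ) + 1 = ⌈v⌉₊ := by
      have : N2 + 1 = ⌈v⌉₊ := by omega
      exact_mod_cast this
    have hkx : (k0 : ℝ) < x := by
      have := Nat.ceil_lt_add_one hx0.le
      linarith
    have hxk : x ≤ k0 + 1 := by
      rw [hk1]; exact Nat.le_ceil x
    have hNv : (N2 : ℝ) < v := by
      have := Nat.ceil_lt_add_one hv0.le
      linarith
    have hvN : v ≤ N2 + 1 := by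
      rw [hN1]; exact Nat.le_ceil v
    have hlo : (B : ℤ) * k0 + s ≤ N2 := by
      have h1 : (B : ℝ) * k0 + s < (N2 : ℝ) + 1 := by
        have := mul_lt_mul_of_pos_left hkx hB0
        linarith
      have h2 : (B : ℤ) * k0 + s < (N2 : ℤ) + 1 := by exact_mod_cast h1
      omega
    have hhi : (N2 : ℤ) < (B : ℤ) * k0 + B + s + 1 := by
      have h1 : (N2 : ℝ) < (B : ℝ) * k0 + B + s + 1 := by
        have := mul_le_mul_of_nonneg_left hxk hB0.le
        linarith
      exact_mod_cast h1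
    obtain ⟨r, hr⟩ : ∃ r : ℕ, (r : ℤ) = N2 - s - B * k0 :=
      ⟨((N2 : ℤ) - s - B * k0).toNat, Int.toNat_of_nonneg (by linarith)⟩
    have hrB : r < B + 1 := by
      have : (r : ℤ) < B + 1 := by linarith
      exact_mod_cast this
    have hk0E : 15 * E / 16 - 1 ≤ (k0 : ℝ) := by
      have : 15 * E / 16 ≤ x := by rw [hx]; linarith [hgm'.1]
      linarith
    have ht0k : t0 ≤ k0 := by
      have : (t0 : ℝ) ≤ k0 := by linarith
      exact_mod_cast this
    obtain ⟨k, hk⟩ : ∃ k, k0 = k + t0 := ⟨k0 - t0, by omega⟩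
    have hkE : 11 * E / 16 ≤ (k : ℝ) := by
      have h1 : (k0 : ℝ) = k + t0 := by rw [hk]; push_cast; ring
      linarith
    have hkN : (B : ℤ) * k + (r + c') = N2 := by
      rw [hc', hr, hk]
      push_cast
      ring
    simp only [Set.mem_iUnion]
    refine ⟨r, ?_, k, ?_, ?_⟩
    · unfold RR
      rw [Finset.mem_filter, Finset.mem_range, ← hB]
      refine ⟨hrB, fun h0 hz => p3 (by omega) ?_⟩
      rw [hzc, Int.natAbs_eq_zero] at hz
      have hB1' : B = 1 := by rw [hB, h0, pow_zero]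
      rw [hB1'] at hr
      push_cast at hr
      omega
    · simp only [hF]
      rw [Finset.mem_filter, Finset.mem_filter, Finset.mem_Icc]
      refine ⟨⟨⟨?_, ?_⟩, ?_, ?_⟩, hkE⟩
      · have : ((2 : ℕ) : ℝ) ≤ k := by push_cast; linarith
        exact_mod_cast this
      · have h1 : (k : ℝ) < ⌊4 * E⌋₊ + 1 := by
          have h2 := Nat.lt_floor_add_one (4 * E)
          have h3 : (k : ℝ) ≤ k0 := by exact_mod_cast (by omega : k ≤ k0)
          have h4 : x ≤ 4 * E := by rw [hx]; linarith [hgm'.2]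
          linarith
        have h2 : k < ⌊4 * E⌋₊ + 1 := by exact_mod_cast h1
        omega
      · rw [← hk]
        exact p1
      · have e : b ^ h * k + (r + c') = N2 := by
          rw [← hB]
          exact_mod_cast hkN
        rw [e]
        exact p2
    · show U r k < _ ∧ _ ≤ U r k + 1
      have e : (B : ℝ) * k + (r + c') = N2 := by exact_mod_cast hkN
      simp only [hU]
      rw [e]
      constructor <;> linarith
  set w := 2 / ((B : ℝ) * E) with hw
  have hw0 : 0 ≤ w := by positivity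
  have hcell : ∀ r ∈ RR b t0 c' h, ∀ k ∈ F r,
      volume {t : ℝ | U r k < Real.exp t * (b : ℝ) ^ (m + h) ∧
        Real.exp t * (b : ℝ) ^ (m + h) ≤ U r k + 1} ≤ ENNReal.ofReal w := by
    intro r _ k hk
    simp only [hF] at hk
    rw [Finset.mem_filter] at hk
    have hgn' := abs_le.1 hgn
    have hkk : 11 * E / 16 ≤ (k : ℝ) := hk.2
    have hUlow : (B : ℝ) * E / 2 ≤ U r k := by
      simp only [hU]
      have h1 : (B : ℝ) * (11 * E / 16) ≤ B * k := mul_le_mul_of_nonneg_left hkk hB0.le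
      have h2 : (0 : ℝ) ≤ (r : ℝ) + c' := by positivity
      have h3 : 0 < (B : ℝ) * E := by positivity
      linarith [hgn'.2]
    have hU0 : 0 < U r k := lt_of_lt_of_le (by positivity) hUlow
    refine (volume_cellR (pow_pos hb0 (m + h)) hU0).trans ?_
    refine ENNReal.ofReal_le_ofReal ?_
    rw [hw]
    calc 1 / U r k ≤ 1 / ((B : ℝ) * E / 2) := one_div_le_one_div_of_le (by positivity) hUlow
      _ = _ := by field_simp
  have hsum : volume (⋃ r ∈ RR b t0 c' h, ⋃ k ∈ F r,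
      {t : ℝ | U r k < Real.exp t * (b : ℝ) ^ (m + h) ∧
        Real.exp t * (b : ℝ) ^ (m + h) ≤ U r k + 1}) ≤
      ∑ r ∈ RR b t0 c' h, ∑ k ∈ F r, ENNReal.ofReal w := by
    refine (measure_biUnion_finset_le _ _).trans (Finset.sum_le_sum fun r hr => ?_)
    refine (measure_biUnion_finset_le _ _).trans (Finset.sum_le_sum fun k hk => ?_)
    exact hcell r hr k hk
  have e3 : ∑ r ∈ RR b t0 c' h, ∑ k ∈ F r, ENNReal.ofReal w =
      ENNReal.ofReal ((∑ r ∈ RR b t0 c' h, ((F r).card : ℝ)) * w) := by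
    rw [Finset.sum_mul, ENNReal.ofReal_sum_of_nonneg (fun r _ => by positivity)]
    refine Finset.sum_congr rfl fun r _ => ?_
    rw [Finset.sum_const, nsmul_eq_mul, ENNReal.ofReal_mul (Nat.cast_nonneg _),
      ENNReal.ofReal_natCast]
  have hmain : (volume.restrict (Set.Ioc b0 (b0 + 1))) A ≤
      ENNReal.ofReal ((∑ r ∈ RR b t0 c' h, ((F r).card : ℝ)) * w) := by
    rw [Measure.restrict_apply (measurableSet_both2 (b : ℝ) _ _ m (m + h)), ← e3]
    exact (measure_mono hcover).trans hsum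
  have hcard : ∑ r ∈ RR b t0 c' h, ((F r).card : ℝ) ≤
      ∑ r ∈ RR b t0 c' h, (((Finset.Icc 2 X).filter
        (fun k => (k + t0).Prime ∧ (b ^ h * k + (r + c')).Prime)).card : ℝ) := by
    refine Finset.sum_le_sum fun r _ => ?_
    exact_mod_cast Finset.card_le_card (Finset.filter_subset _ _)
  have hfin : ∀ Q : ℝ, 0 ≤ Q → ∑ r ∈ RR b t0 c' h, (((Finset.Icc 2 X).filter
        (fun k => (k + t0).Prime ∧ (b ^ h * k + (r + c')).Prime)).card : ℝ) ≤
        C * Q * X / (Real.log X) ^ 2 →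
      (volume.restrict (Set.Ioc b0 (b0 + 1))) A ≤
        ENNReal.ofReal (10 * C * (Q / B) / (Real.log E) ^ 2) := by
    intro Q hQ hQs
    refine hmain.trans (ENNReal.ofReal_le_ofReal ?_)
    calc (∑ r ∈ RR b t0 c' h, ((F r).card : ℝ)) * w ≤
          (C * Q * X / (Real.log X) ^ 2) * w :=
          mul_le_mul_of_nonneg_right (hcard.trans hQs) hw0
      _ ≤ (C * Q * (5 * E) / (Real.log E) ^ 2) * w := by
          refine mul_le_mul_of_nonneg_right ?_ hw0
          have h1 : (Real.log E) ^ 2 ≤ (Real.log X) ^ 2 := pow_le_pow_left₀ hlogE.le hlogX 2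
          have h2 : C * Q * X ≤ C * Q * (5 * E) := mul_le_mul_of_nonneg_left hXE (by positivity)
          exact div_le_div₀ (by positivity) h2 (by positivity) h1
      _ = _ := by
          rw [hw]
          field_simp
          ring
  rw [hBr] at hr1 hr2
  constructor
  · refine (hfin _ (by positivity) hr1).trans (le_of_eq ?_)
    congr 1
    field_simp
  · refine (hfin _ (by positivity) hr2).trans (le_of_eq ?_)
    congr 1
    field_simp

end Pool.Agent.X10.AI
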