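import Mathlib
import Pool.Agent.X10.AI.Gen3

set_option autoImplicit false

/-!
# Pairs of prime values in an integer base, general second term: all pairs of indices
-/

namespace Pool.Agent.X10.AI

open Finset MeasureTheory Filter Topology
open Pool.Agent.W66X (ysh measurable_ysh pert8 exp_ysh ae_of_exp')
open Pool.Agent.H305R2 (roughPart NN ff measurable_NN measurable_ff ff_nonneg ff_le_one)

/-- the loss for very close indices -/
noncomputable def EE (K D : ℝ) (m n : ℕ) : ℝ :=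
  if (n : ℝ) - m ≤ D * Real.sqrt m then K * (Real.log m) ^ 2 / (m : ℝ) ^ 2 else 0

lemma EE_nonneg {K D : ℝ} (hK : 0 ≤ K) (m n : ℕ) : 0 ≤ EE K D m n := by
  unfold EE
  split_ifs
  · positivity
  · exact le_rfl

/-- **Pairs in an integer base, general second terms.** -/
theorem gen_pair {b : ℕ} (hb : 2 ≤ b) {κ C κ' C' : ℝ} (hκ0 : 0 ≤ κ) (hκ : κ < b) {g : ℕ → ℝ}
    (hg : ∀ p, |g p| ≤ C * κ ^ p) (hκ0' : 0 ≤ κ') (hκ' : κ' < b) {g' : ℕ → ℝ}
    (hg' : ∀ p, |g' p| ≤ C' * κ' ^ p) (b0 : ℝ) :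
    ∃ K D : ℝ, 0 < K ∧ 1 ≤ D ∧ ∃ P : ℕ, 3 ≤ P ∧ ∀ m ≥ P, ∀ n : ℕ, m ≤ n →
    (volume.restrict (Set.Ioc b0 (b0 + 1))) (both2 b g g' m n) ≤
      ENNReal.ofReal (K * (1 / (m : ℝ)) ^ 2 + EE K D m n) := by
  obtain ⟨C0, hC0, hcore⟩ := gen_core hb
  have hbr : (2 : ℝ) ≤ b := by exact_mod_cast hb
  have hb0 : (0 : ℝ) < b := by linarith
  set L := Real.log b with hL
  have hL0 : 0 < L := Real.log_pos (by linarith)
  obtain ⟨A, hA⟩ : ∃ A : ℕ, A = ⌈L + |b0|⌉₊ + 1 := ⟨_, rfl⟩
  have hA1 : (1 : ℝ) ≤ A := by rw [hA]; push_cast; linarith [Nat.cast_nonneg (α := ℝ) ⌈L + |b0|⌉₊]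
  have hAL : L + |b0| ≤ A := by
    rw [hA]
    push_cast
    linarith [Nat.le_ceil (L + |b0|)]
  obtain ⟨D, hD⟩ : ∃ D : ℝ, D = 200 * A / L ^ 2 + 15 * A / L + 1 := ⟨_, rfl⟩
  have hD1 : 1 ≤ D := by
    rw [hD]
    have h1 : 0 ≤ 200 * (A : ℝ) / L ^ 2 := by positivity
    have h2 : 0 ≤ 15 * (A : ℝ) / L := by positivity
    linarith
  have hDa : 200 * A / L ^ 2 ≤ D := by
    rw [hD]
    have h2 : 0 ≤ 15 * (A : ℝ) / L := by positivity
    linarith
  have hDb : 15 * A / L ≤ D := by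
    rw [hD]
    have h1 : 0 ≤ 200 * (A : ℝ) / L ^ 2 := by positivity
    linarith
  obtain ⟨P1, hP1⟩ := eventually_atTop.1 (pert8 hb0 hκ0 hκ hg b0 16)
  obtain ⟨P3, hP3⟩ := eventually_atTop.1 (pert8 hb0 hκ0' hκ' hg' b0 16)
  have hlarge : ∀ᶠ m : ℕ in atTop, 2 * (|b0| + 64) / L + A * (1 + D) < m :=
    tendsto_natCast_atTop_atTop.eventually_gt_atTop _
  obtain ⟨P2, hP2⟩ := eventually_atTop.1 hlarge
  refine ⟨16 * C0 / L ^ 2, D, by positivity, hD1, P1 + P2 + P3 + 3, by omega, fun m hm n hmn => ?_⟩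
  have hm2 := hP2 m (by omega)
  have hm3 : (3 : ℝ) ≤ m := by exact_mod_cast (by omega : 3 ≤ m)
  have hm0 : (0 : ℝ) < m := by linarith
  have hbn := neg_abs_le b0
  have hAD : (A : ℝ) * (1 + D) ≤ m := by
    have h1 : 0 ≤ 2 * (|b0| + 64) / L := by positivity
    linarith
  have hml : 2 * (|b0| + 64) < L * m := by
    have h1 : 0 ≤ (A : ℝ) * (1 + D) := by positivity
    have h2 : 2 * (|b0| + 64) / L < m := by linarith
    rw [div_lt_iff₀ hL0] at h2
    linarith
  obtain ⟨h, hnh⟩ : ∃ h, n = m + h := ⟨n - m, by omega⟩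
  have hh0 : (0 : ℝ) ≤ h := Nat.cast_nonneg h
  obtain ⟨E, hE⟩ : ∃ E, E = Real.exp b0 * (b : ℝ) ^ m := ⟨_, rfl⟩
  have hpow : ∀ k : ℕ, (b : ℝ) ^ k = Real.exp (L * k) := fun k => by
    rw [hL, mul_comm, Real.exp_nat_mul, Real.exp_log hb0]
  have hEe : E = Real.exp (b0 + L * m) := by rw [hE, hpow, Real.exp_add]
  have hlogE : Real.log E = b0 + L * m := by rw [hEe, Real.log_exp]
  have hlow : L * m / 2 ≤ Real.log E := by rw [hlogE]; linarith
  have hE64 : 64 ≤ E := by
    rw [hEe]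
    have h1 := Real.add_one_le_exp (b0 + L * m)
    have h2 := abs_nonneg b0
    linarith
  have hgm : |g m| ≤ E / 16 := by
    have h1 := hP1 m (by omega)
    have e : Real.log (b : ℝ) * m + b0 = b0 + L * m := by rw [hL]; ring
    rw [e, ← hEe] at h1
    push_cast at h1
    linarith
  have hgn : |g' (m + h)| ≤ (b : ℝ) ^ h * E / 16 := by
    have h1 := hP3 (m + h) (by omega)
    have e : Real.exp (Real.log (b : ℝ) * ((m + h : ℕ) : ℝ) + b0) = (b : ℝ) ^ h * E := by
      rw [hEe, hpow, ← Real.exp_add]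
      congr 1
      rw [hL]
      push_cast
      ring
    rw [e] at h1
    push_cast at h1
    linarith
  obtain ⟨y, hy⟩ : ∃ y : ℕ, y = A * (m + h) := ⟨_, rfl⟩
  have hyr : (y : ℝ) = A * (m + h) := by rw [hy]; push_cast; ring
  have hy3 : 3 ≤ y := by
    have : (3 : ℝ) ≤ y := by
      rw [hyr]
      nlinarith
    exact_mod_cast this
  have hylog : Real.log ((b : ℝ) ^ h * E) ≤ y := by
    have e : (b : ℝ) ^ h * E = Real.exp (L * h + (b0 + L * m)) := by
      rw [hEe, hpow, ← Real.exp_add]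
    rw [e, Real.log_exp, hyr]
    have h1 : (L + |b0|) * (m + h) ≤ A * (m + h) := mul_le_mul_of_nonneg_right hAL (by positivity)
    have h2 : b0 ≤ |b0| * (m + h) := by
      have h3 := le_abs_self b0
      have h4 := abs_nonneg b0
      nlinarith
    nlinarith
  obtain ⟨c1, c2⟩ := hcore g g' b0 m h y E hy3 hE hE64 hgm hgn hylog
  rw [hnh]
  have hLm : 0 < L * m / 2 := by positivity
  have hsq : (L * m / 2) ^ 2 ≤ (Real.log E) ^ 2 := pow_le_pow_left₀ hLm.le hlow 2
  have hpos : 0 ≤ 16 * C0 / L ^ 2 * (1 / (m : ℝ)) ^ 2 := by positivity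
  by_cases hc : (((m + h : ℕ) : ℝ)) - m ≤ D * Real.sqrt m
  · refine c2.trans (ENNReal.ofReal_le_ofReal ?_)
    unfold EE
    rw [if_pos hc]
    have hc' : (h : ℝ) ≤ D * m := by
      have h1 : (h : ℝ) ≤ D * Real.sqrt m := by
        push_cast at hc
        linarith
      have h2 : Real.sqrt m ≤ m := by
        rw [Real.sqrt_le_left hm0.le]
        nlinarith
      exact h1.trans (mul_le_mul_of_nonneg_left h2 (by linarith))
    have hlogy : Real.log y ≤ 2 * Real.log m := by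
      have h1 : (y : ℝ) ≤ m ^ 2 := by
        rw [hyr]
        calc (A : ℝ) * (m + h) ≤ A * (m + D * m) := by
              apply mul_le_mul_of_nonneg_left _ (by linarith)
              linarith
          _ = (A * (1 + D)) * m := by ring
          _ ≤ m * m := mul_le_mul_of_nonneg_right hAD hm0.le
          _ = _ := by ring
      have h2 : (0 : ℝ) < y := by exact_mod_cast (by omega : 0 < y)
      have h3 := Real.log_le_log h2 h1
      rw [Real.log_pow] at h3
      push_cast at h3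
      exact h3
    have hlogy0 : 0 ≤ Real.log y := Real.log_nonneg (by exact_mod_cast (by omega : 1 ≤ y))
    calc C0 * (Real.log y) ^ 2 / (Real.log E) ^ 2 ≤
          C0 * (2 * Real.log m) ^ 2 / (L * m / 2) ^ 2 := by
          refine div_le_div₀ (by positivity) ?_ (by positivity) hsq
          exact mul_le_mul_of_nonneg_left (pow_le_pow_left₀ hlogy0 hlogy 2) hC0.le
      _ = 16 * C0 / L ^ 2 * (Real.log m) ^ 2 / (m : ℝ) ^ 2 := by
          field_simp
          ring
      _ ≤ _ := by linarith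
  · refine c1.trans (ENNReal.ofReal_le_ofReal ?_)
    unfold EE
    rw [if_neg hc, add_zero]
    have hc' : D * Real.sqrt m < h := by
      push_cast at hc
      linarith
    have hsm : Real.sqrt m ^ 2 = m := Real.sq_sqrt hm0.le
    have hsm1 : 1 ≤ Real.sqrt m := by rw [Real.one_le_sqrt]; linarith
    have hhD : D ≤ h := by nlinarith
    have hexp : Real.exp (10 * Real.sqrt y) ≤ (b : ℝ) ^ h := by
      rw [hpow]
      apply Real.exp_le_exp.2
      have h1 : Real.sqrt y ≤ L * h / 10 := by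
        rw [Real.sqrt_le_left (by positivity), hyr]
        have h2 : (m : ℝ) * D ^ 2 ≤ h ^ 2 := by
          have h3 : (D * Real.sqrt m) ^ 2 ≤ (h : ℝ) ^ 2 := pow_le_pow_left₀ (by positivity) hc'.le 2
          rw [mul_pow, hsm] at h3
          linarith
        have h4 : (200 : ℝ) * A ≤ D * L ^ 2 := by
          rwa [div_le_iff₀ (by positivity)] at hDa
        have h5 : (15 : ℝ) * A ≤ D * L := by
          rwa [div_le_iff₀ hL0] at hDb
        have h6 : (200 : ℝ) * A ≤ D ^ 2 * L ^ 2 := by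
          have h7 : (15 * (A : ℝ)) ^ 2 ≤ (D * L) ^ 2 := pow_le_pow_left₀ (by positivity) h5 2
          nlinarith
        have h7 : (200 : ℝ) * A * m ≤ L ^ 2 * h ^ 2 := by
          calc (200 : ℝ) * A * m ≤ (D ^ 2 * L ^ 2) * m := mul_le_mul_of_nonneg_right h6 hm0.le
            _ = L ^ 2 * (m * D ^ 2) := by ring
            _ ≤ _ := mul_le_mul_of_nonneg_left h2 (by positivity)
        have h8 : (200 : ℝ) * A * h ≤ L ^ 2 * h ^ 2 := by
          calc (200 : ℝ) * A * h ≤ (D * L ^ 2) * h := mul_le_mul_of_nonneg_right h4 (by positivity)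
            _ = L ^ 2 * (D * h) := by ring
            _ ≤ L ^ 2 * (h * h) :=
                mul_le_mul_of_nonneg_left (mul_le_mul_of_nonneg_right hhD (by positivity))
                  (by positivity)
            _ = _ := by ring
        nlinarith
      linarith
    have hb1 : 0 < (b : ℝ) ^ h := by positivity
    have h1 : 1 + Real.exp (10 * Real.sqrt y) / (b : ℝ) ^ h ≤ 2 := by
      have : Real.exp (10 * Real.sqrt y) / (b : ℝ) ^ h ≤ 1 := by
        rw [div_le_one hb1]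
        exact hexp
      linarith
    calc C0 * (1 + Real.exp (10 * Real.sqrt y) / (b : ℝ) ^ h) / (Real.log E) ^ 2 ≤
          C0 * 2 / (L * m / 2) ^ 2 := by
          refine div_le_div₀ (by positivity) ?_ (by positivity) hsq
          exact mul_le_mul_of_nonneg_left h1 hC0.le
      _ = 8 * C0 / L ^ 2 * (1 / (m : ℝ)) ^ 2 := by
          field_simp
          ring
      _ ≤ 16 * C0 / L ^ 2 * (1 / (m : ℝ)) ^ 2 := by
          apply mul_le_mul_of_nonneg_right _ (by positivity)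
          exact div_le_div_of_nonneg_right (by linarith) (by positivity)

/-- the sum of the losses -/
lemma EE_row {K D : ℝ} (hK : 0 ≤ K) (hD : 1 ≤ D) : ∃ C : ℝ, 0 < C ∧ ∃ P : ℕ, ∀ q ≥ P,
    ∀ T : Finset ℕ, (∀ p ∈ T, p < q ∧ q ≤ 2 * p) → ∑ p ∈ T, EE K D p q ≤ C * wt q := by
  have hev : ∀ᶠ q : ℕ in atTop, (Real.log q) ^ 2 ≤ Real.sqrt q := by
    have h1 : Tendsto (fun x : ℝ => Real.log x ^ 4 / x) atTop (𝓝 0) := by
      have := Real.tendsto_pow_log_div_mul_add_atTop 1 0 4 one_ne_zero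
      simpa using this
    have h2 := (h1.comp tendsto_natCast_atTop_atTop (α := ℕ)).eventually (gt_mem_nhds one_pos)
    filter_upwards [h2, eventually_ge_atTop 1] with q h3 h4
    have hq0 : (0 : ℝ) < q := by exact_mod_cast h4
    have h5 : Real.log q ^ 4 ≤ q := by
      have h6 : Real.log (q : ℝ) ^ 4 / q < 1 := h3
      rw [div_lt_one hq0] at h6
      exact h6.le
    apply Real.le_sqrt_of_sq_le
    have h7 : (Real.log (q : ℝ) ^ 2) ^ 2 = Real.log (q : ℝ) ^ 4 := by ring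
    rw [h7]
    exact h5
  obtain ⟨P, hP⟩ := eventually_atTop.1 hev
  refine ⟨4 * K * (D + 1) + 1, by positivity, P + 3, fun q hq T hT => ?_⟩
  have hq3 : (3 : ℝ) ≤ q := by exact_mod_cast (by omega : 3 ≤ q)
  have hq0 : (0 : ℝ) < q := by linarith
  have hlq := hP q (by omega)
  have hsq0 : 0 ≤ Real.sqrt q := Real.sqrt_nonneg _
  have hsq1 : 1 ≤ Real.sqrt q := by rw [Real.one_le_sqrt]; linarith
  have hss : Real.sqrt q * Real.sqrt q = q := Real.mul_self_sqrt hq0.le
  classical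
  have h1 : ∑ p ∈ T, EE K D p q ≤ ∑ p ∈ T.filter (fun p : ℕ => (q : ℝ) - p ≤ D * Real.sqrt q),
      4 * K * (Real.log q) ^ 2 / (q : ℝ) ^ 2 := by
    rw [Finset.sum_filter]
    refine Finset.sum_le_sum fun p hp => ?_
    obtain ⟨hp1, hp2⟩ := hT p hp
    have hpq : (p : ℝ) ≤ q := by exact_mod_cast hp1.le
    have hpq2 : (q : ℝ) ≤ 2 * p := by exact_mod_cast hp2
    have hp0 : (0 : ℝ) < p := by linarith
    have hp1' : (1 : ℝ) ≤ p := by exact_mod_cast (by omega : 1 ≤ p)
    unfold EE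
    by_cases hc : (q : ℝ) - p ≤ D * Real.sqrt p
    · have hc2 : (q : ℝ) - p ≤ D * Real.sqrt q :=
        hc.trans (mul_le_mul_of_nonneg_left (Real.sqrt_le_sqrt hpq) (by linarith))
      rw [if_pos hc, if_pos hc2]
      have h2 : (Real.log (p : ℝ)) ^ 2 ≤ (Real.log q) ^ 2 :=
        pow_le_pow_left₀ (Real.log_nonneg hp1') (Real.log_le_log hp0 hpq) 2
      have h3 : (q : ℝ) ^ 2 / 4 ≤ (p : ℝ) ^ 2 := by nlinarith
      calc K * (Real.log (p : ℝ)) ^ 2 / (p : ℝ) ^ 2 ≤ K * (Real.log q) ^ 2 / ((q : ℝ) ^ 2 / 4) :=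
            div_le_div₀ (by positivity) (mul_le_mul_of_nonneg_left h2 hK) (by positivity) h3
        _ = _ := by field_simp
    · rw [if_neg hc]
      split_ifs
      · positivity
      · exact le_rfl
  have hcard : ((T.filter (fun p : ℕ => (q : ℝ) - p ≤ D * Real.sqrt q)).card : ℝ) ≤
      (D + 1) * Real.sqrt q := by
    obtain ⟨N, hN⟩ : ∃ N : ℕ, N = ⌊D * Real.sqrt q⌋₊ := ⟨_, rfl⟩
    have hN1 : (N : ℝ) ≤ D * Real.sqrt q := by
      rw [hN]
      exact Nat.floor_le (by positivity)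
    have hsub : T.filter (fun p : ℕ => (q : ℝ) - p ≤ D * Real.sqrt q) ⊆ Finset.Ico (q - N) q := by
      intro p hp
      rw [Finset.mem_filter] at hp
      have h2 := (hT p hp.1).1
      rw [Finset.mem_Ico]
      refine ⟨?_, h2⟩
      have h3 : ((q - p : ℕ) : ℝ) ≤ D * Real.sqrt q := by
        rw [Nat.cast_sub h2.le]
        exact hp.2
      have h4 : q - p ≤ N := by
        rw [hN]
        exact Nat.le_floor h3
      omega
    have h2 := Finset.card_le_card hsub
    rw [Nat.card_Ico] at h2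
    have h3 : ((T.filter (fun p : ℕ => (q : ℝ) - p ≤ D * Real.sqrt q)).card : ℝ) ≤ N := by
      have : (T.filter (fun p : ℕ => (q : ℝ) - p ≤ D * Real.sqrt q)).card ≤ N := by omega
      exact_mod_cast this
    nlinarith
  refine h1.trans ?_
  rw [Finset.sum_const, nsmul_eq_mul]
  have h0 : 0 ≤ 4 * K * (Real.log q) ^ 2 / (q : ℝ) ^ 2 := by positivity
  calc ((T.filter (fun p : ℕ => (q : ℝ) - p ≤ D * Real.sqrt q)).card : ℝ) *
        (4 * K * (Real.log q) ^ 2 / (q : ℝ) ^ 2) ≤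
        ((D + 1) * Real.sqrt q) * (4 * K * (Real.log q) ^ 2 / (q : ℝ) ^ 2) :=
        mul_le_mul_of_nonneg_right hcard h0
    _ ≤ ((D + 1) * Real.sqrt q) * (4 * K * Real.sqrt q / (q : ℝ) ^ 2) := by
        refine mul_le_mul_of_nonneg_left ?_ (by positivity)
        refine div_le_div_of_nonneg_right ?_ (by positivity)
        exact mul_le_mul_of_nonneg_left hlq (by positivity)
    _ = 4 * K * (D + 1) * (Real.sqrt q * Real.sqrt q) / (q : ℝ) ^ 2 := by ring
    _ = 4 * K * (D + 1) * wt q := by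
        rw [hss]
        unfold wt
        field_simp
    _ ≤ _ := by
        have := wt_nonneg q
        nlinarith

end Pool.Agent.X10.AI
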