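import Mathlib
import Pool.Agent.X10.AI.Gen4

set_option autoImplicit false

/-!
# Systems with a loss for very close indices
-/

namespace Pool.Agent.X10.AI

open Finset Filter Topology MeasureTheory
open Pool.Agent.W66X (int_comp int_bdd)
open Pool.Agent.H447R2.ML (Sh)
open Pool.Agent.H305R2 (gg LL measurable_gg abs_gg_le abs_gg_le_one LL_nonneg LL_cont
  LL_le_one ff measurable_ff ff_nonneg ff_le_one log_nat_tendsto NN)

/-- abstract row sum -/
lemma row_all2 {κ K : ℝ} (hκ : 0 < κ) (hK : 0 < K) (J : ℕ → ℕ → ℝ) (P : ℕ)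
    (hfar : ∀ q ≥ P, ∀ p : ℕ, (p : ℝ) ≤ κ * q / Real.log q → |J p q| ≤ K * (1 / (q : ℝ) ^ 2))
    (W : ℕ → ℕ → ℝ) (hW0 : ∀ p q, 0 ≤ W p q)
    (hW : ∀ q ≥ P, ∀ T : Finset ℕ, (∀ p ∈ T, p < q ∧ q ≤ 2 * p) → ∑ p ∈ T, W p q ≤ K * wt q)
    (hpair : ∀ p ≥ P, ∀ q : ℕ, p < q →
      |J p q| ≤ K * (wt p * wt q) + if q ≤ 2 * p then W p q else 0) :
    ∃ C : ℝ, 0 < C ∧ ∃ P' : ℕ, P ≤ P' ∧ 3 ≤ P' ∧ ∀ q ≥ P', ∀ T : Finset ℕ,
      (∀ p ∈ T, 2 ≤ p ∧ P' ≤ p ∧ p < q) → ∑ p ∈ T, |J p q| ≤
        C * (wt q * (1 + ∑ p ∈ T.filter (fun p : ℕ => κ * q / Real.log q < (p : ℝ)), wt p)) := by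
  refine ⟨2 * K, by positivity, P + 3, by omega, by omega, fun q hq T hTm => ?_⟩
  have hq3 : (3 : ℝ) ≤ q := by exact_mod_cast (by omega : 3 ≤ q)
  have hq0 : (0 : ℝ) < q := by linarith
  classical
  set F := T.filter (fun p : ℕ => ¬ κ * q / Real.log q < (p : ℝ)) with hF
  set L := T.filter (fun p : ℕ => κ * q / Real.log q < (p : ℝ)) with hL
  have hsplit : ∑ p ∈ T, |J p q| = ∑ p ∈ L, |J p q| + ∑ p ∈ F, |J p q| := by
    rw [hL, hF]
    exact (Finset.sum_filter_add_sum_filter_not T _ _).symm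
  have hsF : ∑ p ∈ F, |J p q| ≤ K * wt q := by
    have hcard : (F.card : ℝ) ≤ q := by
      have h1 : F ⊆ Finset.range q := by
        intro p hp
        rw [hF, mem_filter] at hp
        rw [mem_range]
        exact (hTm p hp.1).2.2
      have h2 := Finset.card_le_card h1
      rw [Finset.card_range] at h2
      exact_mod_cast h2
    calc ∑ p ∈ F, |J p q| ≤ ∑ p ∈ F, K * (1 / (q : ℝ) ^ 2) :=
          Finset.sum_le_sum fun p hp => hfar q (by omega) p (not_lt.1 (mem_filter.1 hp).2)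
      _ = F.card * (K * (1 / (q : ℝ) ^ 2)) := by rw [Finset.sum_const, nsmul_eq_mul]
      _ ≤ q * (K * (1 / (q : ℝ) ^ 2)) := by gcongr
      _ = K * wt q := by unfold wt; field_simp
  have hsL : ∑ p ∈ L, |J p q| ≤ K * (wt q * ∑ p ∈ L, wt p) + K * wt q := by
    have h1 : ∀ p ∈ L, |J p q| ≤ (K * wt q) * wt p + if q ≤ 2 * p then W p q else 0 := by
      intro p hp
      rw [hL, mem_filter] at hp
      have h2 := hTm p hp.1
      refine (hpair p (by omega) q h2.2.2).trans (le_of_eq ?_)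
      ring
    have h3 : ∑ p ∈ L, (if q ≤ 2 * p then W p q else 0) ≤ K * wt q := by
      rw [← Finset.sum_filter]
      refine hW q (by omega) _ fun p hp => ?_
      rw [Finset.mem_filter] at hp
      have h4 := hp.1
      rw [hL, Finset.mem_filter] at h4
      exact ⟨(hTm p h4.1).2.2, hp.2⟩
    calc ∑ p ∈ L, |J p q| ≤ ∑ p ∈ L, ((K * wt q) * wt p + if q ≤ 2 * p then W p q else 0) :=
          Finset.sum_le_sum h1
      _ = (K * wt q) * ∑ p ∈ L, wt p + ∑ p ∈ L, (if q ≤ 2 * p then W p q else 0) := by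
          rw [Finset.sum_add_distrib, Finset.mul_sum]
      _ ≤ (K * wt q) * ∑ p ∈ L, wt p + K * wt q := by linarith
      _ = _ := by ring
  rw [hsplit]
  have hnn : 0 ≤ K * (wt q * ∑ p ∈ L, wt p) := by
    have := wt_nonneg q
    have h1 : 0 ≤ ∑ p ∈ L, wt p := Finset.sum_nonneg fun p _ => wt_nonneg p
    positivity
  calc ∑ p ∈ L, |J p q| + ∑ p ∈ F, |J p q| ≤
        (K * (wt q * ∑ p ∈ L, wt p) + K * wt q) + K * wt q := add_le_add hsL hsF
    _ ≤ 2 * (K * (wt q * ∑ p ∈ L, wt p)) + 2 * (K * wt q) := by linarith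
    _ = _ := by ring

/-- **A shift family is a system on every window.** -/
theorem sys_all2 {a : ℝ} (ha : 0 < a) {y y' : ℕ → ℝ → ℝ} (hym : ∀ p, Measurable (y p))
    (hfam : ∀ a0 a1 : ℝ, a0 < a1 → ∀ᶠ p : ℕ in atTop, Sh a a0 a1 p (y p) (y' p))
    (hw : ∀ b0 : ℝ, ∃ P : ℕ, ∀ p ≥ P, ∀ q ≥ P, p ≤ q → ∃ w : ℝ → ℝ, Measurable w ∧
      MonotoneOn w (Set.Icc (a * q + b0 - 1) (a * q + b0 + 2)) ∧
      (∀ s ∈ Set.Icc (a * q + b0 - 1) (a * q + b0 + 2), ∀ t ∈ Set.Icc (a * q + b0 - 1) (a * q + b0 + 2),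
        |w s - w t| ≤ 2 * |s - t|) ∧ w (a * q + b0 + 2) ≤ a * p + |b0| + 3 ∧
      ∀ t ∈ Set.Ioc b0 (b0 + 1), w (y q t) = y p t)
    (hnear : ∀ b0 : ℝ, ∃ K : ℝ, 0 < K ∧ ∃ (P : ℕ) (W : ℕ → ℕ → ℝ), (∀ p q, 0 ≤ W p q) ∧
      (∀ q ≥ P, ∀ T : Finset ℕ, (∀ p ∈ T, p < q ∧ q ≤ 2 * p) → ∑ p ∈ T, W p q ≤ K * wt q) ∧
      ∀ p ≥ P, ∀ q : ℕ, p < q → q ≤ 2 * p →
      ∫ t in Set.Ioc b0 (b0 + 1), ff 1 (y p t) * ff 1 (y q t) ≤ K * (1 / (p : ℝ)) ^ 2 + W p q)
    (b0 : ℝ) :
    Sys (volume.restrict (Set.Ioc b0 (b0 + 1))) (fun p t => ff 1 (y p t)) (fun p t => LL 1 (y p t))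
      (fun _ => 1 / a) := by
  obtain ⟨P0, hP0⟩ := eventually_atTop.1 (hfam (b0 - 1) (b0 + 2) (by linarith))
  obtain ⟨κ, K1, hκ, hK1, P1, h1⟩ := far_sh1 ha b0
  obtain ⟨K2, hK2, P2, h2⟩ := mid1 ha b0
  obtain ⟨K3, hK3, P3, W, hW0, hW, h3⟩ := hnear b0
  obtain ⟨K4, hK4, P4, hP43, h4⟩ := corr1 ha b0
  obtain ⟨K5, hK5, P5, hP53, h5⟩ := one1 ha b0
  obtain ⟨P6, h6⟩ := hw b0
  obtain ⟨P7, h7⟩ := eventually_atTop.1 (log_nat_tendsto.eventually_ge_atTop κ)
  obtain ⟨C8, hC8, h8⟩ := LL1_rate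
  have hmem : ∀ᵐ t ∂(volume.restrict (Set.Ioc b0 (b0 + 1))), t ∈ Set.Ioc b0 (b0 + 1) :=
    ae_restrict_mem measurableSet_Ioc
  refine ⟨fun q => (measurable_ff 1).comp (hym q), fun q => (LL_cont 1).measurable.comp (hym q),
    fun q t => ?_, fun q t => LL_nonneg 1 _, fun q t => LL_le_one 1 _, ?_, ?_, ?_, ?_⟩
  · simp only [ff_one]
    split_ifs
    · exact Or.inr rfl
    · exact Or.inl rfl
  · -- the mean
    have hlarge : ∀ᶠ p : ℕ in atTop, (|b0| + 4) * 2 / a < p :=
      tendsto_natCast_atTop_atTop.eventually_gt_atTop _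
    obtain ⟨P9, h9⟩ := eventually_atTop.1 hlarge
    refine ⟨4 * C8 / a ^ 2 + 2 * (|b0| + 3) / a ^ 2, by positivity, P0 + P9 + 1, ?_⟩
    filter_upwards [hmem] with t ht q hq hqp
    have hq2 : (2 : ℝ) ≤ q := by exact_mod_cast hqp
    have hq0 : (0 : ℝ) < q := by linarith
    have hq1 : 1 / (q : ℝ) ≤ 1 := by
      rw [div_le_one (by linarith)]
      linarith
    have hql := h9 q (by omega)
    rw [div_lt_iff₀ ha] at hql
    have e1 := abs_le.1 ((hP0 q (by omega)).near t ⟨by linarith [ht.1], by linarith [ht.2]⟩)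
    set Y := y q t with hY
    have e2 : |Y - a * q| ≤ |b0| + 3 := by
      have e3 := abs_le.1 (le_refl |b0|)
      rw [abs_le]
      constructor <;> linarith [e1.1, e1.2, ht.1, ht.2, e3.1, e3.2]
    have e2' := abs_le.1 e2
    have haq : 0 < a * q := by positivity
    have hb := abs_nonneg b0
    have hYlow : a / 2 * q ≤ Y := by linarith
    have hY2 : 2 ≤ Y := by linarith
    have hY0 : 0 < Y := by linarith
    have e3 := h8 Y hY2
    have e4 : C8 / Y ^ 2 ≤ 4 * C8 / a ^ 2 * (1 / (q : ℝ) ^ 2) := by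
      have e5 : 4 * C8 / a ^ 2 * (1 / (q : ℝ) ^ 2) = C8 / (a / 2 * q) ^ 2 := by
        field_simp
        norm_num
      rw [e5]
      refine div_le_div_of_nonneg_left hC8.le (by positivity) ?_
      exact pow_le_pow_left₀ (by positivity) hYlow 2
    have e6 : |1 / Y - 1 / (a * q)| ≤ 2 * (|b0| + 3) / a ^ 2 * (1 / (q : ℝ) ^ 2) := by
      have e7 : 1 / Y - 1 / (a * q) = -((Y - a * q) / (Y * (a * q))) := by field_simp; ring
      rw [e7, abs_neg, abs_div, abs_of_pos (by positivity : 0 < Y * (a * q))]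
      have e8 : 2 * (|b0| + 3) / a ^ 2 * (1 / (q : ℝ) ^ 2) = (|b0| + 3) / (a / 2 * q * (a * q)) := by
        field_simp
      rw [e8]
      refine div_le_div₀ (by linarith) e2 (by positivity) ?_
      exact mul_le_mul_of_nonneg_right hYlow haq.le
    have e9 : LL 1 Y - 1 / a * wt q = (LL 1 Y - 1 / Y) + (1 / Y - 1 / (a * q)) := by
      unfold wt
      field_simp
      ring
    rw [e9]
    refine (abs_add_le _ _).trans ?_
    linarith
  · exact ⟨1 / a, 1 / a, by positivity, Eventually.of_forall fun t => ⟨le_rfl, le_rfl⟩⟩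
  · set Q := P0 + P1 + P2 + P3 + P4 + P5 + P6 + P7 with hQ
    set J : ℕ → ℕ → ℝ := fun p q => if Q ≤ p then
      ∫ t in Set.Ioc b0 (b0 + 1), gg 1 (y p t) * gg 1 (y q t) else 0 with hJ
    set K := K1 + K2 + (2 * K3 + K4) with hK
    obtain ⟨C, hC, P', hP', hP3', hrow⟩     := row_all2 (κ := κ) (K := K) hκ (by positivity) J Q
      (by
        intro q hq p hp
        have hr : 0 ≤ 1 / (q : ℝ) ^ 2 := by positivity
        simp only [hJ]
        split_ifs with hpQ
        · have hlq := h7 q (by omega)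
          have hq0 : (0 : ℝ) < q := by exact_mod_cast (by omega : 0 < q)
          have hpq : p ≤ q := by
            have hl : 0 < Real.log q := lt_of_lt_of_le hκ hlq
            have : (p : ℝ) ≤ q := by
              refine hp.trans ?_
              rw [div_le_iff₀ hl]
              nlinarith
            exact_mod_cast this
          obtain ⟨w, w1, w2, w3, w4, w5⟩ := h6 p (by omega) q (by omega) hpq
          refine (h1 q (by omega) p (y q) (y' q) (y p) w (hP0 q (by omega)) w1 w2 w3 hp w4 w5).trans ?_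
          exact mul_le_mul_of_nonneg_right (by rw [hK]; linarith) hr
        · rw [abs_zero]; positivity)
      W hW0
      (by
        intro q hq T hT
        refine (hW q (by omega) T hT).trans ?_
        exact mul_le_mul_of_nonneg_right (by rw [hK]; linarith) (wt_nonneg q))
      (by
        intro p hp q hq
        have hww : 0 ≤ wt p * wt q := mul_nonneg (wt_nonneg p) (wt_nonneg q)
        simp only [hJ]
        rw [if_pos hp]
        rcases le_or_gt (2 * p) q with hc | hc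
        · have hif : (0 : ℝ) ≤ if q ≤ 2 * p then W p q else 0 := by
            split_ifs
            · exact hW0 p q
            · exact le_rfl
          refine (h2 p (by omega) q hc _ _ _ _ (hP0 p (by omega)) (hP0 q (by omega))).trans ?_
          have e9 : K2 * (wt p * wt q) ≤ K * (wt p * wt q) :=
            mul_le_mul_of_nonneg_right (by rw [hK]; linarith) hww
          linarith
        · have e1 := h4 p (by omega) q (by omega) _ _ _ _ (hP0 p (by omega)) (hP0 q (by omega))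
          have e2 := h3 p (by omega) q hq (by omega)
          have hp0 : (0 : ℝ) < p := by exact_mod_cast (by omega : 0 < p)
          have hq0 : (0 : ℝ) < q := by exact_mod_cast (by omega : 0 < q)
          have hqp : (q : ℝ) ≤ 2 * p := by exact_mod_cast hc.le
          have e3 : (1 / (p : ℝ)) ^ 2 ≤ 2 * (wt p * wt q) := by
            unfold wt
            have : 2 * (1 / (p : ℝ) * (1 / q)) = 1 / (p * (q / 2)) := by field_simp
            rw [this, one_div_pow]
            apply one_div_le_one_div_of_le (by positivity)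
            nlinarith
          rw [if_pos (by omega : q ≤ 2 * p)]
          calc _ ≤ _ := e1
            _ ≤ (K3 * (2 * (wt p * wt q)) + W p q) + K4 * (wt p * wt q) := by
                have := mul_le_mul_of_nonneg_left e3 hK3.le
                linarith
            _ = (2 * K3 + K4) * (wt p * wt q) + W p q := by ring
            _ ≤ _ := by
                have e9 : (2 * K3 + K4) * (wt p * wt q) ≤ K * (wt p * wt q) :=
                  mul_le_mul_of_nonneg_right (by rw [hK]; linarith) hww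
                linarith)
    refine ⟨κ, C + K5, hκ, by positivity, P', hP3', fun q hq _ => ?_, fun q hq _ T hT => ?_⟩
    · have e1 := (h5 q (by omega) _ _ (hP0 q (by omega))).2.2
      have e2 : ∫ t in Set.Ioc b0 (b0 + 1), (gg 1 (y q t)) ^ 2 ≤
          ∫ t in Set.Ioc b0 (b0 + 1), |gg 1 (y q t)| := by
        have hmg : Measurable (fun t : ℝ => gg 1 (y q t)) := (measurable_gg 1).comp (hym q)
        refine setIntegral_mono_on ?_ ?_ measurableSet_Ioc fun t _ => ?_
        · refine int_bdd (hmg.pow_const 2) (M := 1) (fun t => ?_) _ _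
          rw [abs_pow]
          exact pow_le_one₀ (abs_nonneg _) (abs_gg_le_one _ _)
        · refine int_bdd hmg.abs (M := 1) (fun t => ?_) _ _
          rw [abs_abs]
          exact abs_gg_le_one _ _
        · have h1 := abs_gg_le_one 1 (y q t)
          have h2 := abs_nonneg (gg 1 (y q t))
          rw [← sq_abs]
          nlinarith
      refine (e2.trans e1).trans ?_
      exact mul_le_mul_of_nonneg_right (by linarith) (wt_nonneg q)
    · have hsame : ∑ p ∈ T, |∫ t in Set.Ioc b0 (b0 + 1), gg 1 (y p t) * gg 1 (y q t)| =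
          ∑ p ∈ T, |J p q| := by
        refine Finset.sum_congr rfl fun p hp => ?_
        have := (hT p hp).2.1
        simp only [hJ]
        rw [if_pos (hP'.trans this)]
      have e1 := hrow q hq T hT
      rw [← hsame] at e1
      refine e1.trans ?_
      refine mul_le_mul_of_nonneg_right (by linarith) ?_
      have : 0 ≤ ∑ p ∈ T.filter (fun p : ℕ => κ * q / Real.log q < (p : ℝ)), wt p :=
        Finset.sum_nonneg fun p _ => wt_nonneg p
      exact mul_nonneg (wt_nonneg q) (by linarith)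
  · refine ⟨K5, hK5.le, P0 + P5, fun q hq _ => ?_⟩
    exact (h5 q (by omega) _ _ (hP0 q (by omega))).2.1

end Pool.Agent.X10.AI
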