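import Mathlib
import Pool.Agent.X10.AI.Gen5

set_option autoImplicit false

/-!
# Law and spacing in an integer base, general second term
-/

namespace Pool.Agent.X10.AI

open Finset Filter Topology MeasureTheory Asymptotics
open Pool.Agent.H305R2 (log_nat_tendsto NN ff)
open Pool.Agent.H447R2.ML (Sh sh_of)
open Pool.Agent.TH888.R (gr one_le_gr gr_mono gr_le gr_all gr_set bigO_set loglog_tendsto ae_windows)
open Pool.Agent.W66X (ysh measurable_ysh trans_shift pert8 exp_ysh ae_of_exp')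

/-- **The law for the integers `⌊β α ^ m + g m⌋`, with a loss for very close indices.** -/
theorem pt_floor2 {α κ C : ℝ} {g : ℕ → ℝ}
    (hα : 1 < α) (hκ0 : 0 ≤ κ) (hκ : κ < α) (hg : ∀ p, |g p| ≤ C * κ ^ p)
    (hnear : ∀ b0 : ℝ, ∃ K : ℝ, 0 < K ∧ ∃ (P : ℕ) (W : ℕ → ℕ → ℝ), (∀ p q, 0 ≤ W p q) ∧
      (∀ q ≥ P, ∀ T : Finset ℕ, (∀ p ∈ T, p < q ∧ q ≤ 2 * p) → ∑ p ∈ T, W p q ≤ K * wt q) ∧
      ∀ p ≥ P, ∀ q : ℕ, p < q → q ≤ 2 * p →
      ∫ t in Set.Ioc b0 (b0 + 1), ff 1 (ysh α g p t) * ff 1 (ysh α g q t) ≤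
        K * (1 / (p : ℝ)) ^ 2 + W p q)
    (S : Set ℕ) : ∀ᵐ β : ℝ, 0 < β → Pt (fun p => ⌊β * α ^ p + g p⌋₊) (1 / Real.log α) S := by
  have hα0 : 0 < α := by linarith
  refine ae_of_exp' (P := fun β : ℝ => Pt (fun p => ⌊β * α ^ p + g p⌋₊)
    (1 / Real.log α) S) (ae_windows fun b0 => ?_)
  have hsys := sys_all2 (Real.log_pos hα) (measurable_ysh α g)
    (fun a0 a1 _ => sh_of (by linarith) hκ0 hκ hg a0 a1)
    (fun b0 => trans_shift hα hκ0 hκ hg b0) hnear b0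
  refine hsys.pt (s := fun t p => ⌊Real.exp t * α ^ p + g p⌋₊) ?_ S
  filter_upwards [ae_restrict_of_ae (ae_ne hα0 g)] with t htn
  obtain ⟨P, hP⟩ := eventually_atTop.1 (pert8 hα0 hκ0 hκ hg t 8)
  refine ⟨P, fun p hp => ?_⟩
  have h1 : NN (ysh α g p t) = ⌊Real.exp t * α ^ p + g p⌋₊ :=
    NN_floor (exp_ysh hα0 (hP p hp) le_rfl).2.1 (fun j => htn p j)
  rw [ff_one, h1]

lemma both_sub {α : ℝ} {g : ℕ → ℝ} {m n : ℕ} (hmn : m < n) : both α g m n ⊆ both2 α g g m n := by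
  rintro t ⟨h1, h2⟩
  exact ⟨h1, h2, fun h => absurd h hmn.ne⟩

lemma integral_both {α : ℝ} {g : ℕ → ℝ} {m n : ℕ} {b0 B : ℝ} (hB : 0 ≤ B)
    (h : (volume.restrict (Set.Ioc b0 (b0 + 1))) (both α g m n) ≤ ENNReal.ofReal B) :
    ∫ t in Set.Ioc b0 (b0 + 1), ff 1 (ysh α g m t) * ff 1 (ysh α g n t) ≤ B := by
  have e : ∫ t in Set.Ioc b0 (b0 + 1), ff 1 (ysh α g m t) * ff 1 (ysh α g n t) =
      (volume.restrict (Set.Ioc b0 (b0 + 1))).real (both α g m n) := by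
    simp only [ff_mul_eq]
    rw [integral_indicator_const _ (measurableSet_both α g m n), smul_eq_mul, mul_one]
  rw [e, measureReal_def]
  exact ENNReal.toReal_le_of_le_ofReal hB h

/-- **The law in an integer base, general second term.** -/
theorem law_gen {b : ℕ} (hb : 2 ≤ b) {κ C : ℝ} (hκ0 : 0 ≤ κ) (hκ : κ < b) {g : ℕ → ℝ}
    (hg : ∀ p, |g p| ≤ C * κ ^ p) (S : Set ℕ) :
    ∀ᵐ β : ℝ, 0 < β → Pt (fun p => ⌊β * (b : ℝ) ^ p + g p⌋₊) (1 / Real.log b) S := by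
  have hbr : (2 : ℝ) ≤ b := by exact_mod_cast hb
  refine pt_floor2 (by linarith) hκ0 hκ hg (fun b0 => ?_) S
  obtain ⟨K, D, hK, hD, P, hP3, hP⟩ := gen_pair hb hκ0 hκ hg hκ0 hκ hg b0
  obtain ⟨C1, hC1, P1, h1⟩ := EE_row hK.le hD
  refine ⟨K + C1, by positivity, P + P1, EE K D, EE_nonneg hK.le, fun q hq T hT => ?_,
    fun p hp q hpq _ => ?_⟩
  · refine (h1 q (by omega) T hT).trans ?_
    exact mul_le_mul_of_nonneg_right (by linarith) (wt_nonneg q)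
  · have h2 : 0 ≤ EE K D p q := EE_nonneg hK.le p q
    refine (integral_both (by positivity)
      ((measure_mono (both_sub hpq)).trans (hP p (by omega) q hpq.le))).trans ?_
    have h3 : K * (1 / (p : ℝ)) ^ 2 ≤ (K + C1) * (1 / (p : ℝ)) ^ 2 :=
      mul_le_mul_of_nonneg_right (by linarith) (by positivity)
    linarith

lemma summable_loss : Summable (fun m : ℕ => Real.sqrt m * (Real.log m) ^ 2 / (m : ℝ) ^ 2) := by
  have h1 : Summable (fun m : ℕ => 64 * (m : ℝ) ^ (-(5 / 4) : ℝ)) :=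
    (Real.summable_nat_rpow.2 (by norm_num)).mul_left 64
  refine Summable.of_nonneg_of_le (fun m => by positivity) (fun m => ?_) h1
  rcases Nat.eq_zero_or_pos m with h0 | h0
  · subst h0
    simp
  · have hm : (0 : ℝ) < m := by exact_mod_cast h0
    have h2 : Real.log (m : ℝ) ≤ (m : ℝ) ^ (1 / 8 : ℝ) / (1 / 8) :=
      Real.log_le_rpow_div hm.le (by norm_num)
    have h3 : 0 ≤ Real.log (m : ℝ) := Real.log_nonneg (by exact_mod_cast h0)
    have h4 : (Real.log (m : ℝ)) ^ 2 ≤ 64 * (m : ℝ) ^ (1 / 4 : ℝ) := by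
      calc (Real.log (m : ℝ)) ^ 2 ≤ ((m : ℝ) ^ (1 / 8 : ℝ) / (1 / 8)) ^ 2 := pow_le_pow_left₀ h3 h2 2
        _ = 64 * ((m : ℝ) ^ (1 / 8 : ℝ)) ^ 2 := by ring
        _ = 64 * (m : ℝ) ^ (1 / 4 : ℝ) := by
            rw [← Real.rpow_natCast, ← Real.rpow_mul hm.le]
            norm_num
    have e : (m : ℝ) ^ (-(5 / 4) : ℝ) = Real.sqrt m * (m : ℝ) ^ (1 / 4 : ℝ) / (m : ℝ) ^ 2 := by
      rw [Real.sqrt_eq_rpow, ← Real.rpow_natCast, ← Real.rpow_add hm, ← Real.rpow_sub hm]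
      norm_num
    rw [e]
    calc Real.sqrt m * (Real.log m) ^ 2 / (m : ℝ) ^ 2 ≤
          Real.sqrt m * (64 * (m : ℝ) ^ (1 / 4 : ℝ)) / (m : ℝ) ^ 2 := by
          gcongr
      _ = _ := by ring

/-- **Spacing in an integer base, general second terms.** -/
theorem spacing_gen {b : ℕ} (hb : 2 ≤ b) {κ C κ' C' : ℝ} (hκ0 : 0 ≤ κ) (hκ : κ < b) {g : ℕ → ℝ}
    (hg : ∀ p, |g p| ≤ C * κ ^ p) (hκ0' : 0 ≤ κ') (hκ' : κ' < b) {g' : ℕ → ℝ}
    (hg' : ∀ p, |g' p| ≤ C' * κ' ^ p)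
    (W : ℕ → ℕ) (hW : Summable fun m : ℕ => (W m : ℝ) / (m : ℝ) ^ 2) :
    ∀ᵐ β : ℝ, 0 < β → ∀ᶠ m : ℕ in atTop, ∀ n : ℕ, m ≤ n → n ≤ m + W m →
      (m = n → ⌊β * (b : ℝ) ^ m + g m⌋₊ ≠ ⌊β * (b : ℝ) ^ n + g' n⌋₊) →
      ¬ ((⌊β * (b : ℝ) ^ m + g m⌋₊).Prime ∧ (⌊β * (b : ℝ) ^ n + g' n⌋₊).Prime) := by
  have hbr : (2 : ℝ) ≤ b := by exact_mod_cast hb
  have hα0 : (0 : ℝ) < b := by linarith
  refine ae_of_exp' (P := fun β : ℝ => ∀ᶠ m : ℕ in atTop, ∀ n : ℕ, m ≤ n → n ≤ m + W m →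
      (m = n → ⌊β * (b : ℝ) ^ m + g m⌋₊ ≠ ⌊β * (b : ℝ) ^ n + g' n⌋₊) →
      ¬ ((⌊β * (b : ℝ) ^ m + g m⌋₊).Prime ∧ (⌊β * (b : ℝ) ^ n + g' n⌋₊).Prime))
      (ae_windows fun b0 => ?_)
  obtain ⟨K, D, hK, hD, P, hP3, hP⟩ := gen_pair hb hκ0 hκ hg hκ0' hκ' hg' b0
  set μ := volume.restrict (Set.Ioc b0 (b0 + 1)) with hμ
  set A : ℕ → Set ℝ := fun m => if P ≤ m then ⋃ n ∈ Finset.Icc m (m + W m), both2 (b : ℝ) g g' m n
    else ∅ with hA
  have hle : ∀ m, μ (A m) ≤ ENNReal.ofReal (K * ((W m : ℝ) / (m : ℝ) ^ 2) +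
      K * (1 / (m : ℝ) ^ 2) +
      2 * D * K * (Real.sqrt m * (Real.log m) ^ 2 / (m : ℝ) ^ 2)) := by
    intro m
    simp only [hA]
    split_ifs with hm
    · refine (measure_biUnion_finset_le _ _).trans ?_
      have h1 : ∀ n ∈ Finset.Icc m (m + W m), μ (both2 (b : ℝ) g g' m n) ≤
          ENNReal.ofReal (K * (1 / (m : ℝ)) ^ 2 + EE K D m n) := by
        intro n hn
        rw [Finset.mem_Icc] at hn
        exact hP m hm n hn.1
      refine (Finset.sum_le_sum h1).trans ?_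
      have hE0 : ∀ n, 0 ≤ EE K D m n := EE_nonneg hK.le m
      rw [← ENNReal.ofReal_sum_of_nonneg (fun n _ => by have := hE0 n; positivity)]
      refine ENNReal.ofReal_le_ofReal ?_
      rw [Finset.sum_add_distrib, Finset.sum_const, Nat.card_Icc, nsmul_eq_mul]
      refine add_le_add (le_of_eq ?_) ?_
      · rw [show m + W m + 1 - m = W m + 1 by omega]
        push_cast
        ring
      -- the loss
      obtain ⟨N, hN⟩ : ∃ N : ℕ, N = ⌊D * Real.sqrt m⌋₊ := ⟨_, rfl⟩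
      have hN1 : (N : ℝ) ≤ D * Real.sqrt m := by
        rw [hN]
        exact Nat.floor_le (by positivity)
      have hsm1 : 1 ≤ Real.sqrt m := by
        rw [Real.one_le_sqrt]
        exact_mod_cast (by omega : 1 ≤ m)
      have hq : 0 ≤ K * (Real.log m) ^ 2 / (m : ℝ) ^ 2 := by positivity
      calc ∑ n ∈ Finset.Icc m (m + W m), EE K D m n ≤
            ∑ n ∈ (Finset.Icc m (m + W m)).filter (fun n : ℕ => (n : ℝ) - m ≤ D * Real.sqrt m),
              K * (Real.log m) ^ 2 / (m : ℝ) ^ 2 := by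
            rw [Finset.sum_filter]
            exact Finset.sum_le_sum fun n _ => le_rfl
        _ ≤ ∑ n ∈ Finset.Icc m (m + N), K * (Real.log m) ^ 2 / (m : ℝ) ^ 2 := by
            refine Finset.sum_le_sum_of_subset_of_nonneg ?_ fun _ _ _ => hq
            intro n hn
            rw [Finset.mem_filter, Finset.mem_Icc] at hn
            rw [Finset.mem_Icc]
            refine ⟨hn.1.1, ?_⟩
            have h3 : ((n - m : ℕ) : ℝ) ≤ D * Real.sqrt m := by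
              rw [Nat.cast_sub hn.1.1]
              exact hn.2
            have h4 : n - m ≤ N := by
              rw [hN]
              exact Nat.le_floor h3
            omega
        _ = (N + 1 : ℝ) * (K * (Real.log m) ^ 2 / (m : ℝ) ^ 2) := by
            rw [Finset.sum_const, Nat.card_Icc, nsmul_eq_mul, show m + N + 1 - m = N + 1 by omega]
            push_cast
            ring
        _ ≤ (2 * D * Real.sqrt m) * (K * (Real.log m) ^ 2 / (m : ℝ) ^ 2) := by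
            refine mul_le_mul_of_nonneg_right ?_ hq
            nlinarith
        _ = _ := by ring
    · simp
  have hsum : (∑' m, μ (A m)) ≠ ⊤ := by
    refine ne_top_of_le_ne_top ?_ (ENNReal.tsum_le_tsum hle)
    have h2 : Summable (fun m : ℕ => 1 / (m : ℝ) ^ 2) := Real.summable_one_div_nat_pow.2 (by norm_num)
    exact (((hW.mul_left K).add (h2.mul_left K)).add
      (summable_loss.mul_left (2 * D * K))).tsum_ofReal_ne_top
  filter_upwards [ae_eventually_notMem hsum, ae_restrict_of_ae (ae_ne hα0 g),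
    ae_restrict_of_ae (ae_ne hα0 g')] with t ht htn htn'
  obtain ⟨P1, hP1⟩ := eventually_atTop.1 (pert8 hα0 hκ0 hκ hg t 8)
  obtain ⟨P2, hP2⟩ := eventually_atTop.1 (pert8 hα0 hκ0' hκ' hg' t 8)
  filter_upwards [ht, eventually_ge_atTop (P + P1 + P2)] with m hm hmP n hn1 hn2 hne hb'
  refine hm ?_
  simp only [hA]
  rw [if_pos (show P ≤ m by omega)]
  simp only [Set.mem_iUnion, Finset.mem_Icc]
  refine ⟨n, ⟨hn1, hn2⟩, ?_⟩
  have h1 : NN (ysh (b : ℝ) g m t) = ⌊Real.exp t * (b : ℝ) ^ m + g m⌋₊ :=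
    NN_floor (exp_ysh hα0 (hP1 m (by omega)) le_rfl).2.1 (fun j => htn m j)
  have h2 : NN (ysh (b : ℝ) g' n t) = ⌊Real.exp t * (b : ℝ) ^ n + g' n⌋₊ :=
    NN_floor (exp_ysh hα0 (hP2 n (by omega)) le_rfl).2.1 (fun j => htn' n j)
  show (NN (ysh (b : ℝ) g m t)).Prime ∧ (NN (ysh (b : ℝ) g' n t)).Prime ∧
    (m = n → NN (ysh (b : ℝ) g m t) ≠ NN (ysh (b : ℝ) g' n t))
  rw [h1, h2]
  exact ⟨hb'.1, hb'.2, hne⟩

end Pool.Agent.X10.AI
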